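import Mathlib

set_option autoImplicit false

open scoped Matrix

namespace Pool.Agent.LM

section ring

variable {R : Type*} [Ring R] [Module ℚ R]

theorem nil_conj_pow (P N Q : R) (h1 : P * Q = 1) (h2 : Q * P = 1) (i : ℕ) :
    (P * N * Q) ^ i = P * N ^ i * Q := by
  induction i with
  | zero => simp [h1]
  | succ i ih =>
    rw [pow_succ, ih, pow_succ]
    calc P * N ^ i * Q * (P * N * Q) = P * N ^ i * (Q * P) * N * Q := by noncomm_ring
      _ = P * (N ^ i * N) * Q := by rw [h2]; noncomm_ring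

theorem nil_exp_pow (N : R) (hN : IsNilpotent N) (m : ℕ) :
    (IsNilpotent.exp N) ^ m = IsNilpotent.exp (m • N) := by
  induction m with
  | zero => simp [IsNilpotent.exp_zero]
  | succ m ih =>
    rw [pow_succ, ih, succ_nsmul, IsNilpotent.exp_add_of_commute _ _ hN]
    · exact (Commute.refl N).smul_left m
    · obtain ⟨k, hk⟩ := hN
      exact ⟨k, by rw [smul_pow, hk, smul_zero]⟩

end ring

variable {F : Type*} [Field F] [CharZero F] {n : ℕ}

/-- truncated exponential `sum_{i < K} t^i A^i / i!`. -/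
noncomputable def Es (K : ℕ) (A : Matrix (Fin n) (Fin n) F) (t : F) : Matrix (Fin n) (Fin n) F :=
  ∑ i ∈ Finset.range K, t ^ i • ((i.factorial : ℚ)⁻¹ • A ^ i)

theorem Es_eq {K : ℕ} {A : Matrix (Fin n) (Fin n) F} (hA : A ^ K = 0) (t : F) :
    Es K A t = IsNilpotent.exp (t • A) := by
  rw [IsNilpotent.exp_eq_sum (k := K) (by rw [smul_pow, hA, smul_zero]), Es]
  refine Finset.sum_congr rfl fun i _ => ?_
  rw [smul_pow, smul_comm]

theorem Es_zero {K : ℕ} (hK : 0 < K) (A : Matrix (Fin n) (Fin n) F) : Es K A 0 = 1 := by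
  obtain ⟨k, rfl⟩ : ∃ k, K = k + 1 := ⟨K - 1, by omega⟩
  rw [Es, Finset.sum_range_succ', Finset.sum_eq_zero]
  · simp
  · intro i _
    simp

theorem conj_nat {G : Type*} [Group G] (V : G →* Matrix (Fin n) (Fin n) F)
    (M : Subgroup G) [M.Normal] (N : Matrix (Fin n) (Fin n) F) (s : G) (hs : s ∈ M)
    (hVs : V s = IsNilpotent.exp N) (K : ℕ) (hK : N ^ K = 0) (g : G) (m : ℕ) :
    ∃ σ ∈ M, V σ = Es K (V g * N * V g⁻¹) (m : F) := by
  have h1 : V g * V g⁻¹ = 1 := by rw [← map_mul, mul_inv_cancel, map_one]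
  have h2 : V g⁻¹ * V g = 1 := by rw [← map_mul, inv_mul_cancel, map_one]
  have hA : (V g * N * V g⁻¹) ^ K = 0 := by
    rw [nil_conj_pow _ _ _ h1 h2, hK]; simp
  refine ⟨g * s ^ m * g⁻¹, Subgroup.Normal.conj_mem ‹_› _ (M.pow_mem hs m) g, ?_⟩
  rw [Es_eq hA, map_mul, map_mul, map_pow, hVs, nil_exp_pow N ⟨K, hK⟩]
  have e1 : (m • N : Matrix (Fin n) (Fin n) F) = (m : F) • N := by
    rw [Nat.cast_smul_eq_nsmul]
  have e2 : (m : F) • (V g * N * V g⁻¹) = V g * ((m : F) • N) * V g⁻¹ := by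
    rw [Matrix.mul_smul, Matrix.smul_mul]
  rw [e1, e2, IsNilpotent.exp_eq_sum (k := K) (a := (m : F) • N) (by rw [smul_pow, hK, smul_zero]),
    IsNilpotent.exp_eq_sum (k := K) (a := V g * ((m : F) • N) * V g⁻¹)
      (by rw [nil_conj_pow _ _ _ h1 h2, smul_pow, hK]; simp)]
  rw [Finset.mul_sum, Finset.sum_mul]
  refine Finset.sum_congr rfl fun i _ => ?_
  rw [nil_conj_pow _ _ _ h1 h2, Matrix.mul_smul, Matrix.smul_mul]

/-- the conjugates of `N` lie in the Lie algebra of `J`. -/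
theorem conj_lie (P Q J N : Matrix (Fin n) (Fin n) F) (h1 : P * Q = 1) (c : F)
    (hc : Pᵀ * J * P = c • J) (hNJ : Nᵀ * J + J * N = 0) :
    (P * N * Q)ᵀ * J + J * (P * N * Q) = 0 := by
  have h2 : Q * P = 1 := mul_eq_one_comm.1 h1
  have h3 : Qᵀ * Pᵀ = 1 := by rw [← Matrix.transpose_mul, h1, Matrix.transpose_one]
  have e1 : J * P = c • (Qᵀ * J) := by
    calc J * P = (Qᵀ * Pᵀ) * J * P := by rw [h3, one_mul]
      _ = Qᵀ * (Pᵀ * J * P) := by simp only [Matrix.mul_assoc]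
      _ = c • (Qᵀ * J) := by rw [hc, Matrix.mul_smul]
  have e2 : Pᵀ * J = c • (J * Q) := by
    calc Pᵀ * J = Pᵀ * J * (P * Q) := by rw [h1, mul_one]
      _ = (Pᵀ * J * P) * Q := by simp only [Matrix.mul_assoc]
      _ = c • (J * Q) := by rw [hc, Matrix.smul_mul]
  have e3 : Nᵀ * J = -(J * N) := eq_neg_of_add_eq_zero_left hNJ
  calc (P * N * Q)ᵀ * J + J * (P * N * Q)
      = Qᵀ * (Nᵀ * (Pᵀ * J)) + (J * P) * (N * Q) := by
        simp only [Matrix.transpose_mul, Matrix.mul_assoc]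
    _ = c • (Qᵀ * ((Nᵀ * J) * Q)) + c • (Qᵀ * (J * (N * Q))) := by
        rw [e1, e2]
        simp only [Matrix.mul_smul, Matrix.smul_mul, Matrix.mul_assoc]
    _ = 0 := by
        rw [e3]
        simp only [Matrix.neg_mul, Matrix.mul_neg, Matrix.mul_assoc, smul_neg]
        exact neg_add_cancel _

theorem lie_pow (B J : Matrix (Fin n) (Fin n) F) (hB : Bᵀ * J + J * B = 0) (i : ℕ) :
    (B ^ i)ᵀ * J = J * (-B) ^ i := by
  have e : Bᵀ * J = J * (-B) := by
    rw [Matrix.mul_neg]; exact eq_neg_of_add_eq_zero_left hB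
  induction i with
  | zero => simp
  | succ i ih =>
    rw [pow_succ, Matrix.transpose_mul, Matrix.mul_assoc, ih, ← Matrix.mul_assoc, e,
      Matrix.mul_assoc, ← pow_succ']

/-- the exponential of a nilpotent element of the Lie algebra is an isometry. -/
theorem exp_isom (B J : Matrix (Fin n) (Fin n) F) (hB : Bᵀ * J + J * B = 0)
    (hn : IsNilpotent B) : (IsNilpotent.exp B)ᵀ * J * IsNilpotent.exp B = J := by
  obtain ⟨k, hk⟩ := hn
  have hk' : (-B) ^ k = 0 := by rw [neg_pow, hk, mul_zero]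
  have e : (IsNilpotent.exp B)ᵀ * J = J * IsNilpotent.exp (-B) := by
    rw [IsNilpotent.exp_eq_sum hk, IsNilpotent.exp_eq_sum hk', Matrix.transpose_sum,
      Finset.sum_mul, Finset.mul_sum]
    refine Finset.sum_congr rfl fun i _ => ?_
    rw [Matrix.transpose_smul, Matrix.smul_mul, Matrix.mul_smul, lie_pow B J hB]
  rw [e, Matrix.mul_assoc, IsNilpotent.exp_neg_mul_exp_self ⟨k, hk⟩, mul_one]

/-- the linear map `p(g) = (g - J⁻¹ gᵀ J)/2`. -/
noncomputable def pJ (J : Matrix (Fin n) (Fin n) F) :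
    Matrix (Fin n) (Fin n) F →ₗ[F] Matrix (Fin n) (Fin n) F where
  toFun g := (2 : F)⁻¹ • (g - J⁻¹ * gᵀ * J)
  map_add' g h := by
    rw [Matrix.transpose_add, Matrix.mul_add, Matrix.add_mul, ← smul_add]
    congr 1
    abel
  map_smul' c g := by
    simp only [Matrix.transpose_smul, Matrix.mul_smul, Matrix.smul_mul, RingHom.id_apply]
    rw [← smul_sub, smul_comm]

theorem pJ_apply (J g : Matrix (Fin n) (Fin n) F) :
    pJ J g = (2 : F)⁻¹ • (g - J⁻¹ * gᵀ * J) := rfl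

theorem pJ_one (J : Matrix (Fin n) (Fin n) F) (hJ : J.det ≠ 0) : pJ J 1 = 0 := by
  have hu : IsUnit J.det := isUnit_iff_ne_zero.2 hJ
  rw [pJ_apply, Matrix.transpose_one, mul_one, Matrix.nonsing_inv_mul _ hu, sub_self, smul_zero]

theorem pJ_mem (J : Matrix (Fin n) (Fin n) F) (hJ : J.det ≠ 0) (hJs : Jᵀ = J ∨ Jᵀ = -J)
    (g : Matrix (Fin n) (Fin n) F) : (pJ J g)ᵀ * J + J * pJ J g = 0 := by
  have hu : IsUnit J.det := isUnit_iff_ne_zero.2 hJ
  have h1 : J * J⁻¹ = 1 := Matrix.mul_nonsing_inv _ hu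
  have h2 : J⁻¹ * J = 1 := Matrix.nonsing_inv_mul _ hu
  have h4 : Jᵀ * g * (J⁻¹)ᵀ * J = J * g := by
    have hT : (J⁻¹)ᵀ * Jᵀ = 1 := by rw [← Matrix.transpose_mul, h1, Matrix.transpose_one]
    rcases hJs with h | h
    · rw [h] at hT
      rw [h, Matrix.mul_assoc, hT, mul_one]
    · have hT' : (J⁻¹)ᵀ * J = -1 := by
        rw [h, Matrix.mul_neg] at hT
        exact neg_eq_iff_eq_neg.1 hT
      rw [h, Matrix.mul_assoc, hT']
      simp
  rw [pJ_apply, Matrix.transpose_smul, Matrix.smul_mul, Matrix.mul_smul, ← smul_add,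
    Matrix.transpose_sub, Matrix.transpose_mul, Matrix.transpose_mul, Matrix.transpose_transpose,
    Matrix.sub_mul, Matrix.mul_sub]
  have h5 : J * (J⁻¹ * gᵀ * J) = gᵀ * J := by
    rw [Matrix.mul_assoc, ← Matrix.mul_assoc J, h1, one_mul]
  have h6 : Jᵀ * (g * (J⁻¹)ᵀ) * J = J * g := by rw [← h4]; simp only [Matrix.mul_assoc]
  rw [h5, h6]
  have : gᵀ * J - J * g + (J * g - gᵀ * J) = 0 := by abel
  rw [this, smul_zero]

theorem pJ_lie (J : Matrix (Fin n) (Fin n) F) (hJ : J.det ≠ 0) (x : Matrix (Fin n) (Fin n) F)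
    (hx : xᵀ * J + J * x = 0) : pJ J x = x := by
  have hu : IsUnit J.det := isUnit_iff_ne_zero.2 hJ
  have h2 : J⁻¹ * J = 1 := Matrix.nonsing_inv_mul _ hu
  have e : xᵀ * J = -(J * x) := eq_neg_of_add_eq_zero_left hx
  rw [pJ_apply, Matrix.mul_assoc, e, Matrix.mul_neg, ← Matrix.mul_assoc, h2, one_mul,
    sub_neg_eq_add, ← two_smul F x, smul_smul, inv_mul_cancel₀ two_ne_zero, one_smul]

theorem isom_inv (J g : Matrix (Fin n) (Fin n) F) (hJ : J.det ≠ 0) (hg : gᵀ * J * g = J) :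
    (J⁻¹ * gᵀ * J) * g = 1 ∧ g * (J⁻¹ * gᵀ * J) = 1 := by
  have hu : IsUnit J.det := isUnit_iff_ne_zero.2 hJ
  have h1 : (J⁻¹ * gᵀ * J) * g = 1 := by
    rw [Matrix.mul_assoc, Matrix.mul_assoc, ← Matrix.mul_assoc gᵀ, hg,
      Matrix.nonsing_inv_mul _ hu]
  exact ⟨h1, mul_eq_one_comm.1 h1⟩

/-- the Lie algebra of `J`. -/
def lieJ (J : Matrix (Fin n) (Fin n) F) : Submodule F (Matrix (Fin n) (Fin n) F) where
  carrier := {A | Aᵀ * J + J * A = 0}
  add_mem' {a b} ha hb := by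
    simp only [Set.mem_setOf_eq] at ha hb ⊢
    rw [Matrix.transpose_add, Matrix.add_mul, Matrix.mul_add]
    have : aᵀ * J + bᵀ * J + (J * a + J * b) = (aᵀ * J + J * a) + (bᵀ * J + J * b) := by abel
    rw [this, ha, hb, add_zero]
  zero_mem' := by simp
  smul_mem' c a ha := by
    simp only [Set.mem_setOf_eq] at ha ⊢
    rw [Matrix.transpose_smul, Matrix.smul_mul, Matrix.mul_smul, ← smul_add, ha, smul_zero]

theorem mem_lieJ {J A : Matrix (Fin n) (Fin n) F} : A ∈ lieJ J ↔ Aᵀ * J + J * A = 0 := Iff.rfl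

end Pool.Agent.LM
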