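import Pool.Agent.Lib_helper51.LM.BlockOC

set_option autoImplicit false

open Matrix

/-!
# Block O, last part: the change of coordinates
-/

namespace Pool.Agent.LM.BR

/-- conjugation -/
def cj {k : Type*} [Field k] {n : ℕ} (P Q : Matrix (Fin n) (Fin n) k) :
    Matrix (Fin n) (Fin n) k →ₗ[k] Matrix (Fin n) (Fin n) k where
  toFun := fun B => Q * B * P
  map_add' := fun a b => by rw [Matrix.mul_add, Matrix.add_mul]
  map_smul' := fun c a => by
    rw [Matrix.mul_smul, Matrix.smul_mul]; rfl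

/-- the coordinates in which `e` is the shift and `φ` is diagonal -/
theorem coords {k : Type*} [Field k] {n : ℕ} (hn : 2 ≤ n)
    (J : Matrix (Fin n) (Fin n) k) (hJ : J.det ≠ 0)
    (L : Submodule k (Matrix (Fin n) (Fin n) k)) (hLJ : ∀ A ∈ L, Aᵀ * J + J * A = 0)
    (hL : ∀ A ∈ L, ∀ B ∈ L, A * B - B * A ∈ L)
    (e φ ψ : Matrix (Fin n) (Fin n) k) (he : e ∈ L) (hen : IsNilpotent e) (he1 : e ^ (n - 1) ≠ 0)
    (hφ : φ * ψ = 1) (q : k) (hq : ∀ m : ℕ, 0 < m → q ^ m ≠ 1)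
    (hrel : e * φ = q • (φ * e)) (hφL : ∀ A ∈ L, φ * A * ψ ∈ L)
    (hirr : ∀ W : Submodule k (Fin n → k), (∀ A ∈ L, ∀ x ∈ W, A *ᵥ x ∈ W) → W = ⊥ ∨ W = ⊤) :
    ∃ P Q : Matrix (Fin n) (Fin n) k, P * Q = 1 ∧ Q * P = 1 ∧ P * e * Q = E k n ∧
      Ctx (Qᵀ * J * Q) (L.comap (cj P Q)) := by
  have hen' : e ^ n = 0 := nil_pow hen
  have hφdet : φ.det ≠ 0 := by
    intro h0
    have h1 := congrArg Matrix.det hφ
    rw [Matrix.det_mul, h0, zero_mul, Matrix.det_one] at h1
    exact zero_ne_one h1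
  obtain ⟨hq0, u, lam, hlam, hφu, hu⟩ := exists_eig hn hen' he1 hφdet hq hrel
  obtain ⟨Q, hQ⟩ : ∃ Q, Q = bs e u := ⟨_, rfl⟩
  have hQdet : Q.det ≠ 0 := by rw [hQ]; exact bs_det hen' hu (by omega)
  have hQu : IsUnit Q.det := isUnit_iff_ne_zero.mpr hQdet
  obtain ⟨P, hP⟩ : ∃ P, P = Q⁻¹ := ⟨_, rfl⟩
  have hPQ : P * Q = 1 := by rw [hP]; exact Matrix.nonsing_inv_mul _ hQu
  have hQP : Q * P = 1 := by rw [hP]; exact Matrix.mul_nonsing_inv _ hQu
  have heQ : e * Q = Q * E k n := by rw [hQ]; exact e_mul_bs hen' u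
  have hPeQ : P * e * Q = E k n := by
    rw [Matrix.mul_assoc, heQ, ← Matrix.mul_assoc, hPQ, Matrix.one_mul]
  have hQEP : Q * E k n * P = e := by
    rw [← heQ, Matrix.mul_assoc, hQP, Matrix.mul_one]
  -- `φ` in the new coordinates
  obtain ⟨D, hD⟩ : ∃ D : Matrix (Fin n) (Fin n) k,
    D = Matrix.diagonal fun i : Fin n => lam * (q⁻¹) ^ i.val := ⟨_, rfl⟩
  obtain ⟨D', hD'⟩ : ∃ D' : Matrix (Fin n) (Fin n) k,
    D' = Matrix.diagonal fun i : Fin n => lam⁻¹ * q ^ i.val := ⟨_, rfl⟩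
  have hDD : D * D' = 1 := by
    rw [hD, hD', Matrix.diagonal_mul_diagonal, ← Matrix.diagonal_one]
    congr 1
    ext i
    rw [inv_pow]
    have := pow_ne_zero i.val hq0
    field_simp
  have hφQ : φ * Q = Q * D := by
    ext i j
    have h1 : (φ * Q) i j = (φ *ᵥ ((e ^ j.val) *ᵥ u)) i := by rw [hQ]; rfl
    have h2 : φ *ᵥ ((e ^ j.val) *ᵥ u) = (lam * (q⁻¹) ^ j.val) • ((e ^ j.val) *ᵥ u) := by
      have h3 := eig_step hrel hφu j.val
      have hqj := pow_ne_zero j.val hq0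
      calc φ *ᵥ ((e ^ j.val) *ᵥ u) = (q ^ j.val)⁻¹ • (q ^ j.val • (φ *ᵥ ((e ^ j.val) *ᵥ u))) := by
            rw [smul_smul, inv_mul_cancel₀ hqj, one_smul]
        _ = _ := by rw [h3, smul_smul, inv_pow, mul_comm]
    rw [h1, h2, hD, Matrix.mul_diagonal, Pi.smul_apply, smul_eq_mul, mul_comm, hQ]
    rfl
  have hQDP : Q * D * P = φ := by rw [← hφQ, Matrix.mul_assoc, hQP, Matrix.mul_one]
  have hQDP' : Q * D' * P = ψ := by
    have h1 : φ * (Q * D' * P) = 1 := by
      rw [← Matrix.mul_assoc, ← Matrix.mul_assoc, hφQ, Matrix.mul_assoc Q D D', hDD, Matrix.mul_one,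
        hQP]
    have h2 : ψ * φ = 1 := mul_eq_one_comm.mp hφ
    calc Q * D' * P = ψ * φ * (Q * D' * P) := by rw [h2, Matrix.one_mul]
      _ = ψ := by rw [Matrix.mul_assoc, h1, Matrix.mul_one]
  -- the Lie algebra in the new coordinates
  let L' : Submodule k (Matrix (Fin n) (Fin n) k) := L.comap (cj P Q)
  have hL' : ∀ B, B ∈ L' ↔ Q * B * P ∈ L := fun B => Iff.rfl
  have hinv : ∀ A, Q * (P * A * Q) * P = A := by
    intro A
    calc Q * (P * A * Q) * P = (Q * P) * A * (Q * P) := by simp only [Matrix.mul_assoc]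
      _ = A := by rw [hQP, Matrix.one_mul, Matrix.mul_one]
  have hinv' : ∀ B, P * (Q * B * P) * Q = B := by
    intro B
    calc P * (Q * B * P) * Q = (P * Q) * B * (P * Q) := by simp only [Matrix.mul_assoc]
      _ = B := by rw [hPQ, Matrix.one_mul, Matrix.mul_one]
  have hcmul : ∀ A B, Q * (A * B) * P = (Q * A * P) * (Q * B * P) := by
    intro A B
    calc Q * (A * B) * P = Q * A * 1 * B * P := by simp only [Matrix.mul_assoc, Matrix.one_mul]
      _ = Q * A * (P * Q) * B * P := by rw [hPQ]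
      _ = (Q * A * P) * (Q * B * P) := by simp only [Matrix.mul_assoc]
  have C : Ctx (Qᵀ * J * Q) L' := by
    refine ⟨by omega, ?_, ?_, ?_, ?_, ?_, ?_⟩
    · rw [Matrix.det_mul, Matrix.det_mul, Matrix.det_transpose]
      exact mul_ne_zero (mul_ne_zero hQdet hJ) hQdet
    · intro B hB
      have h1 := hLJ _ ((hL' B).mp hB)
      have hQtPt : Qᵀ * Pᵀ = 1 := by rw [← Matrix.transpose_mul, hPQ, Matrix.transpose_one]
      calc Bᵀ * (Qᵀ * J * Q) + Qᵀ * J * Q * B
          = (Qᵀ * Pᵀ) * Bᵀ * (Qᵀ * J * Q) + Qᵀ * J * Q * B * (P * Q) := by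
            rw [hQtPt, hPQ, Matrix.one_mul, Matrix.mul_one]
        _ = Qᵀ * ((Q * B * P)ᵀ * J + J * (Q * B * P)) * Q := by
            rw [Matrix.transpose_mul, Matrix.transpose_mul, Matrix.mul_add, Matrix.add_mul]
            simp only [Matrix.mul_assoc]
        _ = 0 := by rw [h1, Matrix.mul_zero, Matrix.zero_mul]
    · intro A hA B hB
      rw [hL', Matrix.mul_sub, Matrix.sub_mul, hcmul, hcmul]
      exact hL _ hA _ hB
    · rw [hL', hQEP]
      exact he
    · refine graded hq0 hq ?_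
      intro B hB
      have h1 : (Matrix.of fun i j : Fin n => ((q⁻¹) ^ i.val * q ^ j.val) * B i j) = D * B * D' := by
        ext i j
        rw [hD, hD', Matrix.of_apply, Matrix.mul_diagonal, Matrix.diagonal_mul]
        field_simp
      rw [h1, hL', hcmul, hcmul, hQDP, hQDP']
      exact hφL _ hB
    · intro W hW
      let W' : Submodule k (Fin n → k) := W.comap (toLin' P)
      have hW' : ∀ x, x ∈ W' ↔ P *ᵥ x ∈ W := fun x => by
        rw [Submodule.mem_comap, toLin'_apply]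
      have hs : ∀ A ∈ L, ∀ x ∈ W', A *ᵥ x ∈ W' := by
        intro A hA x hx
        rw [hW'] at hx ⊢
        have h1 : P * A * Q ∈ L' := by rw [hL', hinv]; exact hA
        have h2 := hW _ h1 _ hx
        rw [Matrix.mulVec_mulVec, Matrix.mul_assoc, hQP, Matrix.mul_one] at h2
        rw [Matrix.mulVec_mulVec]
        exact h2
      rcases hirr W' hs with h | h
      · left
        rw [Submodule.eq_bot_iff]
        intro y hy
        have h1 : Q *ᵥ y ∈ W' := by
          rw [hW', Matrix.mulVec_mulVec, hPQ, Matrix.one_mulVec]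
          exact hy
        rw [h, Submodule.mem_bot] at h1
        calc y = P *ᵥ (Q *ᵥ y) := by rw [Matrix.mulVec_mulVec, hPQ, Matrix.one_mulVec]
          _ = 0 := by rw [h1, Matrix.mulVec_zero]
      · right
        rw [Submodule.eq_top_iff']
        intro y
        have h1 : Q *ᵥ y ∈ W' := by rw [h]; exact Submodule.mem_top
        rw [hW', Matrix.mulVec_mulVec, hPQ, Matrix.one_mulVec] at h1
        exact h1
  exact ⟨P, Q, hPQ, hQP, hPeQ, C⟩

end Pool.Agent.LM.BR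

namespace Pool.Agent.LM

open BR in
/-- block O: a Lie algebra `L` of matrices in `so (J)` (`J` symmetric) that acts irreducibly and
contains a nilpotent matrix `e` with one Jordan block is the principal `sl 2`, or every nonzero
subspace of `so (J)` that is stable under `L` is everything. -/
theorem blockO {k : Type*} [Field k] [CharZero k] {n : ℕ} (hn : 2 ≤ n) (hn7 : n ≠ 7)
    (J : Matrix (Fin n) (Fin n) k) (hJ : J.det ≠ 0) (hJs : Jᵀ = J)
    (L : Submodule k (Matrix (Fin n) (Fin n) k)) (hLJ : ∀ A ∈ L, Aᵀ * J + J * A = 0)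
    (hL : ∀ A ∈ L, ∀ B ∈ L, A * B - B * A ∈ L)
    (e φ ψ : Matrix (Fin n) (Fin n) k) (he : e ∈ L) (hen : IsNilpotent e) (he1 : e ^ (n - 1) ≠ 0)
    (hφ : φ * ψ = 1) (q : k) (hq : ∀ m : ℕ, 0 < m → q ^ m ≠ 1)
    (hrel : e * φ = q • (φ * e)) (hφL : ∀ A ∈ L, φ * A * ψ ∈ L)
    (hirr : ∀ W : Submodule k (Fin n → k), (∀ A ∈ L, ∀ x ∈ W, A *ᵥ x ∈ W) → W = ⊥ ∨ W = ⊤) :
    (∀ M : Submodule k (Matrix (Fin n) (Fin n) k), M ≠ ⊥ → (∀ A ∈ M, Aᵀ * J + J * A = 0) →
      (∀ A ∈ L, ∀ B ∈ M, A * B - B * A ∈ M) → (∀ A ∈ M, φ * A * ψ ∈ M) →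
      ∀ A, Aᵀ * J + J * A = 0 → A ∈ M) ∨
      (3 < n ∧ ∃ (P Q : Matrix (Fin n) (Fin n) k) (h f : Matrix (Fin n) (Fin n) k), P * Q = 1 ∧
        P * e * Q = Matrix.of (fun i j => if i.val = j.val + 1 then 1 else 0) ∧
        P * h * Q = Matrix.diagonal (fun i => (i.val : k) - ((n : k) - 1) / 2) ∧
        P * f * Q = Matrix.of (fun i j => if i.val + 1 = j.val then
          (j.val : k) * ((n : k) - j.val) / 2 else 0) ∧
        h ∈ L ∧ f ∈ L ∧ L ≤ Submodule.span k {e, h, f}) := by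
  obtain ⟨P, Q, hPQ, hQP, hPeQ, C⟩ := coords hn J hJ L hLJ hL e φ ψ he hen he1 hφ q hq hrel hφL hirr
  have hinv : ∀ A, Q * (P * A * Q) * P = A := by
    intro A
    calc Q * (P * A * Q) * P = (Q * P) * A * (Q * P) := by simp only [Matrix.mul_assoc]
      _ = A := by rw [hQP, Matrix.one_mul, Matrix.mul_one]
  have hinv' : ∀ B, P * (Q * B * P) * Q = B := by
    intro B
    calc P * (Q * B * P) * Q = (P * Q) * B * (P * Q) := by simp only [Matrix.mul_assoc]
      _ = B := by rw [hPQ, Matrix.one_mul, Matrix.mul_one]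
  have hcmul : ∀ A B, Q * (A * B) * P = (Q * A * P) * (Q * B * P) := by
    intro A B
    calc Q * (A * B) * P = Q * A * 1 * B * P := by simp only [Matrix.mul_assoc, Matrix.one_mul]
      _ = Q * A * (P * Q) * B * P := by rw [hPQ]
      _ = (Q * A * P) * (Q * B * P) := by simp only [Matrix.mul_assoc]
  have hQtPt : Qᵀ * Pᵀ = 1 := by rw [← Matrix.transpose_mul, hPQ, Matrix.transpose_one]
  have hPtQt : Pᵀ * Qᵀ = 1 := by rw [← Matrix.transpose_mul, hQP, Matrix.transpose_one]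
  -- the Lie algebras of the two forms
  have hso1 : ∀ B, (Q * B * P)ᵀ * J + J * (Q * B * P) = 0 → B ∈ so (Qᵀ * J * Q) := by
    intro B h1
    show Bᵀ * (Qᵀ * J * Q) + Qᵀ * J * Q * B = 0
    calc Bᵀ * (Qᵀ * J * Q) + Qᵀ * J * Q * B
        = (Qᵀ * Pᵀ) * Bᵀ * (Qᵀ * J * Q) + Qᵀ * J * Q * B * (P * Q) := by
          rw [hQtPt, hPQ, Matrix.one_mul, Matrix.mul_one]
      _ = Qᵀ * ((Q * B * P)ᵀ * J + J * (Q * B * P)) * Q := by
          rw [Matrix.transpose_mul, Matrix.transpose_mul, Matrix.mul_add, Matrix.add_mul]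
          simp only [Matrix.mul_assoc]
      _ = 0 := by rw [h1, Matrix.mul_zero, Matrix.zero_mul]
  have hJs' : (Qᵀ * J * Q)ᵀ = Qᵀ * J * Q := by
    rw [Matrix.transpose_mul, Matrix.transpose_mul, Matrix.transpose_transpose, hJs, Matrix.mul_assoc]
  rcases C.blockO hJs' hn hn7 with h | ⟨h3, hH, hF, hspan⟩
  · left
    intro M hM0 hMs hML _ A hA
    have h1 := h (M.comap (cj P Q)) ?_ ?_ ?_
    · have h2 : P * A * Q ∈ so (Qᵀ * J * Q) := hso1 _ (by rw [hinv]; exact hA)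
      have h4 : Q * (P * A * Q) * P ∈ M := h1 h2
      rwa [hinv] at h4
    · obtain ⟨B, hB, hB0⟩ := Submodule.exists_mem_ne_zero_of_ne_bot hM0
      intro hbot
      apply hB0
      have h2 : P * B * Q ∈ M.comap (cj P Q) := by
        show Q * (P * B * Q) * P ∈ M
        rw [hinv]; exact hB
      rw [hbot, Submodule.mem_bot] at h2
      rw [← hinv B, h2, Matrix.mul_zero, Matrix.zero_mul]
    · intro B hB
      exact hso1 B (hMs _ hB)
    · intro X hX B hB
      show Q * (X * B - B * X) * P ∈ M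
      rw [Matrix.mul_sub, Matrix.sub_mul, hcmul, hcmul]
      exact hML _ hX _ hB
  · right
    refine ⟨h3, P, Q, Q * Hd k n * P, Q * Fd k n * P, hPQ, hPeQ, hinv' _, hinv' _, hH, hF, ?_⟩
    intro A hA
    have h1 : P * A * Q ∈ L.comap (cj P Q) := by
      show Q * (P * A * Q) * P ∈ L
      rw [hinv]; exact hA
    have h2 : (cj P Q) (P * A * Q) ∈ (Submodule.span k {E k n, Hd k n, Fd k n}).map (cj P Q) :=
      Submodule.mem_map_of_mem (hspan h1)
    rw [Submodule.map_span] at h2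
    have h3 : (cj P Q) (P * A * Q) = A := hinv A
    rw [h3] at h2
    have hQEP : Q * E k n * P = e := by rw [← hPeQ, hinv]
    have h4 : (cj P Q) '' {E k n, Hd k n, Fd k n} = {e, Q * Hd k n * P, Q * Fd k n * P} := by
      rw [Set.image_insert_eq, Set.image_pair]
      show ({Q * E k n * P, _, _} : Set _) = _
      rw [hQEP]
      rfl
    rw [h4] at h2
    exact h2

end Pool.Agent.LM
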