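import Pool.Agent.Lib_helper51.LM.BlockR

set_option autoImplicit false

open Matrix

/-!
# Block O, first part: the highest degree, symmetric forms
-/

namespace Pool.Agent.LM.BR

/-- the diophantine equation of step 1 -/
theorem pell {N m : ℕ} (hm : Odd m) (h : N * (N + 1) = 2 * (m * (m + 1))) : False := by
  have h1 : (2 * N + 1) ^ 2 + 1 = 2 * (2 * m + 1) ^ 2 := by nlinarith
  have h2 : ∀ p ∈ (2 * m + 1).primeFactorsList, p % 4 = 1 := by
    intro p hp
    have hpp : p.Prime := Nat.prime_of_mem_primeFactorsList hp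
    have hpd : p ∣ 2 * m + 1 := Nat.dvd_of_mem_primeFactorsList hp
    have : Fact p.Prime := ⟨hpp⟩
    have hodd : p % 2 = 1 := by
      rcases hpp.eq_two_or_odd with h3 | h3
      · subst h3
        omega
      · exact h3
    have h3 : ((2 * N + 1 : ℕ) : ZMod p) ^ 2 = -1 := by
      have h4 : (((2 * N + 1) ^ 2 + 1 : ℕ) : ZMod p) = 0 := by
        rw [h1]
        have : ((2 * m + 1 : ℕ) : ZMod p) = 0 := (ZMod.natCast_eq_zero_iff _ _).mpr hpd
        push_cast at this ⊢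
        rw [this]
        ring
      push_cast at h4 ⊢
      exact eq_neg_of_add_eq_zero_left h4
    have h5 := ZMod.mod_four_ne_three_of_sq_eq_neg_one h3
    omega
  have h3 : ∀ l : List ℕ, (∀ p ∈ l, p % 4 = 1) → l.prod % 4 = 1 := by
    intro l
    induction l with
    | nil => intro _; rfl
    | cons a l ih =>
      intro hl
      rw [List.prod_cons, Nat.mul_mod, hl a (by simp), ih (fun p hp => hl p (by simp [hp]))]
  have h4 := h3 _ h2
  rw [Nat.prod_primeFactorsList (by omega)] at h4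
  obtain ⟨a, ha⟩ := hm
  omega

variable {k : Type*} [Field k] {n : ℕ}
variable {J : Matrix (Fin n) (Fin n) k} {L : Submodule k (Matrix (Fin n) (Fin n) k)}

/-- the numbers of the relation `[E, Z_r] = a_r Z_(r-1)` -/
def aa (k : Type*) [Field k] (m r : ℕ) : k := (r : k) * m - (r : k) * ((r : k) - 1) / 2

theorem jacobi (X : Matrix (Fin n) (Fin n) k) :
    E k n * (Fd k n * X - X * Fd k n) - (Fd k n * X - X * Fd k n) * E k n =
      ((E k n * Fd k n - Fd k n * E k n) * X - X * (E k n * Fd k n - Fd k n * E k n)) +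
        (Fd k n * (E k n * X - X * E k n) - (E k n * X - X * E k n) * Fd k n) := by
  noncomm_ring

theorem E_Z [CharZero k] (m r : ℕ) :
    E k n * Z k n m (r + 1) - Z k n m (r + 1) * E k n = aa k m (r + 1) • Z k n m r := by
  induction r with
  | zero =>
    have h0 : Z k n m (0 + 1) = Fd k n * Z k n m 0 - Z k n m 0 * Fd k n := rfl
    have h : E k n * Z k n m 0 - Z k n m 0 * E k n = 0 := by
      show E k n * E k n ^ m - E k n ^ m * E k n = 0
      rw [← pow_succ', ← pow_succ, sub_self]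
    rw [h0, jacobi, EF, Hd_comm (Z_gr m 0), h, Matrix.mul_zero, Matrix.zero_mul, sub_zero, add_zero, aa]
    congr 1
    push_cast
    ring
  | succ r ih =>
    rw [Z, jacobi, EF, Hd_comm (Z_gr m (r + 1)), ih, Matrix.mul_smul, Matrix.smul_mul, ← smul_sub]
    have h : Fd k n * Z k n m r - Z k n m r * Fd k n = Z k n m (r + 1) := rfl
    rw [h, ← add_smul, aa, aa]
    congr 1
    push_cast
    ring

/-- the numbers `Z_r u_0 = c_r E^(m-r) u_0` -/
def cz (k : Type*) [Field k] (n m : ℕ) : ℕ → k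
  | 0 => 1
  | r + 1 => cz k n m r * ((((m - r : ℕ) : k) * ((n : k) - ((m - r : ℕ) : k))) / 2)

theorem cz_ne [CharZero k] {m : ℕ} (hm : m < n) (r : ℕ) (hr : r ≤ m) : cz k n m r ≠ 0 := by
  induction r with
  | zero => exact one_ne_zero
  | succ r ih =>
    rw [cz]
    refine mul_ne_zero (ih (by omega)) (div_ne_zero (mul_ne_zero ?_ ?_) two_ne_zero)
    · exact_mod_cast (by omega : m - r ≠ 0)
    · rw [sub_ne_zero]
      exact_mod_cast (by omega : n ≠ m - r)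

theorem Z_u0' [CharZero k] (hn : 0 < n) {m : ℕ} (r : ℕ) (hr : r ≤ m) :
    Z k n m r *ᵥ u0 k hn = cz k n m r • ((E k n ^ (m - r)) *ᵥ u0 k hn) := by
  induction r with
  | zero => rw [cz, one_smul]; rfl
  | succ r ih =>
    obtain ⟨s, hs⟩ : ∃ s, m - r = s + 1 := ⟨m - r - 1, by omega⟩
    have e : m - (r + 1) = s := by omega
    rw [Z, Matrix.sub_mulVec, ← Matrix.mulVec_mulVec, ← Matrix.mulVec_mulVec, Fd_u0,
      Matrix.mulVec_zero, sub_zero, ih (by omega), Matrix.mulVec_smul, cz, hs, Fd_E_u0, smul_smul, e]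
    push_cast
    rfl

theorem Z_u1 [CharZero k] (hn : 0 < n) {m : ℕ} (r : ℕ) (hr : r + 1 ≤ m) :
    Z k n m (r + 1) *ᵥ (E k n *ᵥ u0 k hn) =
      (cz k n m (r + 1) - aa k m (r + 1) * cz k n m r) • ((E k n ^ (m - r)) *ᵥ u0 k hn) := by
  have h1 : Z k n m (r + 1) *ᵥ (E k n *ᵥ u0 k hn) =
      E k n *ᵥ (Z k n m (r + 1) *ᵥ u0 k hn) - (aa k m (r + 1) • Z k n m r) *ᵥ u0 k hn := by
    rw [← E_Z, Matrix.sub_mulVec, ← Matrix.mulVec_mulVec, ← Matrix.mulVec_mulVec, sub_sub_cancel]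
  rw [h1, Z_u0' hn (r + 1) hr, Matrix.smul_mulVec, Z_u0' hn r (by omega), Matrix.mulVec_smul,
    Matrix.mulVec_mulVec, ← pow_succ', smul_smul, sub_smul]
  have e : m - (r + 1) + 1 = m - r := by omega
  rw [e]

theorem bf_symm (hJs : Jᵀ = J) (x y : Fin n → k) : bf J x y = bf J y x := by
  rw [bf, bf, dotProduct_comm x, Matrix.dotProduct_mulVec y, ← Matrix.mulVec_transpose, hJs]

theorem Ctx.evenN [CharZero k] (C : Ctx J L) (hJs : Jᵀ = J) : Even (n - 1) := by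
  by_contra hno
  have hodd : Odd (n - 1) := Nat.not_even_iff_odd.mp hno
  have h1 := bf_pow (C.sp _ C.eL) (n - 1) (u0 k C.pos) (u0 k C.pos)
  rw [hodd.neg_one_pow, bf_symm hJs] at h1
  apply C.gamma
  have h4 : (2 : k) * bf J (u0 k C.pos) ((E k n ^ (n - 1)) *ᵥ u0 k C.pos) = 0 := by
    rw [two_mul]
    nth_rewrite 1 [h1]
    ring
  exact (mul_eq_zero.mp h4).resolve_left two_ne_zero

theorem odd_sp [CharZero k] (C : Ctx J L) {m : ℕ} (hm : m < n)
    (h : (E k n ^ m)ᵀ * J + J * E k n ^ m = 0) : Odd m := by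
  by_contra hno
  have hev : Even m := Nat.not_odd_iff_even.mp hno
  have hE := C.sp _ C.eL
  have h1 : ∀ y, bf J (u0 k C.pos) ((E k n ^ m) *ᵥ y) = 0 := by
    intro y
    have h2 := bf_sp h (u0 k C.pos) y
    have h3 := bf_pow hE m (u0 k C.pos) y
    rw [hev.neg_one_pow, one_mul] at h3
    rw [h3] at h2
    have h4 : (2 : k) * bf J (u0 k C.pos) ((E k n ^ m) *ᵥ y) = 0 := by
      rw [two_mul]
      nth_rewrite 1 [h2]
      exact neg_add_cancel _
    exact (mul_eq_zero.mp h4).resolve_left two_ne_zero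
  apply C.gamma
  have e : n - 1 = m + (n - 1 - m) := by omega
  rw [e, pow_add, ← Matrix.mulVec_mulVec]
  exact h1 _

/-- step 1 -/
theorem Ctx.midO [CharZero k] (C : Ctx J L) (hJs : Jᵀ = J) {m : ℕ} (hm : 1 < m) (hmn : m < n - 2)
    (hEm : E k n ^ m ∈ L) (htop : ∀ d : ℤ, (m : ℤ) < d → ∀ x ∈ L, x ∈ gr d → x = 0) : False := by
  have hmo : Odd m := C.odd (by omega) hEm
  have hNe : Even (n - 1) := C.evenN hJs
  obtain ⟨s, rfl⟩ : ∃ s, m = s + 1 := ⟨m - 1, by omega⟩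
  have h1 : E k n ^ (2 * s + 1) ∈ L := by
    have h2 := C.lie _ hEm _ (C.lie _ hEm _ C.fL)
    rw [EE] at h2
    have h3 : (-(((s : k) + 1) ^ 2)) ≠ 0 := by
      refine neg_ne_zero.mpr (pow_ne_zero 2 ?_)
      exact_mod_cast Nat.succ_ne_zero s
    have h4 : E k n ^ (2 * s + 1) = (-(((s : k) + 1) ^ 2))⁻¹ •
        ((-(((s : k) + 1) ^ 2)) • E k n ^ (2 * s + 1)) := by
      rw [smul_smul, inv_mul_cancel₀ h3, one_smul]
    rw [h4]
    exact L.smul_mem _ h2
  have h2 : E k n ^ (2 * s + 1) = 0 :=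
    htop ((2 * s + 1 : ℕ) : ℤ) (by push_cast; omega) _ h1 (E_pow_mem _)
  have h3 : n ≤ 2 * s + 1 := by
    by_contra h
    exact E_pow_ne (by omega) h2
  obtain ⟨r, hr⟩ : ∃ r, r + 1 = 2 * s + 4 - n := ⟨2 * s + 3 - n, by omega⟩
  have hr1 : s + 1 - (r + 1) = n - 2 - (s + 1) := by omega
  have hr2 : s + 1 - r = n - 1 - (s + 1) := by omega
  have hz := Z_u0' (k := k) C.pos (m := s + 1) (r + 1) (by omega)
  have hz1 := Z_u1 (k := k) C.pos (m := s + 1) r (by omega)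
  have hzL := Z_mem C hEm (r + 1)
  have hzg : Z k n (s + 1) (r + 1) ∈ gr ((n : ℤ) - 2 - (s + 1)) := by
    have := Z_gr (k := k) (n := n) (s + 1) (r + 1)
    have e : (((s + 1 : ℕ) : ℤ) - ((r + 1 : ℕ) : ℤ)) = (n : ℤ) - 2 - (s + 1) := by omega
    rw [e] at this
    exact this
  have h4 : E k n ^ (s + 1) * Z k n (s + 1) (r + 1) - Z k n (s + 1) (r + 1) * E k n ^ (s + 1) = 0 := by
    refine htop _ ?_ _ (C.lie _ hEm _ hzL) (gr_comm (E_pow_mem _) hzg)
    push_cast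
    omega
  have hE := C.sp _ C.eL
  have h5 : Z k n (s + 1) (r + 1) *ᵥ ((E k n ^ (s + 1)) *ᵥ (E k n *ᵥ u0 k C.pos)) =
      (cz k n (s + 1) (r + 1) - aa k (s + 1) (r + 1) * cz k n (s + 1) r) •
        ((E k n ^ (n - 1)) *ᵥ u0 k C.pos) := by
    rw [Matrix.mulVec_mulVec, ← sub_eq_zero.mp h4, ← Matrix.mulVec_mulVec, hz1, Matrix.mulVec_smul,
      Matrix.mulVec_mulVec, ← pow_add, hr2]
    have e : s + 1 + (n - 1 - (s + 1)) = n - 1 := by omega
    rw [e]
  have h6 := bf_sp (C.sp _ hzL) (u0 k C.pos) ((E k n ^ (s + 1)) *ᵥ (E k n *ᵥ u0 k C.pos))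
  have e0 : (E k n ^ (s + 1)) *ᵥ (E k n *ᵥ u0 k C.pos) = (E k n ^ (s + 2)) *ᵥ u0 k C.pos := by
    rw [Matrix.mulVec_mulVec, ← pow_succ]
  rw [h5, hz, e0, bf_smul_left, bf_smul_right, bf_pow hE, Matrix.mulVec_mulVec, ← pow_add, hr1] at h6
  have e1 : n - 2 - (s + 1) + (s + 2) = n - 1 := by omega
  rw [e1] at h6
  have hev : Even (n - 2 - (s + 1)) := by
    obtain ⟨a, ha⟩ := hNe
    obtain ⟨b, hb⟩ := hmo
    exact ⟨a - b - 1, by omega⟩
  rw [hev.neg_one_pow, one_mul, ← neg_mul] at h6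
  have h7 := mul_right_cancel₀ C.gamma h6
  rw [cz, hr2] at h7
  have hcr := cz_ne (k := k) (n := n) (m := s + 1) (by omega) r (by omega)
  have h8 : ((n - 1 - (s + 1) : ℕ) : k) * ((n : k) - ((n - 1 - (s + 1) : ℕ) : k)) =
      aa k (s + 1) (r + 1) := by
    have h9 : cz k n (s + 1) r * (((n - 1 - (s + 1) : ℕ) : k) *
        ((n : k) - ((n - 1 - (s + 1) : ℕ) : k))) = cz k n (s + 1) r * aa k (s + 1) (r + 1) := by
      linear_combination 1 * h7
    exact mul_left_cancel₀ hcr h9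
  -- back to the integers
  obtain ⟨N, hN⟩ : ∃ N, n = N + 1 := ⟨n - 1, by omega⟩
  subst hN
  obtain ⟨c, hc⟩ : ∃ c, N = c + (s + 1) := ⟨N - (s + 1), by omega⟩
  have e2 : N + 1 - 1 - (s + 1) = c := by omega
  rw [e2, aa] at h8
  have h10 : (2 : k) * ((c : k) * (((N + 1 : ℕ) : k) - (c : k))) =
      ((r + 1 : ℕ) : k) * (2 * ((s + 1 : ℕ) : k) - ((r + 1 : ℕ) : k) + 1) := by
    rw [h8]
    ring
  have h11 : (2 : ℤ) * ((c : ℤ) * (((N + 1 : ℕ) : ℤ) - (c : ℤ))) =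
      ((r + 1 : ℕ) : ℤ) * (2 * ((s + 1 : ℕ) : ℤ) - ((r + 1 : ℕ) : ℤ) + 1) := by
    have := h10
    exact_mod_cast this
  have h12 : ((r + 1 : ℕ) : ℤ) = 2 * ((s : ℤ) + 1) + 1 - N := by omega
  have h13 : (c : ℤ) = N - ((s : ℤ) + 1) := by omega
  rw [h12, h13] at h11
  push_cast at h11
  have h14 : N * (N + 1) = 2 * ((s + 1) * (s + 1 + 1)) := by
    have : (N : ℤ) * (N + 1) = 2 * (((s : ℤ) + 1) * ((s : ℤ) + 1 + 1)) := by nlinarith
    exact_mod_cast this
  exact pell hmo h14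

end Pool.Agent.LM.BR
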