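import Pool.Agent.Lib_helper51.LM.BlockOA

set_option autoImplicit false

open Matrix

/-!
# Block O, second part: fullness
-/

namespace Pool.Agent.LM.BR

variable {k : Type*} [Field k] {n : ℕ}
variable {J : Matrix (Fin n) (Fin n) k} {L : Submodule k (Matrix (Fin n) (Fin n) k)}

/-- A subspace stable under the bracket with `h` is graded. -/
theorem gradedH [CharZero k] {M : Submodule k (Matrix (Fin n) (Fin n) k)}
    (hM : ∀ A ∈ M, Hd k n * A - A * Hd k n ∈ M) (d : ℤ) (A : Matrix (Fin n) (Fin n) k) (hA : A ∈ M) :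
    pj d A ∈ M := by
  classical
  have h := had M (fun i j : Fin n => ((((i.val : ℤ) - (j.val : ℤ) : ℤ)) : k)) (by
    intro B hB
    have : (Matrix.of fun i j : Fin n => ((((i.val : ℤ) - (j.val : ℤ) : ℤ)) : k) * B i j) =
        Hd k n * B - B * Hd k n := by
      ext i j
      rw [Matrix.of_apply, Matrix.sub_apply, Hd, Matrix.diagonal_mul, Matrix.mul_diagonal]
      push_cast
      ring
    rw [this]
    exact hM B hB) (fun x => if x = (d : k) then 1 else 0) hA
  have e : (Matrix.of fun i j : Fin n =>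
      (if ((((i.val : ℤ) - (j.val : ℤ) : ℤ)) : k) = (d : k) then (1 : k) else 0) * A i j) = pj d A := by
    ext i j
    rw [Matrix.of_apply, pj_apply]
    by_cases h2 : (i.val : ℤ) - (j.val : ℤ) = d
    · rw [if_pos h2, if_pos (by rw [h2]), one_mul]
    · rw [if_neg h2, if_neg, zero_mul]
      intro h3
      exact h2 (Int.cast_injective h3)
  rw [e] at h
  exact h

/-- the Lie algebra of the form -/
def so (J : Matrix (Fin n) (Fin n) k) : Submodule k (Matrix (Fin n) (Fin n) k) where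
  carrier := {A | Aᵀ * J + J * A = 0}
  zero_mem' := by simp
  add_mem' := by
    intro A B hA hB
    have hA' : Aᵀ * J + J * A = 0 := hA
    have hB' : Bᵀ * J + J * B = 0 := hB
    show (A + B)ᵀ * J + J * (A + B) = 0
    rw [Matrix.transpose_add, Matrix.add_mul, Matrix.mul_add]
    have : Aᵀ * J + Bᵀ * J + (J * A + J * B) = (Aᵀ * J + J * A) + (Bᵀ * J + J * B) := by abel
    rw [this, hA', hB', add_zero]
  smul_mem' := by
    intro c A hA
    have hA' : Aᵀ * J + J * A = 0 := hA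
    show (c • A)ᵀ * J + J * (c • A) = 0
    rw [Matrix.transpose_smul, Matrix.smul_mul, Matrix.mul_smul, ← smul_add, hA', smul_zero]

theorem mem_so {A : Matrix (Fin n) (Fin n) k} : A ∈ so J ↔ Aᵀ * J + J * A = 0 := Iff.rfl

theorem so_lie {A B : Matrix (Fin n) (Fin n) k} (hA : A ∈ so J) (hB : B ∈ so J) :
    A * B - B * A ∈ so J := by
  have hA' : Aᵀ * J = -(J * A) := eq_neg_of_add_eq_zero_left hA
  have hB' : Bᵀ * J = -(J * B) := eq_neg_of_add_eq_zero_left hB
  rw [mem_so, Matrix.transpose_sub, Matrix.transpose_mul, Matrix.transpose_mul, Matrix.sub_mul,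
    Matrix.mul_assoc, Matrix.mul_assoc, hA', hB', Matrix.mul_neg, Matrix.mul_neg, ← Matrix.mul_assoc,
    ← Matrix.mul_assoc, hA', hB', Matrix.neg_mul, Matrix.neg_mul, Matrix.mul_sub,
    Matrix.mul_assoc, Matrix.mul_assoc]
  abel

/-- The situation with the full Lie algebra of the form. -/
theorem Ctx.full [CharZero k] (C : Ctx J L) : Ctx J (so J) where
  pos := C.pos
  det := C.det
  sp := fun A hA => hA
  lie := fun A hA B hB => so_lie hA hB
  eL := C.sp _ C.eL
  grd := gradedH fun A hA => so_lie (C.sp _ C.hL) hA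
  irr := fun W hW => C.irr W fun A hA => hW A (C.sp _ hA)

theorem Ctx.Z_uN [CharZero k] (C : Ctx J L) {m : ℕ} (hm : m < n) (hEm : E k n ^ m ∈ so J) (i : ℕ)
    (hi : i ≤ m) : Z k n m (m + i) *ᵥ ((E k n ^ (n - 1)) *ᵥ u0 k C.pos) ≠ 0 := by
  have hF : Fd k n ∈ so J := C.sp _ C.fL
  have hZ : ∀ r, Z k n m r ∈ so J := fun r => Z_mem C.full hEm r
  induction i with
  | zero =>
    intro h0
    have h1 := bf_sp (hZ m) (u0 k C.pos) ((E k n ^ (n - 1)) *ᵥ u0 k C.pos)
    rw [add_zero] at h0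
    rw [h0, Z_u0' C.pos m le_rfl, Nat.sub_self, pow_zero, Matrix.one_mulVec, bf_smul_left] at h1
    have h2 : bf J (u0 k C.pos) 0 = 0 := by rw [bf, Matrix.mulVec_zero, dotProduct_zero]
    rw [h2, neg_zero] at h1
    exact mul_ne_zero (cz_ne hm m le_rfl) C.gamma h1
  | succ i ih =>
    intro h0
    apply ih (by omega)
    have hEN : E k n *ᵥ ((E k n ^ (n - 1)) *ᵥ u0 k C.pos) = 0 := by
      rw [Matrix.mulVec_mulVec, ← pow_succ']
      have h1 : E k n ^ (n - 1 + 1) = 0 := by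
        refine gr_zero_of_big (d := ((n - 1 + 1 : ℕ) : ℤ)) ?_ (E_pow_mem _)
        have := C.pos
        omega
      rw [h1, Matrix.zero_mulVec]
    have h1 : (aa k m (m + i + 1) • Z k n m (m + i)) *ᵥ ((E k n ^ (n - 1)) *ᵥ u0 k C.pos) = 0 := by
      rw [← E_Z, Matrix.sub_mulVec, ← Matrix.mulVec_mulVec, ← Matrix.mulVec_mulVec, hEN,
        Matrix.mulVec_zero, sub_zero]
      have h2 : Z k n m (m + i + 1) *ᵥ ((E k n ^ (n - 1)) *ᵥ u0 k C.pos) = 0 := h0
      rw [h2, Matrix.mulVec_zero]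
    rw [Matrix.smul_mulVec] at h1
    refine (smul_eq_zero.mp h1).resolve_left ?_
    have h3 : aa k m (m + i + 1) = ((m + i + 1 : ℕ) : k) * ((m - i : ℕ) : k) / 2 := by
      rw [aa, Nat.cast_sub (by omega : i ≤ m)]
      push_cast
      ring
    rw [h3]
    refine div_ne_zero (mul_ne_zero ?_ ?_) two_ne_zero
    · exact_mod_cast (by omega : m + i + 1 ≠ 0)
    · exact_mod_cast (by omega : m - i ≠ 0)

theorem Ctx.scalar_so [CharZero k] (C : Ctx J L) {c : k}
    (h : c • (1 : Matrix (Fin n) (Fin n) k) ∈ so J) : c = 0 := C.full.scalar_zero h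

/-- step 2 -/
theorem Ctx.ideal [CharZero k] (C : Ctx J L) (hJs : Jᵀ = J) (hn7 : n ≠ 7)
    (hx : E k n ^ (n - 2) ∈ L)
    (M : Submodule k (Matrix (Fin n) (Fin n) k)) (hM0 : M ≠ ⊥) (hMs : M ≤ so J)
    (hML : ∀ A ∈ L, ∀ B ∈ M, A * B - B * A ∈ M) : E k n ^ (n - 2) ∈ M := by
  classical
  have hNe : Even (n - 1) := C.evenN hJs
  have hgrd : ∀ (d : ℤ), ∀ A ∈ M, pj d A ∈ M := gradedH fun A hA => hML _ C.hL A hA
  have hE := C.sp _ C.eL
  -- the top degree
  let P : ℤ → Prop := fun d => ∃ x ∈ M, x ∈ gr d ∧ x ≠ 0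
  have hbd : ∃ b : ℤ, ∀ z, P z → z ≤ b := ⟨n, fun z ⟨x, _, hxz, hx0⟩ => by
    by_contra h
    exact hx0 (gr_zero_of_big (by omega) hxz)⟩
  have hin : ∃ z, P z := by
    obtain ⟨a, ha, ha0⟩ := Submodule.exists_mem_ne_zero_of_ne_bot hM0
    by_contra hno
    apply ha0
    rw [← sum_pj a]
    refine Finset.sum_eq_zero fun d _ => ?_
    by_contra h
    exact hno ⟨d, pj d a, hgrd d a ha, pj_mem d a, h⟩
  obtain ⟨t, ⟨a, ha, hat, ha0⟩, htop'⟩ := Int.exists_greatest_of_bdd hbd hin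
  have htop : ∀ d : ℤ, t < d → ∀ x ∈ M, x ∈ gr d → x = 0 := by
    intro d hd x hxM hxd
    by_contra h
    exact absurd (htop' d ⟨x, hxM, hxd, h⟩) (not_le.mpr hd)
  have hac : a * E k n = E k n * a := by
    have h1 : E k n * a - a * E k n = 0 := by
      refine htop (1 + t) (by omega) _ (hML _ C.eL a ha) (gr_comm E_mem hat)
    exact (sub_eq_zero.mp h1).symm
  have ht0 : 0 ≤ t := by
    by_contra h
    exact ha0 (comm_neg (by omega) hat hac)
  obtain ⟨s, rfl⟩ : ∃ s : ℕ, t = s := ⟨t.toNat, (Int.toNat_of_nonneg ht0).symm⟩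
  obtain ⟨c, hc⟩ := comm_pos s hat hac
  have hc0 : c ≠ 0 := by
    rintro rfl
    rw [zero_smul] at hc
    exact ha0 hc
  have hEs : E k n ^ s ∈ M := by
    have : E k n ^ s = c⁻¹ • a := by rw [hc, smul_smul, inv_mul_cancel₀ hc0, one_smul]
    rw [this]
    exact M.smul_mem _ ha
  have hsn : s < n := by
    by_contra h
    exact ha0 (gr_zero_of_big (by omega) hat)
  have hso : Odd s := odd_sp C hsn (hMs hEs)
  have hs2 : s ≤ n - 2 := by
    obtain ⟨x, hx'⟩ := hNe
    obtain ⟨y, hy'⟩ := hso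
    omega
  by_cases hsn2 : s = n - 2
  · rw [← hsn2]
    exact hEs
  exfalso
  have hs4 : s + 4 ≤ n := by
    obtain ⟨x, hx'⟩ := hNe
    obtain ⟨y, hy'⟩ := hso
    omega
  have hZM : ∀ r, Z k n s r ∈ M := by
    intro r
    induction r with
    | zero => exact hEs
    | succ r ih => exact hML _ C.fL _ ih
  by_cases hs1 : s = 1
  · subst hs1
    have h1 : Hd k n ∈ M := by
      have h2 := hZM 1
      have h3 : Z k n 1 1 = - Hd k n := by
        show Fd k n * E k n ^ 1 - E k n ^ 1 * Fd k n = - Hd k n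
        rw [pow_one, ← EF]
        abel
      rw [h3] at h2
      simpa using M.neg_mem h2
    have h2 := hML _ hx _ h1
    have h3 : E k n ^ (n - 2) * Hd k n - Hd k n * E k n ^ (n - 2) =
        (-((n - 2 : ℕ) : k)) • E k n ^ (n - 2) := by
      rw [HE, neg_smul]
      abel
    rw [h3] at h2
    have h4 := htop ((n - 2 : ℕ) : ℤ) (by omega) _ h2 (Submodule.smul_mem _ _ (E_pow_mem _))
    rcases smul_eq_zero.mp h4 with h5 | h5
    · rw [neg_eq_zero] at h5
      exact (by omega : n - 2 ≠ 0) (by exact_mod_cast h5)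
    · exact E_pow_ne (by omega) h5
  have hs3 : 3 ≤ s := by
    obtain ⟨y, hy'⟩ := hso
    omega
  -- (b)
  have hcol : Z k n s (s + 2) *ᵥ (E k n *ᵥ u0 k C.pos) = 0 := by
    have h1 := E_pow_u0 (k := k) C.pos 1 (by omega)
    rw [pow_one] at h1
    rw [h1]
    ext i
    rw [Matrix.mulVec_single_one, Matrix.col_apply, Pi.zero_apply]
    refine Z_gr s (s + 2) i _ ?_
    simp only
    push_cast
    omega
  have hxu : (E k n ^ (n - 2)) *ᵥ (E k n *ᵥ u0 k C.pos) = (E k n ^ (n - 1)) *ᵥ u0 k C.pos := by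
    rw [Matrix.mulVec_mulVec, ← pow_succ]
    have e : n - 2 + 1 = n - 1 := by omega
    rw [e]
  have hs5 : s + 4 = n := by
    by_contra hne
    have h1 : E k n ^ (n - 2) * Z k n s (s + 2) - Z k n s (s + 2) * E k n ^ (n - 2) = 0 := by
      refine htop _ ?_ _ (hML _ hx _ (hZM (s + 2))) (gr_comm (E_pow_mem _) (Z_gr s (s + 2)))
      push_cast
      omega
    have h2 := congrArg (fun X => X *ᵥ (E k n *ᵥ u0 k C.pos)) h1
    simp only [Matrix.sub_mulVec, Matrix.zero_mulVec, ← Matrix.mulVec_mulVec] at h2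
    rw [hcol, Matrix.mulVec_zero, hxu, zero_sub, neg_eq_zero] at h2
    exact C.Z_uN hsn (hMs hEs) 2 (by omega) h2
  -- (c)
  have h1 : E k n ^ (n - 2) * Z k n s s - Z k n s s * E k n ^ (n - 2) = 0 := by
    refine htop _ ?_ _ (hML _ hx _ (hZM s)) (gr_comm (E_pow_mem _) (Z_gr s s))
    push_cast
    omega
  have h2 : Z k n s s *ᵥ ((E k n ^ (n - 2)) *ᵥ u0 k C.pos) =
      cz k n s s • ((E k n ^ (n - 2)) *ᵥ u0 k C.pos) := by
    rw [Matrix.mulVec_mulVec, ← sub_eq_zero.mp h1, ← Matrix.mulVec_mulVec, Z_u0' C.pos s le_rfl,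
      Nat.sub_self, pow_zero, Matrix.one_mulVec, Matrix.mulVec_smul]
  obtain ⟨r, rfl⟩ : ∃ r, s = r + 1 := ⟨s - 1, by omega⟩
  have h3 := Z_u1 (k := k) C.pos (m := r + 1) r le_rfl
  have e3 : r + 1 - r = 1 := by omega
  rw [e3, pow_one] at h3
  have h4 := bf_sp (hMs (hZM (r + 1))) (E k n *ᵥ u0 k C.pos) ((E k n ^ (n - 2)) *ᵥ u0 k C.pos)
  rw [h3, h2, bf_smul_left, bf_smul_right, ← neg_mul] at h4
  have hβ : bf J (E k n *ᵥ u0 k C.pos) ((E k n ^ (n - 2)) *ᵥ u0 k C.pos) ≠ 0 := by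
    rw [bf_sp hE, Matrix.mulVec_mulVec, ← pow_succ']
    have e : n - 2 + 1 = n - 1 := by omega
    rw [e]
    exact neg_ne_zero.mpr C.gamma
  have h5 := mul_right_cancel₀ hβ h4
  rw [cz, e3] at h5
  have hcr := cz_ne (k := k) (n := n) (m := r + 1) (by omega) r (by omega)
  have h6 : ((n : k) - 1) = aa k (r + 1) (r + 1) := by
    have h9 : cz k n (r + 1) r * ((n : k) - 1) = cz k n (r + 1) r * aa k (r + 1) (r + 1) := by
      push_cast at h5
      linear_combination 1 * h5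
    exact mul_left_cancel₀ hcr h9
  have h7 : (n : k) = (r : k) + 5 := by
    have : n = r + 5 := by omega
    rw [this]
    push_cast
    ring
  rw [aa, h7] at h6
  have h8 : (2 : k) * ((r : k) + 4) = ((r : k) + 1) * ((r : k) + 2) := by
    push_cast at h6
    linear_combination 2 * h6
  have h9 : 2 * (r + 4) = (r + 1) * (r + 2) := by exact_mod_cast h8
  have h10 : r = 2 := by nlinarith
  omega

end Pool.Agent.LM.BR
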