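import Pool.Agent.Lib_helper51.LM.BlockOB

set_option autoImplicit false

open Matrix

/-!
# Block O, third part: the ideal is everything
-/

namespace Pool.Agent.LM.BR

variable {k : Type*} [Field k] {n : ℕ}
variable {J : Matrix (Fin n) (Fin n) k} {L : Submodule k (Matrix (Fin n) (Fin n) k)}

theorem mul_E_pow (A : Matrix (Fin n) (Fin n) k) (m : ℕ) (i j j' : Fin n) (h : j'.val = j.val + m) :
    (A * E k n ^ m) i j = A i j' := by
  rw [Matrix.mul_apply, Finset.sum_eq_single j']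
  · rw [E_pow_apply, if_pos h, mul_one]
  · intro l _ hl
    rw [E_pow_apply, if_neg (fun h1 => hl (Fin.ext (h1.trans h.symm))), mul_zero]
  · intro h; exact absurd (Finset.mem_univ _) h

theorem mul_E_pow_zero (A : Matrix (Fin n) (Fin n) k) (m : ℕ) (i j : Fin n) (h : n ≤ j.val + m) :
    (A * E k n ^ m) i j = 0 := by
  rw [Matrix.mul_apply]
  refine Finset.sum_eq_zero fun l _ => ?_
  rw [E_pow_apply, if_neg (by omega), mul_zero]

/-- the trace of `y * E ^ (n - 2)` -/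
theorem trace_mul_E (hn : 3 ≤ n) (A : Matrix (Fin n) (Fin n) k) :
    (A * E k n ^ (n - 2)).trace =
      A ⟨0, by omega⟩ ⟨n - 2, by omega⟩ + A ⟨1, by omega⟩ ⟨n - 1, by omega⟩ := by
  rw [Matrix.trace, Fintype.sum_eq_add (⟨0, by omega⟩ : Fin n) (⟨1, by omega⟩ : Fin n)]
  · rw [Matrix.diag_apply, Matrix.diag_apply,
      mul_E_pow A (n - 2) _ ⟨0, by omega⟩ ⟨n - 2, by omega⟩ (by simp),
      mul_E_pow A (n - 2) _ ⟨1, by omega⟩ ⟨n - 1, by omega⟩ (by simp only; omega)]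
  · intro h
    have := congrArg Fin.val h
    simp at this
  · rintro x ⟨h0, h1⟩
    rw [Matrix.diag_apply]
    refine mul_E_pow_zero A (n - 2) x x ?_
    have h2 : x.val ≠ 0 := fun h => h0 (Fin.ext h)
    have h3 : x.val ≠ 1 := fun h => h1 (Fin.ext h)
    omega

/-- step 3 -/
theorem Ctx.isFull [CharZero k] (C : Ctx J L) (hJs : Jᵀ = J) (hn : 3 ≤ n) (hn7 : n ≠ 7)
    (hx : E k n ^ (n - 2) ∈ L)
    (M : Submodule k (Matrix (Fin n) (Fin n) k)) (hM0 : M ≠ ⊥) (hMs : M ≤ so J)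
    (hML : ∀ A ∈ L, ∀ B ∈ M, A * B - B * A ∈ M) : so J ≤ M := by
  have hxM := C.ideal hJs hn7 hx M hM0 hMs hML
  -- the element `y`
  obtain ⟨y, hy⟩ : ∃ y, y = Z k n (n - 2) (n - 2 + (n - 2)) := ⟨_, rfl⟩
  have hyM : y ∈ M := by
    rw [hy]
    have : ∀ r, Z k n (n - 2) r ∈ M := by
      intro r
      induction r with
      | zero => exact hxM
      | succ r ih => exact hML _ C.fL _ ih
    exact this _
  have hyg : y ∈ gr (-((n : ℤ) - 2)) := by
    rw [hy]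
    have h1 := Z_gr (k := k) (n := n) (n - 2) (n - 2 + (n - 2))
    have e : (((n - 2 : ℕ) : ℤ) - ((n - 2 + (n - 2) : ℕ) : ℤ)) = -((n : ℤ) - 2) := by omega
    rw [e] at h1
    exact h1
  have hyN := C.Z_uN (m := n - 2) (by omega) (hMs hxM) (n - 2) le_rfl
  rw [← hy] at hyN
  have hE := C.sp _ C.eL
  -- the two entries
  have v1 : y *ᵥ ((E k n ^ (n - 1)) *ᵥ u0 k C.pos) =
      y ⟨1, by omega⟩ ⟨n - 1, by omega⟩ • (E k n *ᵥ u0 k C.pos) := by
    have h1 := E_pow_u0 (k := k) C.pos 1 (by omega)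
    rw [pow_one] at h1
    rw [E_pow_u0 (k := k) C.pos (n - 1) (by omega), h1]
    ext i
    rw [Matrix.mulVec_single_one, Matrix.col_apply, Pi.smul_apply, smul_eq_mul]
    by_cases hi : i.val = 1
    · have : i = ⟨1, by omega⟩ := Fin.ext hi
      rw [this, Pi.single_eq_same, mul_one]
    · rw [Pi.single_eq_of_ne (fun h => hi (by rw [h])), mul_zero]
      refine hyg i _ ?_
      simp only
      omega
  have v0 : y *ᵥ ((E k n ^ (n - 2)) *ᵥ u0 k C.pos) =
      y ⟨0, by omega⟩ ⟨n - 2, by omega⟩ • u0 k C.pos := by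
    rw [E_pow_u0 (k := k) C.pos (n - 2) (by omega), u0]
    ext i
    rw [Matrix.mulVec_single_one, Matrix.col_apply, Pi.smul_apply, smul_eq_mul]
    by_cases hi : i.val = 0
    · have : i = ⟨0, by omega⟩ := Fin.ext hi
      rw [this, Pi.single_eq_same, mul_one]
    · rw [Pi.single_eq_of_ne (fun h => hi (by rw [h])), mul_zero]
      refine hyg i _ ?_
      simp only
      omega
  obtain ⟨α, hα⟩ : ∃ α, α = y ⟨1, by omega⟩ ⟨n - 1, by omega⟩ := ⟨_, rfl⟩
  obtain ⟨β, hβ⟩ : ∃ β, β = y ⟨0, by omega⟩ ⟨n - 2, by omega⟩ := ⟨_, rfl⟩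
  rw [← hα] at v1
  rw [← hβ] at v0
  have hα0 : α ≠ 0 := by
    rintro h0
    rw [h0, zero_smul] at v1
    exact hyN v1
  have hαβ : α = β := by
    have h1 := bf_sp (hMs hyM) ((E k n ^ (n - 1)) *ᵥ u0 k C.pos) ((E k n ^ (n - 2)) *ᵥ u0 k C.pos)
    rw [v1, v0, bf_smul_left, bf_smul_right, bf_sp hE, Matrix.mulVec_mulVec, ← pow_succ',
      bf_symm hJs ((E k n ^ (n - 1)) *ᵥ u0 k C.pos)] at h1
    have e : n - 2 + 1 = n - 1 := by omega
    rw [e] at h1
    refine mul_right_cancel₀ C.gamma ?_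
    linear_combination (-1) * h1
  have htr : (y * E k n ^ (n - 2)).trace ≠ 0 := by
    rw [trace_mul_E hn, ← hα, ← hβ, hαβ, ← two_mul]
    exact mul_ne_zero two_ne_zero (hαβ ▸ hα0)
  -- the orthogonal complement
  intro A0 hA0
  by_contra hno
  have hF := C.full
  have hno' : (⟨A0, hA0⟩ : so J) ∉ M.comap (so J).subtype := hno
  obtain ⟨g, hg, hg0⟩ := Submodule.exists_le_ker_of_notMem hno'
  obtain ⟨B, hB, hBg⟩ := hF.repr g
  let Mp : Submodule k (Matrix (Fin n) (Fin n) k) :=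
    { carrier := {X | X ∈ so J ∧ ∀ a ∈ M, (a * X).trace = 0}
      zero_mem' := ⟨(so J).zero_mem, fun a _ => by rw [mul_zero, Matrix.trace_zero]⟩
      add_mem' := by
        rintro X Y ⟨hX, hX'⟩ ⟨hY, hY'⟩
        exact ⟨(so J).add_mem hX hY, fun a ha => by
          rw [Matrix.mul_add, Matrix.trace_add, hX' a ha, hY' a ha, add_zero]⟩
      smul_mem' := by
        rintro c X ⟨hX, hX'⟩
        exact ⟨(so J).smul_mem c hX, fun a ha => by
          rw [Matrix.mul_smul, Matrix.trace_smul, hX' a ha, smul_zero]⟩ }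
  have hBM : B ∈ Mp := by
    refine ⟨hB, fun a ha => ?_⟩
    rw [Matrix.trace_mul_comm]
    have h1 := hBg ⟨a, hMs ha⟩
    rw [h1]
    exact hg0 (show (⟨a, hMs ha⟩ : so J) ∈ M.comap (so J).subtype from ha)
  have hB0 : B ≠ 0 := by
    rintro rfl
    apply hg
    rw [← hBg, Matrix.zero_mul, Matrix.trace_zero]
  have hMp0 : Mp ≠ ⊥ := fun h => hB0 ((Submodule.mem_bot k).mp (h ▸ hBM))
  have hMpL : ∀ A ∈ L, ∀ X ∈ Mp, A * X - X * A ∈ Mp := by
    rintro A hA X ⟨hX, hX'⟩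
    refine ⟨so_lie (C.sp _ hA) hX, fun a ha => ?_⟩
    rw [← trace_comm3]
    have h1 : a * A - A * a = -(A * a - a * A) := by abel
    rw [h1, Matrix.neg_mul, Matrix.trace_neg, hX' _ (hML A hA a ha), neg_zero]
  have h1 : E k n ^ (n - 2) ∈ Mp := C.ideal hJs hn7 hx Mp hMp0 (fun X hX => hX.1) hMpL
  exact htr (h1.2 y hyM)

/-- Block O in the coordinates of `Ctx`. -/
theorem Ctx.blockO [CharZero k] (C : Ctx J L) (hJs : Jᵀ = J) (hn : 2 ≤ n) (hn7 : n ≠ 7) :
    (∀ M : Submodule k (Matrix (Fin n) (Fin n) k), M ≠ ⊥ → M ≤ so J →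
      (∀ A ∈ L, ∀ B ∈ M, A * B - B * A ∈ M) → so J ≤ M) ∨
      (3 < n ∧ Hd k n ∈ L ∧ Fd k n ∈ L ∧ L ≤ Submodule.span k {E k n, Hd k n, Fd k n}) := by
  have hNe : Even (n - 1) := C.evenN hJs
  obtain ⟨m, hm1, hmn, hEm, htop⟩ := C.top hn
  have hmo : Odd m := C.odd (by omega) hEm
  obtain ⟨a, ha⟩ := hNe
  obtain ⟨b, hb⟩ := hmo
  by_cases h1 : m = n - 2
  · subst h1
    left
    intro M hM0 hMs hML
    exact C.isFull hJs (by omega) hn7 hEm M hM0 hMs hML
  · by_cases h2 : m = 1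
    · subst h2
      exact Or.inr ⟨by omega, C.hL, C.fL, C.low (by simpa using htop)⟩
    · exact (C.midO hJs (by omega) (by omega) hEm htop).elim

end Pool.Agent.LM.BR
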