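import Pool.Agent.Lib_helper51.LM.BlockRD

set_option autoImplicit false

open Matrix

/-!
# Block R, last part: the change of coordinates
-/

namespace Pool.Agent.LM.BR

variable {k : Type*} [Field k] {n : ℕ}

theorem nil_pow {e : Matrix (Fin n) (Fin n) k} (hen : IsNilpotent e) : e ^ n = 0 := by
  have h1 : IsNilpotent (toLin' e) := by
    obtain ⟨m, hm⟩ := hen
    exact ⟨m, by rw [← Matrix.toLin'_pow, hm, map_zero]⟩
  have h2 := h1.charpoly_eq_X_pow_finrank
  have h3 := LinearMap.aeval_self_charpoly (toLin' e)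
  rw [h2, map_pow, Polynomial.aeval_X, Module.finrank_fin_fun, ← Matrix.toLin'_pow] at h3
  exact (LinearEquiv.map_eq_zero_iff _).mp h3

/-- The matrix of the vectors `e ^ j v`. -/
def bs (e : Matrix (Fin n) (Fin n) k) (v : Fin n → k) : Matrix (Fin n) (Fin n) k :=
  Matrix.of fun i j => ((e ^ j.val) *ᵥ v) i

theorem bs_single (e : Matrix (Fin n) (Fin n) k) (v : Fin n → k) (j : Fin n) :
    bs e v *ᵥ Pi.single j 1 = (e ^ j.val) *ᵥ v := by
  rw [Matrix.mulVec_single_one]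
  rfl

theorem e_mul_bs {e : Matrix (Fin n) (Fin n) k} (hen : e ^ n = 0) (v : Fin n → k) :
    e * bs e v = bs e v * E k n := by
  ext i j
  have h1 : (e * bs e v) i j = ((e ^ (j.val + 1)) *ᵥ v) i := by
    rw [pow_succ', ← Matrix.mulVec_mulVec]
    rfl
  rw [h1]
  by_cases hj : j.val + 1 < n
  · rw [mul_E _ i j ⟨j.val + 1, hj⟩ rfl]
    rfl
  · have : j.val + 1 = n := by omega
    rw [this, hen, Matrix.zero_mulVec, Matrix.mul_apply, Finset.sum_eq_zero, Pi.zero_apply]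
    intro l _
    rw [E_apply, if_neg (by omega), mul_zero]

theorem E_pow_mulVec (m : ℕ) (c : Fin n → k) (i j : Fin n) (h : i.val = j.val + m) :
    ((E k n ^ m) *ᵥ c) i = c j := by
  rw [Matrix.mulVec, dotProduct, Finset.sum_eq_single j]
  · rw [E_pow_apply, if_pos h, one_mul]
  · intro l _ hl
    rw [E_pow_apply, if_neg, zero_mul]
    intro h1
    exact hl (Fin.ext (by omega))
  · intro h1; exact absurd (Finset.mem_univ _) h1

theorem bs_det {e : Matrix (Fin n) (Fin n) k} (hen : e ^ n = 0) {v : Fin n → k}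
    (hv : (e ^ (n - 1)) *ᵥ v ≠ 0) (hn : 0 < n) : (bs e v).det ≠ 0 := by
  have hlast : n - 1 < n := by omega
  intro hdet
  obtain ⟨c, hc0, hc⟩ := Matrix.exists_mulVec_eq_zero_iff.mpr hdet
  classical
  have hE : ∀ m : ℕ, bs e v *ᵥ ((E k n ^ m) *ᵥ c) = 0 := by
    intro m
    induction m with
    | zero => simpa using hc
    | succ m ih =>
      rw [pow_succ', ← Matrix.mulVec_mulVec, Matrix.mulVec_mulVec, ← e_mul_bs hen,
        ← Matrix.mulVec_mulVec, ih, Matrix.mulVec_zero]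
  have hex : ∃ j, ∃ hj : j < n, c ⟨j, hj⟩ ≠ 0 := by
    by_contra hno
    push Not at hno
    exact hc0 (funext fun j => hno j.val j.isLt)
  obtain ⟨hj, hcj⟩ := Nat.find_spec hex
  have hmin : ∀ j' < Nat.find hex, ∀ hj' : j' < n, c ⟨j', hj'⟩ = 0 := by
    intro j' hj' hj''
    by_contra h
    exact Nat.find_min hex hj' ⟨hj'', h⟩
  obtain ⟨j, hjdef⟩ : ∃ j, j = Nat.find hex := ⟨_, rfl⟩
  rw [← hjdef] at hmin
  have hj2 : j < n := by rw [hjdef]; exact hj
  have hcj2 : c ⟨j, hj2⟩ ≠ 0 := by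
    have : (⟨j, hj2⟩ : Fin n) = ⟨Nat.find hex, hj⟩ := Fin.ext hjdef
    rw [this]; exact hcj
  have h1 : (E k n ^ (n - 1 - j)) *ᵥ c = c ⟨j, hj2⟩ • (Pi.single ⟨n - 1, hlast⟩ (1 : k)) := by
    ext i
    by_cases hi : n - 1 - j ≤ i.val
    · rw [E_pow_mulVec (n - 1 - j) c i ⟨i.val - (n - 1 - j), by omega⟩ (by simp only; omega)]
      by_cases hi2 : i = ⟨n - 1, hlast⟩
      · have hi3 : i.val = n - 1 := by rw [hi2]
        have hi4 : (Pi.single ⟨n - 1, hlast⟩ (1 : k) : Fin n → k) i = 1 := by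
          rw [hi2, Pi.single_eq_same]
        rw [Pi.smul_apply, hi4, smul_eq_mul, mul_one]
        congr 1
        apply Fin.ext
        simp only
        omega
      · rw [Pi.smul_apply, Pi.single_eq_of_ne hi2, smul_zero]
        refine hmin _ ?_ _
        have : i.val ≠ n - 1 := fun h => hi2 (Fin.ext h)
        omega
    · rw [Pi.smul_apply, Pi.single_eq_of_ne (by intro h; rw [h] at hi; simp only at hi; omega),
        smul_zero, Matrix.mulVec, dotProduct]
      refine Finset.sum_eq_zero fun l _ => ?_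
      rw [E_pow_apply, if_neg (by omega), zero_mul]
  have h2 := hE (n - 1 - j)
  rw [h1, Matrix.mulVec_smul, bs_single] at h2
  exact hv ((smul_eq_zero.mp h2).resolve_left hcj2)

/-- the kernel of `e` -/
theorem ker_line {e : Matrix (Fin n) (Fin n) k} (hen : e ^ n = 0) {v : Fin n → k}
    (hv : (e ^ (n - 1)) *ᵥ v ≠ 0) (hn : 0 < n) {x : Fin n → k} (hx : e *ᵥ x = 0) :
    ∃ c : k, x = c • ((e ^ (n - 1)) *ᵥ v) := by
  have hu : IsUnit (bs e v).det := isUnit_iff_ne_zero.mpr (bs_det hen hv hn)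
  obtain ⟨c, hc⟩ : ∃ c, c = (bs e v)⁻¹ *ᵥ x := ⟨_, rfl⟩
  have hxc : x = bs e v *ᵥ c := by
    rw [hc, Matrix.mulVec_mulVec, Matrix.mul_nonsing_inv _ hu, Matrix.one_mulVec]
  have h1 : E k n *ᵥ c = 0 := by
    have h2 : bs e v *ᵥ (E k n *ᵥ c) = 0 := by
      rw [Matrix.mulVec_mulVec, ← e_mul_bs hen, ← Matrix.mulVec_mulVec, ← hxc, hx]
    calc E k n *ᵥ c = ((bs e v)⁻¹ * bs e v) *ᵥ (E k n *ᵥ c) := by
          rw [Matrix.nonsing_inv_mul _ hu, Matrix.one_mulVec]
      _ = 0 := by rw [← Matrix.mulVec_mulVec, h2, Matrix.mulVec_zero]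
  have h2 : c = c ⟨n - 1, by omega⟩ • Pi.single ⟨n - 1, by omega⟩ (1 : k) := by
    ext i
    by_cases hi : i = ⟨n - 1, by omega⟩
    · subst hi
      rw [Pi.smul_apply, Pi.single_eq_same, smul_eq_mul, mul_one]
    · rw [Pi.smul_apply, Pi.single_eq_of_ne hi, smul_zero]
      have h3 : i.val ≠ n - 1 := fun h => hi (Fin.ext h)
      have h4 := E_pow_mulVec 1 c ⟨i.val + 1, by omega⟩ i rfl
      rw [pow_one, h1] at h4
      exact h4.symm
  refine ⟨c ⟨n - 1, by omega⟩, ?_⟩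
  rw [hxc]
  conv_lhs => rw [h2]
  rw [Matrix.mulVec_smul, bs_single]

section eig

variable {e φ : Matrix (Fin n) (Fin n) k} {q : k}

theorem rel_pow (hrel : e * φ = q • (φ * e)) (m : ℕ) : e ^ m * φ = q ^ m • (φ * e ^ m) := by
  induction m with
  | zero => simp
  | succ m ih =>
    rw [pow_succ, Matrix.mul_assoc, hrel, Matrix.mul_smul, ← Matrix.mul_assoc, ih, Matrix.smul_mul,
      smul_smul, Matrix.mul_assoc, pow_succ, mul_comm]

theorem eig_step {u : Fin n → k} {lam : k} (hrel : e * φ = q • (φ * e)) (hφu : φ *ᵥ u = lam • u)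
    (j : ℕ) : q ^ j • (φ *ᵥ ((e ^ j) *ᵥ u)) = lam • ((e ^ j) *ᵥ u) := by
  have h : (e ^ j) *ᵥ (φ *ᵥ u) = lam • ((e ^ j) *ᵥ u) := by rw [hφu, Matrix.mulVec_smul]
  rw [← h, Matrix.mulVec_mulVec, Matrix.mulVec_mulVec, rel_pow hrel, Matrix.smul_mulVec]

theorem exists_eig (hn : 2 ≤ n) (hen : e ^ n = 0) (he1 : e ^ (n - 1) ≠ 0) (hφ : φ.det ≠ 0)
    (hq : ∀ m : ℕ, 0 < m → q ^ m ≠ 1) (hrel : e * φ = q • (φ * e)) :
    q ≠ 0 ∧ ∃ (u : Fin n → k) (lam : k), lam ≠ 0 ∧ φ *ᵥ u = lam • u ∧ (e ^ (n - 1)) *ᵥ u ≠ 0 := by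
  have hφu : IsUnit φ.det := isUnit_iff_ne_zero.mpr hφ
  have hinj : ∀ x, φ *ᵥ x = 0 → x = 0 := by
    intro x hx
    calc x = (φ⁻¹ * φ) *ᵥ x := by rw [Matrix.nonsing_inv_mul _ hφu, Matrix.one_mulVec]
      _ = 0 := by rw [← Matrix.mulVec_mulVec, hx, Matrix.mulVec_zero]
  have hq0 : q ≠ 0 := by
    rintro rfl
    rw [zero_smul] at hrel
    apply he1
    have h1 : e = 0 := by
      calc e = e * φ * φ⁻¹ := (Matrix.mul_nonsing_inv_cancel_right φ _ hφu).symm
        _ = 0 := by rw [hrel, zero_mul]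
    rw [h1, zero_pow (by omega)]
  refine ⟨hq0, ?_⟩
  -- the line
  obtain ⟨v, hv⟩ : ∃ v, (e ^ (n - 1)) *ᵥ v ≠ 0 := by
    by_contra hno
    push Not at hno
    apply he1
    ext i j
    have := congrFun (hno (Pi.single j 1)) i
    rw [Matrix.mulVec_single_one, Matrix.col_apply, Pi.zero_apply] at this
    rw [this, Matrix.zero_apply]
  obtain ⟨w, hw⟩ : ∃ w, w = (e ^ (n - 1)) *ᵥ v := ⟨_, rfl⟩
  have hker : ∀ x, e *ᵥ x = 0 → ∃ c : k, x = c • w := by
    intro x hx
    rw [hw]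
    exact ker_line hen hv (by omega) hx
  have hpow : ∀ x, ∃ c : k, (e ^ (n - 1)) *ᵥ x = c • w := by
    intro x
    apply hker
    rw [Matrix.mulVec_mulVec, ← pow_succ']
    have : n - 1 + 1 = n := by omega
    rw [this, hen, Matrix.zero_mulVec]
  obtain ⟨lam, hlam⟩ := hpow (φ *ᵥ v)
  have h1 : ∀ x, (e ^ (n - 1)) *ᵥ (φ *ᵥ x) = q ^ (n - 1) • (φ *ᵥ ((e ^ (n - 1)) *ᵥ x)) := by
    intro x
    rw [Matrix.mulVec_mulVec, rel_pow hrel, Matrix.smul_mulVec, ← Matrix.mulVec_mulVec]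
  have hwφ : q ^ (n - 1) • (φ *ᵥ w) = lam • w := by
    rw [hw, ← h1, hlam, hw]
  have h2 : e ^ (n - 1) * (φ - lam • 1) = 0 := by
    ext i j
    have h3 : (e ^ (n - 1) * (φ - lam • 1)) *ᵥ Pi.single j 1 = 0 := by
      rw [← Matrix.mulVec_mulVec, Matrix.sub_mulVec, Matrix.mulVec_sub, h1, Matrix.smul_mulVec,
        Matrix.one_mulVec, Matrix.mulVec_smul]
      obtain ⟨c, hc⟩ := hpow (Pi.single j 1)
      rw [hc, Matrix.mulVec_smul, smul_comm (q ^ (n - 1)) c, hwφ, smul_comm c lam, sub_self]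
    have h4 := congrFun h3 i
    rwa [Matrix.mulVec_single_one, Matrix.col_apply, Pi.zero_apply] at h4
  have hdet : (φ - lam • (1 : Matrix (Fin n) (Fin n) k)).det = 0 := by
    by_contra hd
    have hu : IsUnit (φ - lam • (1 : Matrix (Fin n) (Fin n) k)).det := isUnit_iff_ne_zero.mpr hd
    apply he1
    calc e ^ (n - 1) = e ^ (n - 1) * (φ - lam • 1) * (φ - lam • 1)⁻¹ :=
          (Matrix.mul_nonsing_inv_cancel_right _ _ hu).symm
      _ = 0 := by rw [h2, zero_mul]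
  obtain ⟨u, hu0, hu⟩ := Matrix.exists_mulVec_eq_zero_iff.mpr hdet
  have hu' : φ *ᵥ u = lam • u := by
    rw [Matrix.sub_mulVec, Matrix.smul_mulVec, Matrix.one_mulVec] at hu
    exact sub_eq_zero.mp hu
  have hlam0 : lam ≠ 0 := by
    rintro rfl
    rw [zero_smul] at hu'
    exact hu0 (hinj u hu')
  refine ⟨u, lam, hlam0, hu', ?_⟩
  intro hcon
  classical
  have hex : ∃ j, (e ^ (j + 1)) *ᵥ u = 0 := ⟨n - 2, by
    have : n - 2 + 1 = n - 1 := by omega
    rw [this]; exact hcon⟩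
  obtain ⟨j, hj⟩ : ∃ j, j = Nat.find hex := ⟨_, rfl⟩
  have hj1 : (e ^ (j + 1)) *ᵥ u = 0 := by rw [hj]; exact Nat.find_spec hex
  have hj2 : (e ^ j) *ᵥ u ≠ 0 := by
    rcases Nat.eq_zero_or_pos j with h | h
    · rw [h, pow_zero, Matrix.one_mulVec]; exact hu0
    · obtain ⟨i, rfl⟩ : ∃ i, j = i + 1 := ⟨j - 1, by omega⟩
      exact Nat.find_min hex (by omega)
  have hj3 : j ≤ n - 2 := by
    rw [hj]
    exact Nat.find_min' hex (by
      have : n - 2 + 1 = n - 1 := by omega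
      rw [this]; exact hcon)
  obtain ⟨c, hc⟩ := hker ((e ^ j) *ᵥ u) (by rw [Matrix.mulVec_mulVec, ← pow_succ']; exact hj1)
  have hc0 : c ≠ 0 := by
    rintro rfl
    rw [zero_smul] at hc
    exact hj2 hc
  have h5 : q ^ j • (φ *ᵥ ((e ^ j) *ᵥ u)) = lam • ((e ^ j) *ᵥ u) := eig_step hrel hu' j
  rw [hc, Matrix.mulVec_smul, smul_comm (q ^ j) c, smul_comm lam c] at h5
  have h6 : q ^ j • (φ *ᵥ w) = q ^ (n - 1) • (φ *ᵥ w) := by
    rw [hwφ]
    exact smul_right_injective _ hc0 h5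
  have hw0 : φ *ᵥ w ≠ 0 := fun h => hv (hw ▸ hinj w h)
  have h7 : q ^ j = q ^ (n - 1) := by
    rw [← sub_eq_zero, ← sub_smul] at h6
    exact sub_eq_zero.mp ((smul_eq_zero.mp h6).resolve_right hw0)
  have h8 : q ^ (n - 1 - j) = 1 := by
    have e1 : n - 1 = j + (n - 1 - j) := by omega
    rw [e1, pow_add] at h7
    have : q ^ j * 1 = q ^ j * q ^ (n - 1 - j) := by rw [mul_one]; exact h7
    exact (mul_left_cancel₀ (pow_ne_zero j hq0) this).symm
  exact hq _ (by omega) h8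

end eig

/-- the Lie algebra is graded -/
theorem graded {L : Submodule k (Matrix (Fin n) (Fin n) k)} {q : k} (hq0 : q ≠ 0)
    (hq : ∀ m : ℕ, 0 < m → q ^ m ≠ 1)
    (hL : ∀ A ∈ L, (Matrix.of fun i j : Fin n => ((q⁻¹) ^ i.val * q ^ j.val) * A i j) ∈ L)
    (d : ℤ) (A : Matrix (Fin n) (Fin n) k) (hA : A ∈ L) : pj d A ∈ L := by
  classical
  have hinj : ∀ a b : ℤ, q ^ a = q ^ b → a = b := by
    have h0 : ∀ a : ℤ, 0 < a → q ^ a ≠ 1 := by
      intro a ha
      have : ((a.toNat : ℕ) : ℤ) = a := Int.toNat_of_nonneg ha.le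
      rw [← this, zpow_natCast]
      exact hq _ (by omega)
    intro a b hab
    by_contra hne
    rcases lt_or_gt_of_ne hne with h | h
    · refine h0 (b - a) (by omega) ?_
      rw [zpow_sub₀ hq0, hab, div_self (zpow_ne_zero _ hq0)]
    · refine h0 (a - b) (by omega) ?_
      rw [zpow_sub₀ hq0, hab, div_self (zpow_ne_zero _ hq0)]
  have h := had L (fun i j : Fin n => ((q⁻¹) ^ i.val * q ^ j.val)) hL
    (fun x => if x = q ^ (-d) then 1 else 0) hA
  have e : (Matrix.of fun i j : Fin n =>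
      (if ((q⁻¹) ^ i.val * q ^ j.val) = q ^ (-d) then (1 : k) else 0) * A i j) = pj d A := by
    ext i j
    rw [Matrix.of_apply, pj_apply]
    have h1 : (q⁻¹) ^ i.val * q ^ j.val = q ^ (-((i.val : ℤ) - (j.val : ℤ))) := by
      rw [neg_sub, zpow_sub₀ hq0, zpow_natCast, zpow_natCast, inv_pow, div_eq_mul_inv, mul_comm]
    rw [h1]
    by_cases h2 : (i.val : ℤ) - (j.val : ℤ) = d
    · rw [if_pos h2, if_pos (by rw [h2]), one_mul]
    · rw [if_neg h2, if_neg, zero_mul]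
      intro h3
      exact h2 (neg_injective (hinj _ _ h3))
  rw [e] at h
  exact h

end Pool.Agent.LM.BR

namespace Pool.Agent.LM

open BR in
/-- block R: a Lie algebra `L` of matrices in `sp (J)` that acts irreducibly and contains a nilpotent
matrix `e` with one Jordan block contains `e ^ (n - 1)`, or is the principal `sl 2`: then it is
spanned by `e`, `h`, `f` with `[h, e] = e`, `[e, f] = h`, `[h, f] = -f`, and in the basis `u` the
matrix `e` is the shift and `h` is diagonal. (`φ` is a Frobenius element.) -/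
theorem blockR {k : Type*} [Field k] [CharZero k] {n : ℕ} (hn : 2 ≤ n)
    (J : Matrix (Fin n) (Fin n) k) (hJ : J.det ≠ 0) (hJs : Jᵀ = -J)
    (L : Submodule k (Matrix (Fin n) (Fin n) k)) (hLJ : ∀ A ∈ L, Aᵀ * J + J * A = 0)
    (hL : ∀ A ∈ L, ∀ B ∈ L, A * B - B * A ∈ L)
    (e φ ψ : Matrix (Fin n) (Fin n) k) (he : e ∈ L) (hen : IsNilpotent e) (he1 : e ^ (n - 1) ≠ 0)
    (hφ : φ * ψ = 1) (q : k) (hq : ∀ m : ℕ, 0 < m → q ^ m ≠ 1)
    (hrel : e * φ = q • (φ * e)) (hφL : ∀ A ∈ L, φ * A * ψ ∈ L)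
    (hirr : ∀ W : Submodule k (Fin n → k), (∀ A ∈ L, ∀ x ∈ W, A *ᵥ x ∈ W) → W = ⊥ ∨ W = ⊤) :
    e ^ (n - 1) ∈ L ∨
      ∃ (P Q : Matrix (Fin n) (Fin n) k) (h f : Matrix (Fin n) (Fin n) k), P * Q = 1 ∧
        P * e * Q = Matrix.of (fun i j => if i.val = j.val + 1 then 1 else 0) ∧
        P * h * Q = Matrix.diagonal (fun i => (i.val : k) - ((n : k) - 1) / 2) ∧
        P * f * Q = Matrix.of (fun i j => if i.val + 1 = j.val then
          (j.val : k) * ((n : k) - j.val) / 2 else 0) ∧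
        h ∈ L ∧ f ∈ L ∧ L ≤ Submodule.span k {e, h, f} := by
  have hen' : e ^ n = 0 := nil_pow hen
  have hφdet : φ.det ≠ 0 := by
    intro h0
    have h1 := congrArg Matrix.det hφ
    rw [Matrix.det_mul, h0, zero_mul, Matrix.det_one] at h1
    exact zero_ne_one h1
  obtain ⟨hq0, u, lam, hlam, hφu, hu⟩ := exists_eig hn hen' he1 hφdet hq hrel
  obtain ⟨Q, hQ⟩ : ∃ Q, Q = bs e u := ⟨_, rfl⟩
  have hQdet : Q.det ≠ 0 := by rw [hQ]; exact bs_det hen' hu (by omega)
  have hQu : IsUnit Q.det := isUnit_iff_ne_zero.mpr hQdet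
  obtain ⟨P, hP⟩ : ∃ P, P = Q⁻¹ := ⟨_, rfl⟩
  have hPQ : P * Q = 1 := by rw [hP]; exact Matrix.nonsing_inv_mul _ hQu
  have hQP : Q * P = 1 := by rw [hP]; exact Matrix.mul_nonsing_inv _ hQu
  have heQ : e * Q = Q * E k n := by rw [hQ]; exact e_mul_bs hen' u
  have hPeQ : P * e * Q = E k n := by
    rw [Matrix.mul_assoc, heQ, ← Matrix.mul_assoc, hPQ, Matrix.one_mul]
  have hQEP : Q * E k n * P = e := by
    rw [← heQ, Matrix.mul_assoc, hQP, Matrix.mul_one]
  -- `φ` in the new coordinates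
  obtain ⟨D, hD⟩ : ∃ D : Matrix (Fin n) (Fin n) k,
    D = Matrix.diagonal fun i : Fin n => lam * (q⁻¹) ^ i.val := ⟨_, rfl⟩
  obtain ⟨D', hD'⟩ : ∃ D' : Matrix (Fin n) (Fin n) k,
    D' = Matrix.diagonal fun i : Fin n => lam⁻¹ * q ^ i.val := ⟨_, rfl⟩
  have hDD : D * D' = 1 := by
    rw [hD, hD', Matrix.diagonal_mul_diagonal, ← Matrix.diagonal_one]
    congr 1
    ext i
    rw [inv_pow]
    have := pow_ne_zero i.val hq0
    field_simp
  have hφQ : φ * Q = Q * D := by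
    ext i j
    have h1 : (φ * Q) i j = (φ *ᵥ ((e ^ j.val) *ᵥ u)) i := by rw [hQ]; rfl
    have h2 : φ *ᵥ ((e ^ j.val) *ᵥ u) = (lam * (q⁻¹) ^ j.val) • ((e ^ j.val) *ᵥ u) := by
      have h3 := eig_step hrel hφu j.val
      have hqj := pow_ne_zero j.val hq0
      calc φ *ᵥ ((e ^ j.val) *ᵥ u) = (q ^ j.val)⁻¹ • (q ^ j.val • (φ *ᵥ ((e ^ j.val) *ᵥ u))) := by
            rw [smul_smul, inv_mul_cancel₀ hqj, one_smul]
        _ = _ := by rw [h3, smul_smul, inv_pow, mul_comm]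
    rw [h1, h2, hD, Matrix.mul_diagonal, Pi.smul_apply, smul_eq_mul, mul_comm, hQ]
    rfl
  have hQDP : Q * D * P = φ := by rw [← hφQ, Matrix.mul_assoc, hQP, Matrix.mul_one]
  have hQDP' : Q * D' * P = ψ := by
    have h1 : φ * (Q * D' * P) = 1 := by
      rw [← Matrix.mul_assoc, ← Matrix.mul_assoc, hφQ, Matrix.mul_assoc Q D D', hDD, Matrix.mul_one,
        hQP]
    have h2 : ψ * φ = 1 := mul_eq_one_comm.mp hφ
    calc Q * D' * P = ψ * φ * (Q * D' * P) := by rw [h2, Matrix.one_mul]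
      _ = ψ := by rw [Matrix.mul_assoc, h1, Matrix.mul_one]
  -- the Lie algebra in the new coordinates
  let cj : Matrix (Fin n) (Fin n) k →ₗ[k] Matrix (Fin n) (Fin n) k :=
    { toFun := fun B => Q * B * P
      map_add' := fun a b => by rw [Matrix.mul_add, Matrix.add_mul]
      map_smul' := fun c a => by
        rw [Matrix.mul_smul, Matrix.smul_mul]; rfl }
  let L' : Submodule k (Matrix (Fin n) (Fin n) k) := L.comap cj
  have hL' : ∀ B, B ∈ L' ↔ Q * B * P ∈ L := fun B => Iff.rfl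
  have hinv : ∀ A, Q * (P * A * Q) * P = A := by
    intro A
    calc Q * (P * A * Q) * P = (Q * P) * A * (Q * P) := by simp only [Matrix.mul_assoc]
      _ = A := by rw [hQP, Matrix.one_mul, Matrix.mul_one]
  have hinv' : ∀ B, P * (Q * B * P) * Q = B := by
    intro B
    calc P * (Q * B * P) * Q = (P * Q) * B * (P * Q) := by simp only [Matrix.mul_assoc]
      _ = B := by rw [hPQ, Matrix.one_mul, Matrix.mul_one]
  have hcmul : ∀ A B, Q * (A * B) * P = (Q * A * P) * (Q * B * P) := by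
    intro A B
    calc Q * (A * B) * P = Q * A * 1 * B * P := by simp only [Matrix.mul_assoc, Matrix.one_mul]
      _ = Q * A * (P * Q) * B * P := by rw [hPQ]
      _ = (Q * A * P) * (Q * B * P) := by simp only [Matrix.mul_assoc]
  have C : Ctx (Qᵀ * J * Q) L' := by
    refine ⟨by omega, ?_, ?_, ?_, ?_, ?_, ?_⟩
    · rw [Matrix.det_mul, Matrix.det_mul, Matrix.det_transpose]
      exact mul_ne_zero (mul_ne_zero hQdet hJ) hQdet
    · intro B hB
      have h1 := hLJ _ ((hL' B).mp hB)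
      have hQtPt : Qᵀ * Pᵀ = 1 := by rw [← Matrix.transpose_mul, hPQ, Matrix.transpose_one]
      calc Bᵀ * (Qᵀ * J * Q) + Qᵀ * J * Q * B
          = (Qᵀ * Pᵀ) * Bᵀ * (Qᵀ * J * Q) + Qᵀ * J * Q * B * (P * Q) := by
            rw [hQtPt, hPQ, Matrix.one_mul, Matrix.mul_one]
        _ = Qᵀ * ((Q * B * P)ᵀ * J + J * (Q * B * P)) * Q := by
            rw [Matrix.transpose_mul, Matrix.transpose_mul, Matrix.mul_add, Matrix.add_mul]
            simp only [Matrix.mul_assoc]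
        _ = 0 := by rw [h1, Matrix.mul_zero, Matrix.zero_mul]
    · intro A hA B hB
      rw [hL', Matrix.mul_sub, Matrix.sub_mul, hcmul, hcmul]
      exact hL _ hA _ hB
    · rw [hL', hQEP]
      exact he
    · refine graded hq0 hq ?_
      intro B hB
      have h1 : (Matrix.of fun i j : Fin n => ((q⁻¹) ^ i.val * q ^ j.val) * B i j) = D * B * D' := by
        ext i j
        rw [hD, hD', Matrix.of_apply, Matrix.mul_diagonal, Matrix.diagonal_mul]
        field_simp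
      rw [h1, hL', hcmul, hcmul, hQDP, hQDP']
      exact hφL _ hB
    · intro W hW
      let W' : Submodule k (Fin n → k) := W.comap (toLin' P)
      have hW' : ∀ x, x ∈ W' ↔ P *ᵥ x ∈ W := fun x => by
        rw [Submodule.mem_comap, toLin'_apply]
      have hs : ∀ A ∈ L, ∀ x ∈ W', A *ᵥ x ∈ W' := by
        intro A hA x hx
        rw [hW'] at hx ⊢
        have h1 : P * A * Q ∈ L' := by rw [hL', hinv]; exact hA
        have h2 := hW _ h1 _ hx
        rw [Matrix.mulVec_mulVec, Matrix.mul_assoc, hQP, Matrix.mul_one] at h2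
        rw [Matrix.mulVec_mulVec]
        exact h2
      rcases hirr W' hs with h | h
      · left
        rw [Submodule.eq_bot_iff]
        intro y hy
        have h1 : Q *ᵥ y ∈ W' := by
          rw [hW', Matrix.mulVec_mulVec, hPQ, Matrix.one_mulVec]
          exact hy
        rw [h, Submodule.mem_bot] at h1
        calc y = P *ᵥ (Q *ᵥ y) := by rw [Matrix.mulVec_mulVec, hPQ, Matrix.one_mulVec]
          _ = 0 := by rw [h1, Matrix.mulVec_zero]
      · right
        rw [Submodule.eq_top_iff']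
        intro y
        have h1 : Q *ᵥ y ∈ W' := by rw [h]; exact Submodule.mem_top
        rw [hW', Matrix.mulVec_mulVec, hPQ, Matrix.one_mulVec] at h1
        exact h1
  have hJs' : (Qᵀ * J * Q)ᵀ = -(Qᵀ * J * Q) := by
    rw [Matrix.transpose_mul, Matrix.transpose_mul, Matrix.transpose_transpose, hJs, Matrix.neg_mul,
      Matrix.mul_neg, Matrix.mul_assoc]
  have hpow : ∀ m : ℕ, Q * E k n ^ m * P = e ^ m := by
    intro m
    induction m with
    | zero => rw [pow_zero, pow_zero, Matrix.mul_one, hQP]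
    | succ m ih => rw [pow_succ, hcmul, ih, hQEP, pow_succ]
  rcases C.blockR hJs' hn with h | ⟨hH, hF, hspan⟩
  · left
    rw [hL', hpow] at h
    exact h
  · right
    refine ⟨P, Q, Q * Hd k n * P, Q * Fd k n * P, hPQ, hPeQ, hinv' _, hinv' _, hH, hF, ?_⟩
    intro A hA
    have h1 : P * A * Q ∈ L' := by rw [hL', hinv]; exact hA
    have h2 : cj (P * A * Q) ∈ (Submodule.span k {E k n, Hd k n, Fd k n}).map cj :=
      Submodule.mem_map_of_mem (hspan h1)
    rw [Submodule.map_span] at h2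
    have h3 : cj (P * A * Q) = A := hinv A
    rw [h3] at h2
    have h4 : cj '' {E k n, Hd k n, Fd k n} = {e, Q * Hd k n * P, Q * Fd k n * P} := by
      rw [Set.image_insert_eq, Set.image_pair]
      show ({Q * E k n * P, _, _} : Set _) = _
      rw [hQEP]
      rfl
    rw [h4] at h2
    exact h2

end Pool.Agent.LM
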