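import Mathlib

set_option autoImplicit false

open Matrix

/-!
# Block R: a Lie algebra of symplectic matrices with a nilpotent matrix of one block

First part: degrees of matrices, Hadamard multiplication, the centralizer of the shift.
-/

namespace Pool.Agent.LM.BR

section basic

variable {k : Type*} [Field k] {n : ℕ}

/-- The matrices of degree `d`: the entries `(i, j)` with `i - j ≠ d` vanish. -/
def gr (d : ℤ) : Submodule k (Matrix (Fin n) (Fin n) k) where
  carrier := {A | ∀ i j : Fin n, ((i : ℕ) : ℤ) - ((j : ℕ) : ℤ) ≠ d → A i j = 0}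
  zero_mem' := fun _ _ _ => rfl
  add_mem' := by
    intro A B hA hB i j h
    rw [Matrix.add_apply, hA i j h, hB i j h, add_zero]
  smul_mem' := by
    intro c A hA i j h
    rw [Matrix.smul_apply, hA i j h, smul_zero]

theorem mem_gr {d : ℤ} {A : Matrix (Fin n) (Fin n) k} :
    A ∈ gr d ↔ ∀ i j : Fin n, ((i : ℕ) : ℤ) - ((j : ℕ) : ℤ) ≠ d → A i j = 0 := Iff.rfl

/-- The part of degree `d`. -/
def pj (d : ℤ) (A : Matrix (Fin n) (Fin n) k) : Matrix (Fin n) (Fin n) k :=
  Matrix.of fun i j => if ((i : ℕ) : ℤ) - ((j : ℕ) : ℤ) = d then A i j else 0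

theorem pj_apply (d : ℤ) (A : Matrix (Fin n) (Fin n) k) (i j : Fin n) :
    pj d A i j = if ((i : ℕ) : ℤ) - ((j : ℕ) : ℤ) = d then A i j else 0 := rfl

theorem pj_mem (d : ℤ) (A : Matrix (Fin n) (Fin n) k) : pj d A ∈ gr d := by
  intro i j h
  rw [pj_apply, if_neg h]

theorem pj_self {d : ℤ} {A : Matrix (Fin n) (Fin n) k} (h : A ∈ gr d) : pj d A = A := by
  ext i j
  rw [pj_apply]
  split_ifs with h1
  · rfl
  · exact (h i j h1).symm

theorem pj_ne {d d' : ℤ} (hd : d ≠ d') {A : Matrix (Fin n) (Fin n) k} (h : A ∈ gr d) :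
    pj d' A = 0 := by
  ext i j
  rw [pj_apply, Matrix.zero_apply]
  split_ifs with h1
  · exact h i j (fun h2 => hd (h2.symm.trans h1))
  · rfl

theorem pj_add (d : ℤ) (A B : Matrix (Fin n) (Fin n) k) : pj d (A + B) = pj d A + pj d B := by
  ext i j
  simp only [pj_apply, Matrix.add_apply]
  split_ifs <;> simp

theorem pj_sub (d : ℤ) (A B : Matrix (Fin n) (Fin n) k) : pj d (A - B) = pj d A - pj d B := by
  ext i j
  simp only [pj_apply, Matrix.sub_apply]
  split_ifs <;> simp

theorem pj_zero (d : ℤ) : pj d (0 : Matrix (Fin n) (Fin n) k) = 0 := by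
  ext i j
  simp [pj_apply]

/-- the sum of the parts -/
theorem sum_pj (A : Matrix (Fin n) (Fin n) k) :
    ∑ d ∈ Finset.Icc (-(n : ℤ)) n, pj d A = A := by
  ext i j
  rw [Matrix.sum_apply]
  simp only [pj_apply]
  rw [Finset.sum_eq_single (((i : ℕ) : ℤ) - ((j : ℕ) : ℤ))]
  · rw [if_pos rfl]
  · intro d _ hd
    rw [if_neg (fun h => hd h.symm)]
  · intro h
    exact absurd (Finset.mem_Icc.mpr ⟨by omega, by omega⟩) h

theorem gr_zero_of_big {d : ℤ} (hd : (n : ℤ) ≤ d) {A : Matrix (Fin n) (Fin n) k} (h : A ∈ gr d) :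
    A = 0 := by
  ext i j
  exact h i j (by omega)

theorem gr_mul {d d' : ℤ} {A B : Matrix (Fin n) (Fin n) k} (hA : A ∈ gr d) (hB : B ∈ gr d') :
    A * B ∈ gr (d + d') := by
  intro i j h
  rw [Matrix.mul_apply]
  refine Finset.sum_eq_zero fun l _ => ?_
  by_cases h1 : ((i : ℕ) : ℤ) - ((l : ℕ) : ℤ) = d
  · rw [hB l j (by omega), mul_zero]
  · rw [hA i l h1, zero_mul]

theorem gr_comm {d d' : ℤ} {A B : Matrix (Fin n) (Fin n) k} (hA : A ∈ gr d) (hB : B ∈ gr d') :
    A * B - B * A ∈ gr (d + d') := by
  refine Submodule.sub_mem _ (gr_mul hA hB) ?_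
  rw [add_comm]
  exact gr_mul hB hA

theorem trace_gr {d : ℤ} (hd : d ≠ 0) {A : Matrix (Fin n) (Fin n) k} (h : A ∈ gr d) :
    A.trace = 0 := by
  unfold Matrix.trace
  exact Finset.sum_eq_zero fun i _ => h i i (by rw [sub_self]; exact hd.symm)

theorem trace_pj (d : ℤ) (A B : Matrix (Fin n) (Fin n) k) :
    (pj d A * B).trace = (A * pj (-d) B).trace := by
  unfold Matrix.trace
  refine Finset.sum_congr rfl fun i _ => ?_
  rw [Matrix.diag_apply, Matrix.diag_apply, Matrix.mul_apply, Matrix.mul_apply]
  refine Finset.sum_congr rfl fun j _ => ?_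
  rw [pj_apply, pj_apply]
  by_cases h : ((i : ℕ) : ℤ) - ((j : ℕ) : ℤ) = d
  · rw [if_pos h, if_pos (by omega)]
  · rw [if_neg h, if_neg (by omega), zero_mul, mul_zero]

theorem trace_comm3 (A B C : Matrix (Fin n) (Fin n) k) :
    ((A * B - B * A) * C).trace = (A * (B * C - C * B)).trace := by
  rw [sub_mul, mul_sub, Matrix.trace_sub, Matrix.trace_sub, Matrix.mul_assoc, Matrix.mul_assoc B A C,
    Matrix.trace_mul_comm B (A * C), Matrix.mul_assoc A C B]

/-- Hadamard multiplication: a subspace stable under the entrywise multiplication by `c` is stable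
under the entrywise multiplication by every function of `c`. -/
theorem had (S : Submodule k (Matrix (Fin n) (Fin n) k)) (c : Fin n → Fin n → k)
    (hS : ∀ A ∈ S, (Matrix.of fun i j => c i j * A i j) ∈ S) (ψ : k → k)
    {A : Matrix (Fin n) (Fin n) k} (hA : A ∈ S) :
    (Matrix.of fun i j => ψ (c i j) * A i j) ∈ S := by
  classical
  have key : ∀ p : Polynomial k, (Matrix.of fun i j => p.eval (c i j) * A i j) ∈ S := by
    intro p
    induction p using Polynomial.induction_on with
    | C a =>
      have : (Matrix.of fun i j => (Polynomial.C a).eval (c i j) * A i j) = a • A := by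
        ext i j
        simp
      rw [this]
      exact S.smul_mem a hA
    | add p q hp hq =>
      have : (Matrix.of fun i j => (p + q).eval (c i j) * A i j) =
          (Matrix.of fun i j => p.eval (c i j) * A i j) +
            (Matrix.of fun i j => q.eval (c i j) * A i j) := by
        ext i j
        simp [add_mul]
      rw [this]
      exact S.add_mem hp hq
    | monomial m a h =>
      have : (Matrix.of fun i j => (Polynomial.C a * Polynomial.X ^ (m + 1)).eval (c i j) * A i j) =
          (Matrix.of fun i j => c i j *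
            (Matrix.of fun i j => (Polynomial.C a * Polynomial.X ^ m).eval (c i j) * A i j) i j) := by
        ext i j
        simp [pow_succ]
        ring
      rw [this]
      exact hS _ h
  let s : Finset k := (Finset.univ : Finset (Fin n × Fin n)).image fun p => c p.1 p.2
  have hs : ∀ i j, c i j ∈ s := fun i j =>
    Finset.mem_image.mpr ⟨(i, j), Finset.mem_univ _, rfl⟩
  have h := key (Lagrange.interpolate s id ψ)
  have e : (Matrix.of fun i j => (Lagrange.interpolate s id ψ).eval (c i j) * A i j) =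
      (Matrix.of fun i j => ψ (c i j) * A i j) := by
    ext i j
    have h1 := Lagrange.eval_interpolate_at_node (s := s) (v := id) ψ
      (Function.injective_id.injOn) (hs i j)
    rw [id] at h1
    rw [Matrix.of_apply, Matrix.of_apply, h1]
  rw [e] at h
  exact h

end basic

section shift

variable {k : Type*} [Field k] {n : ℕ}

/-- The shift. -/
def E (k : Type*) [Field k] (n : ℕ) : Matrix (Fin n) (Fin n) k :=
  Matrix.of (fun i j => if i.val = j.val + 1 then 1 else 0)

theorem E_apply (i j : Fin n) : E k n i j = if i.val = j.val + 1 then 1 else 0 := rfl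

theorem E_mem : E k n ∈ gr 1 := by
  intro i j h
  rw [E_apply, if_neg]
  omega

theorem mul_E (A : Matrix (Fin n) (Fin n) k) (i j : Fin n) (j' : Fin n) (h : j'.val = j.val + 1) :
    (A * E k n) i j = A i j' := by
  rw [Matrix.mul_apply, Finset.sum_eq_single j']
  · rw [E_apply, if_pos h, mul_one]
  · intro l _ hl
    rw [E_apply, if_neg (fun h1 => hl (Fin.ext (h1.trans h.symm))), mul_zero]
  · intro h; exact absurd (Finset.mem_univ _) h

theorem E_mul_zero (A : Matrix (Fin n) (Fin n) k) (j : Fin n) (h : ∀ i, A i j = 0) (i : Fin n) :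
    (E k n * A) i j = 0 := by
  rw [Matrix.mul_apply]
  exact Finset.sum_eq_zero fun l _ => by rw [h l, mul_zero]

/-- a matrix that commutes with the shift and has zero first column vanishes -/
theorem comm_E_zero {A : Matrix (Fin n) (Fin n) k} (hc : A * E k n = E k n * A)
    (h0 : ∀ i j : Fin n, j.val = 0 → A i j = 0) : A = 0 := by
  have key : ∀ (m : ℕ) (i j : Fin n), j.val = m → A i j = 0 := by
    intro m
    induction m with
    | zero => exact h0
    | succ m ih =>
      intro i j hj
      have hm : m < n := by omega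
      rw [← mul_E A i ⟨m, hm⟩ j hj, hc]
      exact E_mul_zero A ⟨m, hm⟩ (fun i => ih i _ rfl) i
  ext i j
  exact key _ i j rfl

/-- the powers of the shift -/
theorem E_pow_apply (m : ℕ) (i j : Fin n) : (E k n ^ m) i j = if i.val = j.val + m then 1 else 0 := by
  induction m generalizing i j with
  | zero =>
    rw [pow_zero, Matrix.one_apply]
    by_cases h : i = j
    · rw [if_pos h, if_pos (by rw [h]; rfl)]
    · rw [if_neg h, if_neg]
      intro h1
      exact h (Fin.ext h1)
  | succ m ih =>
    rw [pow_succ]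
    by_cases hj : j.val + 1 < n
    · rw [mul_E _ i j ⟨j.val + 1, hj⟩ rfl, ih]
      congr 1
      simp only [eq_iff_iff]
      constructor <;> intro h <;> omega
    · rw [if_neg (by omega), Matrix.mul_apply]
      refine Finset.sum_eq_zero fun l _ => ?_
      rw [E_apply, if_neg (by omega), mul_zero]

theorem E_pow_mem (m : ℕ) : E k n ^ m ∈ gr (m : ℤ) := by
  intro i j h
  rw [E_pow_apply, if_neg]
  omega

theorem E_pow_ne {m : ℕ} (hm : m < n) : E k n ^ m ≠ 0 := by
  intro h
  have h1 := congrFun (congrFun h ⟨m, hm⟩) ⟨0, by omega⟩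
  rw [E_pow_apply, if_pos (by simp), Matrix.zero_apply] at h1
  exact one_ne_zero h1

/-- the centralizer of the shift, negative degrees -/
theorem comm_neg {d : ℤ} (hd : d < 0) {A : Matrix (Fin n) (Fin n) k} (hA : A ∈ gr d)
    (hc : A * E k n = E k n * A) : A = 0 := by
  refine comm_E_zero hc fun i j hj => hA i j ?_
  omega

/-- the centralizer of the shift, degree `d` -/
theorem comm_pos (d : ℕ) {A : Matrix (Fin n) (Fin n) k} (hA : A ∈ gr (d : ℤ))
    (hc : A * E k n = E k n * A) : ∃ c : k, A = c • E k n ^ d := by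
  by_cases hd : d < n
  · have hn : 0 < n := by omega
    refine ⟨A ⟨d, hd⟩ ⟨0, hn⟩, ?_⟩
    rw [← sub_eq_zero]
    refine comm_E_zero ?_ ?_
    · rw [sub_mul, mul_sub, hc, Matrix.smul_mul, Matrix.mul_smul, ← pow_succ, ← pow_succ']
    · intro i j hj
      rw [Matrix.sub_apply, Matrix.smul_apply, E_pow_apply]
      have hj' : j = ⟨0, hn⟩ := Fin.ext hj
      subst hj'
      by_cases hi : i = ⟨d, hd⟩
      · subst hi
        simp
      · have hi' : i.val ≠ d := fun h => hi (Fin.ext h)
        rw [hA i ⟨0, hn⟩ (by simp; exact_mod_cast hi'), if_neg (by simpa using hi')]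
        simp
  · exact ⟨0, by rw [zero_smul]; exact gr_zero_of_big (by omega) hA⟩

theorem pj_comm_E (d : ℤ) (A : Matrix (Fin n) (Fin n) k) :
    pj d A * E k n - E k n * pj d A = pj (d + 1) (A * E k n - E k n * A) := by
  have h : ∀ d', pj (d + 1) (pj d' A * E k n - E k n * pj d' A) =
      if d' = d then pj d A * E k n - E k n * pj d A else 0 := by
    intro d'
    split_ifs with h
    · subst h
      exact pj_self (gr_comm (pj_mem _ _) E_mem)
    · exact pj_ne (by omega) (gr_comm (pj_mem _ _) E_mem)
  let pjl : Matrix (Fin n) (Fin n) k →+ Matrix (Fin n) (Fin n) k :=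
    { toFun := pj (d + 1), map_zero' := pj_zero _, map_add' := pj_add _ }
  have h1 : A * E k n - E k n * A = ∑ d' ∈ Finset.Icc (-(n : ℤ)) n,
      (pj d' A * E k n - E k n * pj d' A) := by
    rw [Finset.sum_sub_distrib, ← Finset.sum_mul, ← Finset.mul_sum, sum_pj]
  rw [h1]
  show _ = pjl _
  rw [map_sum]
  show _ = ∑ d' ∈ Finset.Icc (-(n : ℤ)) n, pj (d + 1) (pj d' A * E k n - E k n * pj d' A)
  rw [Finset.sum_congr rfl (fun d' _ => h d')]
  by_cases hd : d ∈ Finset.Icc (-(n : ℤ)) n
  · rw [Finset.sum_ite_eq' _ d, if_pos hd]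
  · rw [Finset.sum_ite_eq' _ d, if_neg hd]
    have h2 : pj d A = 0 := by
      ext i j
      rw [pj_apply, if_neg, Matrix.zero_apply]
      intro h3
      apply hd
      rw [Finset.mem_Icc]
      constructor <;> omega
    rw [h2, zero_mul, mul_zero, sub_zero]

end shift

end Pool.Agent.LM.BR
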