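import Pool.Agent.Lib_helper51.LM.BlockRA

set_option autoImplicit false

open Matrix

/-!
# Block R, second part: the trace form of the Lie algebra is nondegenerate
-/

namespace Pool.Agent.LM.BR

variable {k : Type*} [Field k] {n : ℕ}

/-- The situation in the coordinates in which `e` is the shift and the Lie algebra is graded. -/
structure Ctx (J : Matrix (Fin n) (Fin n) k) (L : Submodule k (Matrix (Fin n) (Fin n) k)) :
    Prop where
  pos : 0 < n
  det : J.det ≠ 0
  sp : ∀ A ∈ L, Aᵀ * J + J * A = 0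
  lie : ∀ A ∈ L, ∀ B ∈ L, A * B - B * A ∈ L
  eL : E k n ∈ L
  grd : ∀ (d : ℤ), ∀ A ∈ L, pj d A ∈ L
  irr : ∀ W : Submodule k (Fin n → k), (∀ A ∈ L, ∀ x ∈ W, A *ᵥ x ∈ W) → W = ⊥ ∨ W = ⊤

/-- The radical of the trace form. -/
def rad (L : Submodule k (Matrix (Fin n) (Fin n) k)) :
    Submodule k (Matrix (Fin n) (Fin n) k) where
  carrier := {x | x ∈ L ∧ ∀ y ∈ L, (x * y).trace = 0}
  zero_mem' := ⟨L.zero_mem, fun y _ => by rw [zero_mul, Matrix.trace_zero]⟩
  add_mem' := by
    rintro a b ⟨ha, ha'⟩ ⟨hb, hb'⟩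
    exact ⟨L.add_mem ha hb, fun y hy => by rw [add_mul, Matrix.trace_add, ha' y hy, hb' y hy, add_zero]⟩
  smul_mem' := by
    rintro c a ⟨ha, ha'⟩
    exact ⟨L.smul_mem c ha, fun y hy => by
      rw [Matrix.smul_mul, Matrix.trace_smul, ha' y hy, smul_zero]⟩

theorem mem_rad {L : Submodule k (Matrix (Fin n) (Fin n) k)} {x : Matrix (Fin n) (Fin n) k} :
    x ∈ rad L ↔ x ∈ L ∧ ∀ y ∈ L, (x * y).trace = 0 := Iff.rfl

variable {J : Matrix (Fin n) (Fin n) k} {L : Submodule k (Matrix (Fin n) (Fin n) k)}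

theorem Ctx.rad_comm (C : Ctx J L) {x y : Matrix (Fin n) (Fin n) k} (hx : x ∈ rad L) (hy : y ∈ L) :
    x * y - y * x ∈ rad L :=
  ⟨C.lie x hx.1 y hy, fun z hz => by rw [trace_comm3]; exact hx.2 _ (C.lie y hy z hz)⟩

theorem Ctx.rad_pj (C : Ctx J L) (d : ℤ) {x : Matrix (Fin n) (Fin n) k} (hx : x ∈ rad L) :
    pj d x ∈ rad L :=
  ⟨C.grd d x hx.1, fun y hy => by rw [trace_pj]; exact hx.2 _ (C.grd _ y hy)⟩

theorem diag_of_gr {u : Matrix (Fin n) (Fin n) k} (hu : u ∈ gr 0) (i j : Fin n) (h : i ≠ j) :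
    u i j = 0 :=
  hu i j (fun h1 => h (Fin.ext (by omega)))

theorem diag_mul {u : Matrix (Fin n) (Fin n) k} (hu : u ∈ gr 0) (A : Matrix (Fin n) (Fin n) k)
    (i j : Fin n) : (u * A) i j = u i i * A i j := by
  rw [Matrix.mul_apply, Finset.sum_eq_single i]
  · intro l _ hl
    rw [diag_of_gr hu i l hl.symm, zero_mul]
  · intro h; exact absurd (Finset.mem_univ _) h

theorem mul_diag {u : Matrix (Fin n) (Fin n) k} (hu : u ∈ gr 0) (A : Matrix (Fin n) (Fin n) k)
    (i j : Fin n) : (A * u) i j = A i j * u j j := by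
  rw [Matrix.mul_apply, Finset.sum_eq_single j]
  · intro l _ hl
    rw [diag_of_gr hu l j hl, mul_zero]
  · intro h; exact absurd (Finset.mem_univ _) h

/-- the trick of Cartan's criterion -/
theorem Ctx.cartan [CharZero k] (C : Ctx J L) {d : ℤ} {a b : Matrix (Fin n) (Fin n) k} (ha : a ∈ rad L)
    (had' : a ∈ gr d) (hb : b ∈ L) (hbd : b ∈ gr (-d)) : a * b - b * a = 0 := by
  obtain ⟨u, hu⟩ : ∃ u, u = a * b - b * a := ⟨_, rfl⟩
  have hu0 : u ∈ gr (0 : ℤ) := by
    rw [hu, ← add_neg_cancel d]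
    exact gr_comm had' hbd
  have huL : u ∈ L := by rw [hu]; exact C.lie a ha.1 b hb
  have main : ∀ θ : k →ₗ[ℚ] ℚ, ∀ i, θ (u i i) = 0 := by
    intro θ
    let ψ : k → k := fun x => ((θ x : ℚ) : k)
    have h1 : (Matrix.of fun i j => ψ (u i i - u j j) * a i j) ∈ rad L := by
      refine had (rad L) (fun i j => u i i - u j j) ?_ ψ ha
      intro A hA
      have : (Matrix.of fun i j => (u i i - u j j) * A i j) = -(A * u - u * A) := by
        ext i j
        rw [Matrix.of_apply, Matrix.neg_apply, Matrix.sub_apply, diag_mul hu0, mul_diag hu0]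
        ring
      rw [this]
      exact (rad L).neg_mem (C.rad_comm hA huL)
    let ub : Matrix (Fin n) (Fin n) k := Matrix.diagonal fun i => ψ (u i i)
    have h2 : (Matrix.of fun i j => ψ (u i i - u j j) * a i j) = ub * a - a * ub := by
      ext i j
      rw [Matrix.of_apply, Matrix.sub_apply, Matrix.diagonal_mul, Matrix.mul_diagonal]
      show ((θ (u i i - u j j) : ℚ) : k) * a i j = ((θ (u i i) : ℚ) : k) * a i j - a i j * ((θ (u j j) : ℚ) : k)
      rw [map_sub]
      push_cast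
      ring
    have h3 := h1.2 b hb
    rw [h2, trace_comm3, ← hu] at h3
    have h4 : ∑ i, θ (u i i) • u i i = (0 : k) := by
      rw [← h3, Matrix.trace]
      refine Finset.sum_congr rfl fun i _ => ?_
      rw [Matrix.diag_apply, Matrix.diagonal_mul, Rat.smul_def]
    have h5 : ∑ i, θ (u i i) * θ (u i i) = 0 := by
      have := congrArg θ h4
      rw [map_zero, map_sum] at this
      rw [← this]
      refine Finset.sum_congr rfl fun i _ => ?_
      rw [map_smul, smul_eq_mul]
    intro i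
    have h6 := (Finset.sum_eq_zero_iff_of_nonneg (fun i _ => mul_self_nonneg (θ (u i i)))).mp h5 i
      (Finset.mem_univ i)
    exact mul_self_eq_zero.mp h6
  rw [← hu]
  ext i j
  by_cases h : i = j
  · subst h
    rw [Matrix.zero_apply]
    exact (Module.forall_dual_apply_eq_zero_iff ℚ (u i i)).mp fun θ => main θ i
  · exact diag_of_gr hu0 i j h

theorem Ctx.rad_neg [CharZero k] (C : Ctx J L) (d : ℕ) :
    ∀ x ∈ rad L, x ∈ gr (-((d : ℤ) + 1)) → x = 0 := by
  induction d with
  | zero =>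
    intro x hx hxd
    refine comm_neg (d := -(((0 : ℕ) : ℤ) + 1)) (by omega) hxd ?_
    refine sub_eq_zero.mp ?_
    refine C.cartan (d := -(((0 : ℕ) : ℤ) + 1)) hx hxd C.eL ?_
    rw [neg_neg]
    simpa using (E_mem (k := k) (n := n))
  | succ d ih =>
    intro x hx hxd
    refine comm_neg (d := -(((d + 1 : ℕ) : ℤ) + 1)) (by omega) hxd ?_
    refine sub_eq_zero.mp ?_
    refine ih _ (C.rad_comm hx C.eL) ?_
    have := gr_comm hxd (E_mem (k := k) (n := n))
    have e : -(((d + 1 : ℕ) : ℤ) + 1) + 1 = -((d : ℤ) + 1) := by push_cast; ring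
    rw [e] at this
    exact this

theorem Ctx.rad_neg' [CharZero k] (C : Ctx J L) {d : ℤ} (hd : d < 0) {x : Matrix (Fin n) (Fin n) k}
    (hx : x ∈ rad L) (hxd : x ∈ gr d) : x = 0 := by
  refine C.rad_neg (-d - 1).toNat x hx ?_
  have e : -((((-d - 1).toNat : ℕ) : ℤ) + 1) = d := by
    rw [Int.toNat_of_nonneg (by omega)]
    ring
  rw [e]
  exact hxd

theorem Ctx.rad_pos [CharZero k] (C : Ctx J L) {d : ℤ} (hd : 1 ≤ d) {x : Matrix (Fin n) (Fin n) k}
    (hx : x ∈ rad L) (hxd : x ∈ gr d) : x = 0 := by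
  let U : Submodule k (Fin n → k) :=
    { carrier := {v | ∀ d : ℤ, 1 ≤ d → ∀ x ∈ rad L, x ∈ gr d → x *ᵥ v = 0}
      zero_mem' := fun d _ x _ _ => by rw [Matrix.mulVec_zero]
      add_mem' := by
        intro v w hv hw d hd x hx hxd
        rw [Matrix.mulVec_add, hv d hd x hx hxd, hw d hd x hx hxd, add_zero]
      smul_mem' := by
        intro c v hv d hd x hx hxd
        rw [Matrix.mulVec_smul, hv d hd x hx hxd, smul_zero] }
  have hU : ∀ A ∈ L, ∀ v ∈ U, A *ᵥ v ∈ U := by
    intro y hy v hv d hd x hx hxd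
    have h0 : x *ᵥ (y *ᵥ v) = y *ᵥ (x *ᵥ v) + (x * y - y * x) *ᵥ v := by
      rw [Matrix.sub_mulVec, ← Matrix.mulVec_mulVec, ← Matrix.mulVec_mulVec]
      abel
    rw [h0, hv d hd x hx hxd, Matrix.mulVec_zero, zero_add]
    have h1 : x * y - y * x = ∑ j ∈ Finset.Icc (-(n : ℤ)) n, (x * pj j y - pj j y * x) := by
      rw [Finset.sum_sub_distrib, ← Finset.sum_mul, ← Finset.mul_sum, sum_pj]
    rw [h1, Matrix.sum_mulVec]
    refine Finset.sum_eq_zero fun j _ => ?_
    have hm : x * pj j y - pj j y * x ∈ rad L := C.rad_comm hx (C.grd j y hy)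
    have hg : x * pj j y - pj j y * x ∈ gr (d + j) := gr_comm hxd (pj_mem j y)
    rcases lt_trichotomy (d + j) 0 with h | h | h
    · rw [C.rad_neg' h hm hg, Matrix.zero_mulVec]
    · have : j = -d := by omega
      subst this
      rw [C.cartan hx hxd (C.grd (-d) y hy) (pj_mem _ y), Matrix.zero_mulVec]
    · exact hv _ (by omega) _ hm hg
  have hlast : Pi.single (⟨n - 1, by have := C.pos; omega⟩ : Fin n) (1 : k) ∈ U := by
    intro d hd x hx hxd
    ext i
    rw [Matrix.mulVec_single_one, Matrix.col_apply, Pi.zero_apply]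
    refine hxd i _ ?_
    have := i.isLt
    simp only
    have h1 := C.pos
    omega
  rcases C.irr U hU with h | h
  · exfalso
    rw [h, Submodule.mem_bot] at hlast
    have := congrFun hlast ⟨n - 1, by have := C.pos; omega⟩
    rw [Pi.single_eq_same, Pi.zero_apply] at this
    exact one_ne_zero this
  · ext i j
    have h1 : Pi.single j (1 : k) ∈ U := by rw [h]; exact Submodule.mem_top
    have h2 := congrFun (h1 d hd x hx hxd) i
    rw [Matrix.mulVec_single_one, Matrix.col_apply, Pi.zero_apply] at h2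
    exact h2

theorem Ctx.scalar_zero [CharZero k] (C : Ctx J L) {c : k} (h : c • (1 : Matrix (Fin n) (Fin n) k) ∈ L) :
    c = 0 := by
  have h1 := C.sp _ h
  rw [Matrix.transpose_smul, Matrix.transpose_one, Matrix.smul_mul, Matrix.mul_smul, Matrix.one_mul,
    Matrix.mul_one, ← add_smul] at h1
  have hJ : J ≠ 0 := by
    rintro rfl
    have := C.pos
    have : Nonempty (Fin n) := ⟨⟨0, this⟩⟩
    exact C.det Matrix.det_zero
  have h2 := (smul_eq_zero.mp h1).resolve_right hJ
  have h3 : (2 : k) * c = 0 := by rw [two_mul]; exact h2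
  exact (mul_eq_zero.mp h3).resolve_left two_ne_zero

theorem Ctx.rad_eq [CharZero k] (C : Ctx J L) {x : Matrix (Fin n) (Fin n) k} (hx : x ∈ rad L) :
    x = 0 := by
  have h : ∀ d, pj d x = 0 := by
    intro d
    rcases lt_trichotomy d 0 with h | h | h
    · exact C.rad_neg' h (C.rad_pj d hx) (pj_mem d x)
    · subst h
      have h1 : pj 0 x * E k n - E k n * pj 0 x = 0 :=
        C.rad_pos (d := 0 + 1) (by norm_num) (C.rad_comm (C.rad_pj 0 hx) C.eL)
          (gr_comm (pj_mem 0 x) E_mem)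
      obtain ⟨c, hc⟩ := comm_pos 0 (by simpa using pj_mem 0 x) (sub_eq_zero.mp h1)
      rw [pow_zero] at hc
      have h2 : c • (1 : Matrix (Fin n) (Fin n) k) ∈ L := by rw [← hc]; exact (C.rad_pj 0 hx).1
      rw [hc, C.scalar_zero h2, zero_smul]
    · exact C.rad_pos (by omega) (C.rad_pj d hx) (pj_mem d x)
  rw [← sum_pj x]
  exact Finset.sum_eq_zero fun d _ => h d

/-- every functional on `L` is given by the trace form -/
theorem Ctx.repr [CharZero k] (C : Ctx J L) (g : L →ₗ[k] k) :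
    ∃ x ∈ L, ∀ y : L, (x * (y : Matrix (Fin n) (Fin n) k)).trace = g y := by
  let T : L →ₗ[k] (L →ₗ[k] k) :=
    LinearMap.mk₂ k (fun x y => ((x : Matrix (Fin n) (Fin n) k) * (y : Matrix (Fin n) (Fin n) k)).trace)
      (fun a b c => by simp [add_mul, Matrix.trace_add])
      (fun c a b => by simp [Matrix.trace_smul])
      (fun a b c => by simp [mul_add, Matrix.trace_add])
      (fun c a b => by simp [Matrix.trace_smul])
  have hT : Function.Injective T := by
    rw [← LinearMap.ker_eq_bot, LinearMap.ker_eq_bot']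
    intro x hx
    have : (x : Matrix (Fin n) (Fin n) k) ∈ rad L :=
      ⟨x.2, fun y hy => by simpa [T] using LinearMap.congr_fun hx ⟨y, hy⟩⟩
    exact Subtype.ext (C.rad_eq this)
  have hS : Function.Surjective T :=
    (LinearMap.injective_iff_surjective_of_finrank_eq_finrank
      (Subspace.dual_finrank_eq (K := k) (V := L)).symm).mp hT
  obtain ⟨x, hx⟩ := hS g
  exact ⟨x, x.2, fun y => by rw [← hx]; rfl⟩

end Pool.Agent.LM.BR
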