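import Pool.Agent.Lib_helper51.LM.BlockRB

set_option autoImplicit false

open Matrix

/-!
# Block R, third part: the principal `sl 2`
-/

namespace Pool.Agent.LM.BR

variable {k : Type*} [Field k] {n : ℕ}

/-- The matrix `h`. -/
def Hd (k : Type*) [Field k] (n : ℕ) : Matrix (Fin n) (Fin n) k :=
  Matrix.diagonal (fun i => (i.val : k) - ((n : k) - 1) / 2)

/-- The matrix `f`. -/
def Fd (k : Type*) [Field k] (n : ℕ) : Matrix (Fin n) (Fin n) k :=
  Matrix.of (fun i j => if i.val + 1 = j.val then (j.val : k) * ((n : k) - j.val) / 2 else 0)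

theorem Fd_apply (i j : Fin n) :
    Fd k n i j = if i.val + 1 = j.val then (j.val : k) * ((n : k) - j.val) / 2 else 0 := rfl

theorem Hd_mem : Hd k n ∈ gr 0 := by
  intro i j h
  rw [Hd, Matrix.diagonal_apply, if_neg]
  rintro rfl
  exact h (sub_self _)

theorem Fd_mem : Fd k n ∈ gr (-1) := by
  intro i j h
  rw [Fd_apply, if_neg]
  omega

theorem Hd_comm {d : ℤ} {A : Matrix (Fin n) (Fin n) k} (hA : A ∈ gr d) :
    Hd k n * A - A * Hd k n = (d : k) • A := by
  ext i j
  rw [Matrix.sub_apply, Hd, Matrix.diagonal_mul, Matrix.mul_diagonal, Matrix.smul_apply, smul_eq_mul]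
  by_cases h : ((i : ℕ) : ℤ) - ((j : ℕ) : ℤ) = d
  · rw [← h]
    push_cast
    ring
  · rw [hA i j h]
    ring

theorem E_mul_Fd (i j : Fin n) : (E k n * Fd k n) i j =
    if i = j then (j.val : k) * ((n : k) - j.val) / 2 else 0 := by
  rw [Matrix.mul_apply]
  by_cases hi : i.val = 0
  · rw [Finset.sum_eq_zero]
    · split_ifs with h
      · subst h
        rw [hi]
        simp
      · rfl
    · intro l _
      rw [E_apply, if_neg (by omega), zero_mul]
  · rw [Finset.sum_eq_single (⟨i.val - 1, by omega⟩ : Fin n)]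
    · rw [E_apply, Fd_apply, if_pos (by simp only; omega), one_mul]
      congr 1
      simp only [eq_iff_iff]
      constructor
      · intro h; apply Fin.ext; omega
      · rintro rfl; omega
    · intro l _ hl
      rw [E_apply, if_neg, zero_mul]
      intro h
      apply hl
      apply Fin.ext
      simp only
      omega
    · intro h; exact absurd (Finset.mem_univ _) h

theorem Fd_mul_E (i j : Fin n) : (Fd k n * E k n) i j =
    if i = j then ((j.val : k) + 1) * ((n : k) - ((j.val : k) + 1)) / 2 else 0 := by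
  by_cases hj : j.val + 1 < n
  · rw [mul_E _ i j ⟨j.val + 1, hj⟩ rfl, Fd_apply]
    push_cast
    congr 1
    simp only [eq_iff_iff]
    exact ⟨fun h => Fin.ext (by omega), fun h => by rw [h]⟩
  · rw [Matrix.mul_apply, Finset.sum_eq_zero]
    · have : (n : k) = (j.val : k) + 1 := by
        have h1 : n = j.val + 1 := by omega
        exact_mod_cast congrArg (Nat.cast : ℕ → k) h1
      rw [this, sub_self, mul_zero, zero_div, ite_self]
    · intro l _
      rw [E_apply, if_neg (by omega), mul_zero]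

theorem EF [CharZero k] : E k n * Fd k n - Fd k n * E k n = Hd k n := by
  ext i j
  rw [Matrix.sub_apply, E_mul_Fd, Fd_mul_E, Hd, Matrix.diagonal_apply]
  by_cases h : i = j
  · subst h
    rw [if_pos rfl, if_pos rfl, if_pos rfl]
    field_simp
    ring
  · rw [if_neg h, if_neg h, if_neg h, sub_zero]

theorem trace_Hd [CharZero k] : (Hd k n).trace = 0 := by
  rw [← EF, Matrix.trace_sub, Matrix.trace_mul_comm, sub_self]

variable {J : Matrix (Fin n) (Fin n) k} {L : Submodule k (Matrix (Fin n) (Fin n) k)}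

theorem Ctx.trace_zero [CharZero k] (C : Ctx J L) {A : Matrix (Fin n) (Fin n) k} (hA : A ∈ L) :
    A.trace = 0 := by
  have h1 := C.sp A hA
  have hu : IsUnit J.det := isUnit_iff_ne_zero.mpr C.det
  have h2 : Aᵀ = -(J * A * J⁻¹) := by
    have : Aᵀ * J = -(J * A) := eq_neg_of_add_eq_zero_left h1
    calc Aᵀ = Aᵀ * J * J⁻¹ := (Matrix.mul_nonsing_inv_cancel_right J _ hu).symm
      _ = -(J * A * J⁻¹) := by rw [this, neg_mul]
  have h3 : A.trace = -A.trace := by
    conv_lhs => rw [← Matrix.trace_transpose, h2, Matrix.trace_neg, Matrix.trace_mul_comm,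
      ← Matrix.mul_assoc, Matrix.nonsing_inv_mul J hu, Matrix.one_mul]
  have h4 : (2 : k) * A.trace = 0 := by
    rw [two_mul]
    nth_rewrite 1 [h3]
    exact neg_add_cancel _
  exact (mul_eq_zero.mp h4).resolve_left two_ne_zero

theorem Ctx.adh (C : Ctx J L) {A : Matrix (Fin n) (Fin n) k} (hA : A ∈ L) :
    Hd k n * A - A * Hd k n ∈ L := by
  have h1 : Hd k n * A - A * Hd k n =
      ∑ d ∈ Finset.Icc (-(n : ℤ)) n, (Hd k n * pj d A - pj d A * Hd k n) := by
    rw [Finset.sum_sub_distrib, ← Finset.sum_mul, ← Finset.mul_sum, sum_pj]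
  rw [h1]
  refine L.sum_mem fun d _ => ?_
  rw [Hd_comm (pj_mem d A)]
  exact L.smul_mem _ (C.grd d A hA)

/-- step 4 -/
theorem Ctx.hL [CharZero k] (C : Ctx J L) : Hd k n ∈ L := by
  let g : L →ₗ[k] k :=
    { toFun := fun y => (Hd k n * (y : Matrix (Fin n) (Fin n) k)).trace
      map_add' := fun a b => by simp [mul_add, Matrix.trace_add]
      map_smul' := fun c a => by simp [Matrix.trace_smul] }
  obtain ⟨x, hxL, hx⟩ := C.repr g
  have hx' : ∀ y ∈ L, (x * y).trace = (Hd k n * y).trace := fun y hy => hx ⟨y, hy⟩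
  have h0 : ∀ y ∈ L, (pj 0 x * y).trace = (Hd k n * y).trace := by
    intro y hy
    rw [trace_pj, hx' _ (C.grd _ y hy), ← trace_pj, pj_self Hd_mem]
  have h0L : pj 0 x ∈ L := C.grd 0 x hxL
  have h1 : (pj 0 x - Hd k n) * E k n - E k n * (pj 0 x - Hd k n) ∈ rad L := by
    refine ⟨?_, ?_⟩
    · have : (pj 0 x - Hd k n) * E k n - E k n * (pj 0 x - Hd k n) =
          (pj 0 x * E k n - E k n * pj 0 x) - (Hd k n * E k n - E k n * Hd k n) := by
        rw [sub_mul, mul_sub]; abel
      rw [this]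
      exact L.sub_mem (C.lie _ h0L _ C.eL) (C.adh C.eL)
    · intro y hy
      rw [trace_comm3, sub_mul, Matrix.trace_sub, h0 _ (C.lie _ C.eL _ hy), sub_self]
  have h2 := C.rad_eq h1
  have h3 : pj 0 x - Hd k n ∈ gr (((0 : ℕ) : ℤ)) := by
    simpa using (gr (k := k) (n := n) 0).sub_mem (pj_mem 0 x) Hd_mem
  obtain ⟨c, hc⟩ := comm_pos 0 h3 (sub_eq_zero.mp h2)
  rw [pow_zero] at hc
  have h4 : (pj 0 x - Hd k n).trace = 0 := by
    rw [Matrix.trace_sub, C.trace_zero h0L, trace_Hd, sub_zero]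
  rw [hc, Matrix.trace_smul, Matrix.trace_one, Fintype.card_fin, smul_eq_mul] at h4
  have hn : (n : k) ≠ 0 := Nat.cast_ne_zero.mpr (by have := C.pos; omega)
  have h5 : c = 0 := (mul_eq_zero.mp h4).resolve_right hn
  rw [h5, zero_smul, sub_eq_zero] at hc
  rw [← hc]
  exact h0L

/-- step 5 -/
theorem Ctx.fL [CharZero k] (C : Ctx J L) : Fd k n ∈ L := by
  let ad : L →ₗ[k] L :=
    { toFun := fun y => ⟨E k n * (y : Matrix (Fin n) (Fin n) k) - y * E k n, C.lie _ C.eL _ y.2⟩
      map_add' := fun a b => by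
        apply Subtype.ext
        simp only [Submodule.coe_add]
        rw [mul_add, add_mul]; abel
      map_smul' := fun c a => by
        apply Subtype.ext
        simp only [Submodule.coe_smul, RingHom.id_apply]
        rw [Matrix.mul_smul, Matrix.smul_mul, smul_sub] }
  have hmem : (⟨Hd k n, C.hL⟩ : L) ∈ LinearMap.range ad := by
    by_contra hno
    obtain ⟨g, hg, hg0⟩ := Submodule.exists_le_ker_of_notMem hno
    obtain ⟨y, hyL, hy⟩ := C.repr g
    have h1 : y * E k n - E k n * y ∈ rad L := by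
      refine ⟨C.lie _ hyL _ C.eL, fun z hz => ?_⟩
      rw [trace_comm3]
      have h2 := hy (ad ⟨z, hz⟩)
      have h3 : g (ad ⟨z, hz⟩) = 0 := hg0 ⟨_, rfl⟩
      rw [h3] at h2
      exact h2
    have h2 : y * E k n - E k n * y = 0 := C.rad_eq h1
    have h3 : pj 0 y * E k n - E k n * pj 0 y = 0 := by
      rw [pj_comm_E, h2, pj_zero]
    obtain ⟨c, hc⟩ := comm_pos 0 (by simpa using pj_mem 0 y) (sub_eq_zero.mp h3)
    rw [pow_zero] at hc
    apply hg
    rw [← hy]
    show (y * Hd k n).trace = 0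
    have h4 : (y * Hd k n).trace = (pj 0 y * Hd k n).trace := by
      rw [trace_pj, neg_zero, pj_self Hd_mem]
    rw [h4, hc, Matrix.smul_mul, Matrix.one_mul, Matrix.trace_smul, trace_Hd, smul_zero]
  obtain ⟨z, hz⟩ := hmem
  have hz' : E k n * (z : Matrix (Fin n) (Fin n) k) - z * E k n = Hd k n := congrArg Subtype.val hz
  have h1 : pj (-1) (z : Matrix (Fin n) (Fin n) k) * E k n - E k n * pj (-1) z = - Hd k n := by
    rw [pj_comm_E]
    have : (z : Matrix (Fin n) (Fin n) k) * E k n - E k n * z = - Hd k n := by rw [← hz']; abel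
    rw [this]
    have h2 : -Hd k n ∈ gr (-1 + 1) := by
      have e : (-1 : ℤ) + 1 = 0 := by norm_num
      rw [e]
      exact Submodule.neg_mem _ Hd_mem
    exact pj_self h2
  have h2 : pj (-1) (z : Matrix (Fin n) (Fin n) k) - Fd k n = 0 := by
    refine comm_neg (d := -1) (by norm_num) (Submodule.sub_mem (gr (k := k) (n := n) (-1)) (pj_mem _ _) Fd_mem) ?_
    rw [← sub_eq_zero]
    have h3 : (pj (-1) (z : Matrix (Fin n) (Fin n) k) - Fd k n) * E k n -
        E k n * (pj (-1) z - Fd k n) =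
        (pj (-1) (z : Matrix (Fin n) (Fin n) k) * E k n - E k n * pj (-1) z) +
          (E k n * Fd k n - Fd k n * E k n) := by
      rw [sub_mul, mul_sub]; abel
    rw [h3, h1, EF, neg_add_cancel]
  rw [← sub_eq_zero.mp h2]
  exact C.grd _ _ z.2

/-! ### powers of the shift -/

theorem HE (j : ℕ) : Hd k n * E k n ^ j = E k n ^ j * Hd k n + (j : k) • E k n ^ j := by
  have := Hd_comm (E_pow_mem (k := k) (n := n) j)
  rw [sub_eq_iff_eq_add] at this
  rw [this, add_comm]
  push_cast
  rfl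

theorem EpowF [CharZero k] (s : ℕ) : E k n ^ (s + 1) * Fd k n - Fd k n * E k n ^ (s + 1) =
    ((s : k) + 1) • (E k n ^ s * Hd k n) + ((((s : k) + 1) * s) / 2) • E k n ^ s := by
  induction s with
  | zero =>
    rw [zero_add, pow_one, pow_zero, EF]
    simp
  | succ s ih =>
    have h1 : E k n ^ (s + 1 + 1) * Fd k n - Fd k n * E k n ^ (s + 1 + 1) =
        E k n * (E k n ^ (s + 1) * Fd k n - Fd k n * E k n ^ (s + 1)) +
          (E k n * Fd k n - Fd k n * E k n) * E k n ^ (s + 1) := by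
      rw [pow_succ' (E k n) (s + 1), mul_sub, sub_mul]
      simp only [Matrix.mul_assoc]
      abel
    rw [h1, ih, EF, HE, mul_add, Matrix.mul_smul, Matrix.mul_smul, ← Matrix.mul_assoc, ← pow_succ']
    push_cast
    module

theorem EE [CharZero k] (s : ℕ) :
    E k n ^ (s + 1) * (E k n ^ (s + 1) * Fd k n - Fd k n * E k n ^ (s + 1)) -
      (E k n ^ (s + 1) * Fd k n - Fd k n * E k n ^ (s + 1)) * E k n ^ (s + 1) =
        (-(((s : k) + 1) ^ 2)) • E k n ^ (2 * s + 1) := by
  rw [EpowF, Matrix.mul_add, Matrix.add_mul, Matrix.mul_smul, Matrix.mul_smul, Matrix.smul_mul,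
    Matrix.smul_mul, Matrix.mul_assoc (E k n ^ s), HE, Matrix.mul_add, Matrix.mul_smul, ← Matrix.mul_assoc, ← Matrix.mul_assoc,
    ← pow_add, ← pow_add]
  have e1 : s + 1 + s = 2 * s + 1 := by ring
  have e2 : s + (s + 1) = 2 * s + 1 := by ring
  rw [e1, e2]
  push_cast
  module

end Pool.Agent.LM.BR
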