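import Pool.Agent.Lib_helper51.LM.BlockRC

set_option autoImplicit false

open Matrix

/-!
# Block R, fourth part: the highest degree
-/

namespace Pool.Agent.LM.BR

variable {k : Type*} [Field k] {n : ℕ}
variable {J : Matrix (Fin n) (Fin n) k} {L : Submodule k (Matrix (Fin n) (Fin n) k)}

/-- the vector `u_0` -/
def u0 (k : Type*) [Field k] {n : ℕ} (hn : 0 < n) : Fin n → k := Pi.single ⟨0, hn⟩ 1

theorem E_pow_u0 (hn : 0 < n) (m : ℕ) (hm : m < n) :
    (E k n ^ m) *ᵥ u0 k hn = Pi.single ⟨m, hm⟩ 1 := by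
  ext i
  rw [u0, Matrix.mulVec_single_one, Matrix.col_apply, E_pow_apply]
  by_cases h : i = ⟨m, hm⟩
  · subst h
    rw [Pi.single_eq_same, if_pos (by simp)]
  · rw [Pi.single_eq_of_ne h, if_neg]
    intro h1
    exact h (Fin.ext (by simpa using h1))

theorem Hd_u0 (hn : 0 < n) : Hd k n *ᵥ u0 k hn = (-(((n : k) - 1) / 2)) • u0 k hn := by
  ext i
  rw [u0, Hd, Matrix.mulVec_single_one, Matrix.col_apply, Matrix.diagonal_apply, Pi.smul_apply,
    smul_eq_mul]
  by_cases h : i = ⟨0, hn⟩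
  · subst h
    rw [if_pos rfl, Pi.single_eq_same]
    simp
  · rw [if_neg h, Pi.single_eq_of_ne h, mul_zero]

theorem Fd_u0 (hn : 0 < n) : Fd k n *ᵥ u0 k hn = 0 := by
  ext i
  rw [u0, Matrix.mulVec_single_one, Matrix.col_apply, Fd_apply, if_neg (by simp)]
  rfl

theorem Fd_E_u0 [CharZero k] (hn : 0 < n) (s : ℕ) :
    Fd k n *ᵥ ((E k n ^ (s + 1)) *ᵥ u0 k hn) =
      ((((s : k) + 1) * ((n : k) - (s + 1))) / 2) • ((E k n ^ s) *ᵥ u0 k hn) := by
  have h : (E k n ^ (s + 1) * Fd k n - Fd k n * E k n ^ (s + 1)) *ᵥ u0 k hn =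
      (((s : k) + 1) • (E k n ^ s * Hd k n) + ((((s : k) + 1) * s) / 2) • E k n ^ s) *ᵥ u0 k hn := by
    rw [EpowF]
  rw [Matrix.sub_mulVec, ← Matrix.mulVec_mulVec, Fd_u0, Matrix.mulVec_zero, zero_sub,
    ← Matrix.mulVec_mulVec, Matrix.add_mulVec, Matrix.smul_mulVec, Matrix.smul_mulVec,
    ← Matrix.mulVec_mulVec, Hd_u0, Matrix.mulVec_smul] at h
  rw [neg_eq_iff_eq_neg] at h
  rw [h, smul_smul, ← add_smul, ← neg_smul]
  congr 1
  ring

/-! ### the form -/

/-- the form of the matrix `J` -/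
def bf (J : Matrix (Fin n) (Fin n) k) (x y : Fin n → k) : k := x ⬝ᵥ (J *ᵥ y)

theorem bf_smul_left (J : Matrix (Fin n) (Fin n) k) (c : k) (x y : Fin n → k) :
    bf J (c • x) y = c * bf J x y := by
  rw [bf, smul_dotProduct, smul_eq_mul]; rfl

theorem bf_smul_right (J : Matrix (Fin n) (Fin n) k) (c : k) (x y : Fin n → k) :
    bf J x (c • y) = c * bf J x y := by
  rw [bf, Matrix.mulVec_smul, dotProduct_smul, smul_eq_mul]; rfl

theorem bf_sp {A : Matrix (Fin n) (Fin n) k} (hA : Aᵀ * J + J * A = 0) (x y : Fin n → k) :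
    bf J (A *ᵥ x) y = - bf J x (A *ᵥ y) := by
  have h1 : Aᵀ * J = -(J * A) := eq_neg_of_add_eq_zero_left hA
  rw [bf, bf, Matrix.mulVec_mulVec, ← dotProduct_neg, ← Matrix.neg_mulVec, ← h1,
    ← Matrix.mulVec_mulVec, dotProduct_comm (A *ᵥ x), Matrix.dotProduct_mulVec,
    ← Matrix.mulVec_transpose, dotProduct_comm]

theorem bf_pow {A : Matrix (Fin n) (Fin n) k} (hA : Aᵀ * J + J * A = 0) (m : ℕ) (x y : Fin n → k) :
    bf J ((A ^ m) *ᵥ x) y = (-1) ^ m * bf J x ((A ^ m) *ᵥ y) := by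
  induction m generalizing y with
  | zero => simp
  | succ m ih =>
    rw [pow_succ', ← Matrix.mulVec_mulVec, bf_sp hA, ih]
    rw [Matrix.mulVec_mulVec, ← pow_succ, pow_succ', pow_succ]
    ring

theorem bf_nondeg (hJ : J.det ≠ 0) {y : Fin n → k} (h : ∀ x, bf J x y = 0) : y = 0 := by
  have h1 : J *ᵥ y = 0 := by
    ext i
    have := h (Pi.single i 1)
    rwa [bf, single_one_dotProduct] at this
  have hu : IsUnit J.det := isUnit_iff_ne_zero.mpr hJ
  calc y = (J⁻¹ * J) *ᵥ y := by rw [Matrix.nonsing_inv_mul J hu, Matrix.one_mulVec]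
    _ = 0 := by rw [← Matrix.mulVec_mulVec, h1, Matrix.mulVec_zero]

theorem Ctx.gamma [CharZero k] (C : Ctx J L) :
    bf J (u0 k C.pos) ((E k n ^ (n - 1)) *ᵥ u0 k C.pos) ≠ 0 := by
  intro h0
  have hE := C.sp _ C.eL
  have hn := C.pos
  have h1 : (E k n ^ (n - 1)) *ᵥ u0 k C.pos = 0 := by
    refine bf_nondeg C.det fun x => ?_
    have h2 : ∀ i : Fin n, bf J (Pi.single i 1) ((E k n ^ (n - 1)) *ᵥ u0 k C.pos) = 0 := by
      intro i
      rw [← E_pow_u0 C.pos i.val i.isLt, bf_pow hE, Matrix.mulVec_mulVec, ← pow_add]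
      by_cases hi : i.val = 0
      · rw [hi, zero_add, h0, mul_zero]
      · have : E k n ^ (i.val + (n - 1)) = 0 := by
          refine gr_zero_of_big (d := ((i.val + (n - 1) : ℕ) : ℤ)) (by omega) (E_pow_mem _)
        rw [this, Matrix.zero_mulVec, bf, Matrix.mulVec_zero, dotProduct_zero, mul_zero]
    rw [bf, dotProduct]
    refine Finset.sum_eq_zero fun i _ => ?_
    have h3 := h2 i
    rw [bf, single_one_dotProduct] at h3
    rw [h3, mul_zero]
  rw [E_pow_u0 C.pos (n - 1) (by omega)] at h1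
  have h2 := congrFun h1 ⟨n - 1, by omega⟩
  rw [Pi.single_eq_same, Pi.zero_apply] at h2
  exact one_ne_zero h2

theorem Ctx.odd [CharZero k] (C : Ctx J L) {m : ℕ} (hm : m < n) (h : E k n ^ m ∈ L) : Odd m := by
  by_contra hno
  have hev : Even m := Nat.not_odd_iff_even.mp hno
  have hE := C.sp _ C.eL
  have hEm := C.sp _ h
  have h1 : ∀ y, bf J (u0 k C.pos) ((E k n ^ m) *ᵥ y) = 0 := by
    intro y
    have h2 := bf_sp hEm (u0 k C.pos) y
    have h3 := bf_pow hE m (u0 k C.pos) y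
    rw [hev.neg_one_pow, one_mul] at h3
    rw [h3] at h2
    have h4 : (2 : k) * bf J (u0 k C.pos) ((E k n ^ m) *ᵥ y) = 0 := by
      rw [two_mul]
      nth_rewrite 1 [h2]
      exact neg_add_cancel _
    exact (mul_eq_zero.mp h4).resolve_left two_ne_zero
  apply C.gamma
  have e : n - 1 = m + (n - 1 - m) := by omega
  rw [e, pow_add, ← Matrix.mulVec_mulVec]
  exact h1 _

/-- The repeated brackets with `f`. -/
def Z (k : Type*) [Field k] (n m : ℕ) : ℕ → Matrix (Fin n) (Fin n) k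
  | 0 => E k n ^ m
  | r + 1 => Fd k n * Z k n m r - Z k n m r * Fd k n

theorem Z_mem [CharZero k] (C : Ctx J L) {m : ℕ} (h : E k n ^ m ∈ L) (r : ℕ) : Z k n m r ∈ L := by
  induction r with
  | zero => exact h
  | succ r ih => exact C.lie _ C.fL _ ih

theorem Z_gr (m r : ℕ) : Z k n m r ∈ gr ((m : ℤ) - r) := by
  induction r with
  | zero => simpa [Z] using E_pow_mem (k := k) (n := n) m
  | succ r ih =>
    have := gr_comm (Fd_mem (k := k) (n := n)) ih
    have e : (-1 : ℤ) + ((m : ℤ) - r) = (m : ℤ) - ((r + 1 : ℕ) : ℤ) := by push_cast; ring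
    rw [e] at this
    exact this

theorem Z_u0 [CharZero k] (hn : 0 < n) {m : ℕ} (hm : m < n) (r : ℕ) (hr : r ≤ m) :
    ∃ c : k, c ≠ 0 ∧ Z k n m r *ᵥ u0 k hn = c • ((E k n ^ (m - r)) *ᵥ u0 k hn) := by
  induction r with
  | zero => exact ⟨1, one_ne_zero, by rw [one_smul]; rfl⟩
  | succ r ih =>
    obtain ⟨c, hc, h⟩ := ih (by omega)
    obtain ⟨s, hs⟩ : ∃ s, m - r = s + 1 := ⟨m - r - 1, by omega⟩
    refine ⟨c * ((((s : k) + 1) * ((n : k) - (s + 1))) / 2), ?_, ?_⟩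
    · have h1 : ((s : k) + 1) ≠ 0 := by exact_mod_cast Nat.succ_ne_zero s
      have h2 : ((n : k) - (s + 1)) ≠ 0 := by
        rw [sub_ne_zero]
        have : n ≠ s + 1 := by omega
        exact_mod_cast this
      exact mul_ne_zero hc (div_ne_zero (mul_ne_zero h1 h2) two_ne_zero)
    · have e : m - (r + 1) = s := by omega
      rw [Z, Matrix.sub_mulVec, ← Matrix.mulVec_mulVec, ← Matrix.mulVec_mulVec, Fd_u0,
        Matrix.mulVec_zero, sub_zero, h, Matrix.mulVec_smul, hs, Fd_E_u0, smul_smul, e]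

/-- the highest degree -/
theorem Ctx.top (C : Ctx J L) (hn : 2 ≤ n) :
    ∃ m : ℕ, 1 ≤ m ∧ m ≤ n - 1 ∧ E k n ^ m ∈ L ∧
      ∀ d : ℤ, (m : ℤ) < d → ∀ x ∈ L, x ∈ gr d → x = 0 := by
  classical
  let P : ℕ → Prop := fun d => ∃ x ∈ L, x ∈ gr (d : ℤ) ∧ x ≠ 0
  have hP1 : P 1 := ⟨E k n, C.eL, by simpa using E_mem (k := k) (n := n), by
    have := E_pow_ne (k := k) (n := n) (m := 1) (by omega)
    rwa [pow_one] at this⟩
  let m := Nat.findGreatest P (n - 1)
  have hm1 : 1 ≤ m := Nat.le_findGreatest (by omega) hP1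
  have hmn : m ≤ n - 1 := Nat.findGreatest_le _
  have hPm : P m := Nat.findGreatest_spec (P := P) (m := 1) (by omega) hP1
  have hgt : ∀ d : ℤ, (m : ℤ) < d → ∀ x ∈ L, x ∈ gr d → x = 0 := by
    intro d hd x hx hxd
    by_cases hdn : d ≤ ((n - 1 : ℕ) : ℤ)
    · by_contra hx0
      have hd0 : ((d.toNat : ℕ) : ℤ) = d := Int.toNat_of_nonneg (by omega)
      refine Nat.findGreatest_is_greatest (P := P) (n := n - 1) (k := d.toNat) ?_ ?_ ?_
      · show m < d.toNat
        omega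
      · omega
      · exact ⟨x, hx, by rw [hd0]; exact hxd, hx0⟩
    · exact gr_zero_of_big (by omega) hxd
  refine ⟨m, hm1, hmn, ?_, hgt⟩
  obtain ⟨x, hx, hxm, hx0⟩ := hPm
  have h1 : x * E k n - E k n * x = 0 :=
    hgt ((m : ℤ) + 1) (by omega) _ (C.lie _ hx _ C.eL) (gr_comm hxm E_mem)
  obtain ⟨c, hc⟩ := comm_pos m hxm (sub_eq_zero.mp h1)
  have hc0 : c ≠ 0 := by
    rintro rfl
    rw [zero_smul] at hc
    exact hx0 hc
  have : E k n ^ m = c⁻¹ • x := by rw [hc, smul_smul, inv_mul_cancel₀ hc0, one_smul]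
  rw [this]
  exact L.smul_mem _ hx

theorem even_n [CharZero k] (hJ : J.det ≠ 0) (hJs : Jᵀ = -J) : Even n := by
  by_contra hno
  have hodd : Odd n := Nat.not_even_iff_odd.mp hno
  have h1 : J.det = -J.det := by
    conv_lhs => rw [← Matrix.det_transpose, hJs, Matrix.det_neg, Fintype.card_fin, hodd.neg_one_pow]
    ring
  have h4 : (2 : k) * J.det = 0 := by
    rw [two_mul]
    nth_rewrite 1 [h1]
    exact neg_add_cancel _
  exact hJ ((mul_eq_zero.mp h4).resolve_left two_ne_zero)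

/-- step 6 -/
theorem Ctx.mid [CharZero k] (C : Ctx J L) (hJs : Jᵀ = -J) {m : ℕ} (hm : 1 < m) (hmn : m < n - 1)
    (hEm : E k n ^ m ∈ L) (htop : ∀ d : ℤ, (m : ℤ) < d → ∀ x ∈ L, x ∈ gr d → x = 0) : False := by
  obtain ⟨s, rfl⟩ : ∃ s, m = s + 1 := ⟨m - 1, by omega⟩
  -- `2 m ≥ n + 1`
  have h1 : E k n ^ (2 * s + 1) ∈ L := by
    have h2 := C.lie _ hEm _ (C.lie _ hEm _ C.fL)
    rw [EE] at h2
    have h3 : (-(((s : k) + 1) ^ 2)) ≠ 0 := by
      refine neg_ne_zero.mpr (pow_ne_zero 2 ?_)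
      exact_mod_cast Nat.succ_ne_zero s
    have h4 : E k n ^ (2 * s + 1) = (-(((s : k) + 1) ^ 2))⁻¹ •
        ((-(((s : k) + 1) ^ 2)) • E k n ^ (2 * s + 1)) := by
      rw [smul_smul, inv_mul_cancel₀ h3, one_smul]
    rw [h4]
    exact L.smul_mem _ h2
  have h2 : E k n ^ (2 * s + 1) = 0 :=
    htop ((2 * s + 1 : ℕ) : ℤ) (by push_cast; omega) _ h1 (E_pow_mem _)
  have h3 : n ≤ 2 * s + 1 := by
    by_contra h
    exact E_pow_ne (by omega) h2
  -- the element `z`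
  obtain ⟨r, hr⟩ : ∃ r, r = 2 * s + 3 - n := ⟨_, rfl⟩
  have hr1 : s + 1 - r = n - 1 - (s + 1) := by omega
  obtain ⟨c, hc, hz⟩ := Z_u0 (k := k) C.pos (m := s + 1) (by omega) r (by omega)
  have hzL := Z_mem C hEm r
  have hzg : Z k n (s + 1) r ∈ gr ((n : ℤ) - 1 - (s + 1)) := by
    have := Z_gr (k := k) (n := n) (s + 1) r
    have e : (((s + 1 : ℕ) : ℤ) - r) = (n : ℤ) - 1 - (s + 1) := by omega
    rw [e] at this
    exact this
  have h4 : E k n ^ (s + 1) * Z k n (s + 1) r - Z k n (s + 1) r * E k n ^ (s + 1) = 0 := by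
    refine htop _ ?_ _ (C.lie _ hEm _ hzL) (gr_comm (E_pow_mem _) hzg)
    push_cast
    omega
  have hE := C.sp _ C.eL
  have h5 : Z k n (s + 1) r *ᵥ ((E k n ^ (s + 1)) *ᵥ u0 k C.pos) =
      c • ((E k n ^ (n - 1)) *ᵥ u0 k C.pos) := by
    rw [Matrix.mulVec_mulVec, ← sub_eq_zero.mp h4, ← Matrix.mulVec_mulVec, hz, Matrix.mulVec_smul,
      Matrix.mulVec_mulVec, ← pow_add, hr1]
    congr 4
    omega
  have h6 := bf_sp (C.sp _ hzL) (u0 k C.pos) ((E k n ^ (s + 1)) *ᵥ u0 k C.pos)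
  rw [h5, hz, bf_smul_left, bf_smul_right, bf_pow hE, Matrix.mulVec_mulVec, ← pow_add, hr1] at h6
  have e1 : n - 1 - (s + 1) + (s + 1) = n - 1 := by omega
  rw [e1] at h6
  have hev : Even (n - 1 - (s + 1)) := by
    have hne : Even n := even_n C.det hJs
    have hmo : Odd (s + 1) := C.odd (by omega) hEm
    obtain ⟨a, ha⟩ := hne
    obtain ⟨b, hb⟩ := hmo
    exact ⟨a - b - 1, by omega⟩
  rw [hev.neg_one_pow, one_mul] at h6
  have h7 : (2 : k) * (c * bf J (u0 k C.pos) ((E k n ^ (n - 1)) *ᵥ u0 k C.pos)) = 0 := by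
    rw [two_mul]
    nth_rewrite 1 [h6]
    exact neg_add_cancel _
  exact mul_ne_zero two_ne_zero (mul_ne_zero hc C.gamma) h7

/-- step 7 -/
theorem Ctx.low [CharZero k] (C : Ctx J L)
    (htop : ∀ d : ℤ, 1 < d → ∀ x ∈ L, x ∈ gr d → x = 0) :
    L ≤ Submodule.span k {E k n, Hd k n, Fd k n} := by
  have hE : E k n ∈ Submodule.span k {E k n, Hd k n, Fd k n} := Submodule.subset_span (by simp)
  have hH : Hd k n ∈ Submodule.span k {E k n, Hd k n, Fd k n} := Submodule.subset_span (by simp)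
  have hF : Fd k n ∈ Submodule.span k {E k n, Hd k n, Fd k n} := Submodule.subset_span (by simp)
  -- degree 1
  have d1 : ∀ y ∈ L, y ∈ gr 1 → ∃ c : k, y = c • E k n := by
    intro y hy hyg
    have h1 : y * E k n - E k n * y = 0 :=
      htop (1 + 1) (by norm_num) _ (C.lie _ hy _ C.eL) (gr_comm hyg E_mem)
    obtain ⟨c, hc⟩ := comm_pos 1 (by simpa using hyg) (sub_eq_zero.mp h1)
    exact ⟨c, by rw [hc, pow_one]⟩
  have hHE : Hd k n * E k n - E k n * Hd k n = E k n := by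
    rw [Hd_comm E_mem]; simp
  have d0 : ∀ y ∈ L, y ∈ gr 0 → ∃ c : k, y = c • Hd k n := by
    intro y hy hyg
    have hg1 := gr_comm hyg (E_mem (k := k) (n := n))
    rw [zero_add] at hg1
    obtain ⟨c, hc⟩ := d1 _ (C.lie _ hy _ C.eL) hg1
    refine ⟨c, ?_⟩
    have hyL : y - c • Hd k n ∈ L := L.sub_mem hy (L.smul_mem _ C.hL)
    have h1 : (y - c • Hd k n) * E k n - E k n * (y - c • Hd k n) = 0 := by
      have : (y - c • Hd k n) * E k n - E k n * (y - c • Hd k n) =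
          (y * E k n - E k n * y) - c • (Hd k n * E k n - E k n * Hd k n) := by
        rw [sub_mul, mul_sub, Matrix.smul_mul, Matrix.mul_smul, smul_sub]; abel
      rw [this, hc, hHE, sub_self]
    have hg0 : y - c • Hd k n ∈ gr (((0 : ℕ) : ℤ)) := by
      simpa using Submodule.sub_mem (gr (k := k) (n := n) 0) hyg (Submodule.smul_mem _ c Hd_mem)
    obtain ⟨c', hc'⟩ := comm_pos 0 hg0 (sub_eq_zero.mp h1)
    rw [pow_zero] at hc'
    rw [hc'] at hyL
    rw [C.scalar_zero hyL, zero_smul] at hc'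
    exact sub_eq_zero.mp hc'
  have dm : ∀ y ∈ L, y ∈ gr (-1) → ∃ c : k, y = c • Fd k n := by
    intro y hy hyg
    have hg1 := gr_comm hyg (E_mem (k := k) (n := n))
    rw [neg_add_cancel] at hg1
    obtain ⟨c, hc⟩ := d0 _ (C.lie _ hy _ C.eL) hg1
    refine ⟨-c, ?_⟩
    rw [← sub_eq_zero]
    refine comm_neg (d := -1) (by norm_num)
      (Submodule.sub_mem (gr (k := k) (n := n) (-1)) hyg (Submodule.smul_mem _ _ Fd_mem)) ?_
    rw [← sub_eq_zero]
    have h3 : (y - (-c) • Fd k n) * E k n - E k n * (y - (-c) • Fd k n) =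
        (y * E k n - E k n * y) - c • (E k n * Fd k n - Fd k n * E k n) := by
      rw [sub_mul, mul_sub, Matrix.smul_mul, Matrix.mul_smul, smul_sub, neg_smul, neg_smul]; abel
    rw [h3, hc, EF, sub_self]
  intro A hA
  rw [← sum_pj A]
  refine Submodule.sum_mem _ fun d _ => ?_
  have hL := C.grd d A hA
  have hg := pj_mem d A
  rcases lt_trichotomy d 0 with h | h | h
  · by_cases h1 : d = -1
    · subst h1
      obtain ⟨c, hc⟩ := dm _ hL hg
      rw [hc]
      exact Submodule.smul_mem _ _ hF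
    · have : pj d A ∈ rad L := by
        refine ⟨hL, fun y hy => ?_⟩
        rw [trace_pj, htop (-d) (by omega) _ (C.grd _ _ hy) (pj_mem _ _), mul_zero, Matrix.trace_zero]
      rw [C.rad_eq this]
      exact Submodule.zero_mem _
  · subst h
    obtain ⟨c, hc⟩ := d0 _ hL hg
    rw [hc]
    exact Submodule.smul_mem _ _ hH
  · by_cases h1 : d = 1
    · subst h1
      obtain ⟨c, hc⟩ := d1 _ hL hg
      rw [hc]
      exact Submodule.smul_mem _ _ hE
    · rw [htop d (by omega) _ hL hg]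
      exact Submodule.zero_mem _

/-- Block R in the coordinates of `Ctx`. -/
theorem Ctx.blockR [CharZero k] (C : Ctx J L) (hJs : Jᵀ = -J) (hn : 2 ≤ n) :
    E k n ^ (n - 1) ∈ L ∨
      (Hd k n ∈ L ∧ Fd k n ∈ L ∧ L ≤ Submodule.span k {E k n, Hd k n, Fd k n}) := by
  obtain ⟨m, hm1, hmn, hEm, htop⟩ := C.top hn
  by_cases h1 : m = n - 1
  · subst h1
    exact Or.inl hEm
  · by_cases h2 : m = 1
    · subst h2
      exact Or.inr ⟨C.hL, C.fL, C.low (by simpa using htop)⟩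
    · exact (C.mid hJs (by omega) (by omega) hEm htop).elim

end Pool.Agent.LM.BR
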