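import Pool.Agent.Lib_helper51.LM.FftC

set_option autoImplicit false

open scoped Matrix

namespace Pool.Agent.LM

namespace T

/-! ### Translation of products of pairings -/

section tr

variable {K : Type*} [Field K] [CharZero K] {ι : Type*} [Fintype ι] [DecidableEq ι] {W : ι → Type*}
  [∀ i, AddCommGroup (W i)] [∀ i, Module K (W i)] [∀ i, FiniteDimensional K (W i)]
variable {A : Type*} [Fintype A] [DecidableEq A] {ω : ∀ i, LinearMap.BilinForm K (W i)}

set_option linter.unusedSectionVars false in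
theorem Pairing.explicit {P : Finset A} {F : (A → ∀ i, W i) → K} (h : Pairing ω P F) :
    ∃ (m : ℕ) (q : Fin m × Fin 2 → A) (c : Fin m → ι), Function.Injective q ∧
      (∀ a, a ∈ P ↔ ∃ z, q z = a) ∧
      ∀ v, F v = ∏ t, ω (c t) (v (q (t, 0)) (c t)) (v (q (t, 1)) (c t)) := by
  induction h with
  | one =>
    refine ⟨0, fun z => z.1.elim0, Fin.elim0, ?_, ?_, ?_⟩
    · rintro ⟨x, _⟩; exact x.elim0
    · intro a
      constructor
      · intro h; exact absurd h (Finset.notMem_empty a)
      · rintro ⟨⟨x, _⟩, _⟩; exact x.elim0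
    · intro v; simp
  | @mul P F a a' i hne ha ha' hF ih =>
    obtain ⟨m, q, c, hinj, hmem, hv⟩ := ih
    have hq : ∀ z, q z ∈ P := fun z => (hmem _).mpr ⟨z, rfl⟩
    have hqa : ∀ z, q z ≠ a := fun z h => ha (h ▸ hq z)
    have hqa' : ∀ z, q z ≠ a' := fun z h => ha' (h ▸ hq z)
    obtain ⟨q', hq'⟩ : ∃ q' : Fin (m + 1) × Fin 2 → A, q' = fun z =>
      (Fin.cons (fun s : Fin 2 => if s = 0 then a else a') (fun t s => q (t, s)) :
        Fin (m + 1) → Fin 2 → A) z.1 z.2 := ⟨_, rfl⟩
    have q0 : ∀ s : Fin 2, q' (0, s) = if s = 0 then a else a' := fun s => by rw [hq']; rfl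
    have qs : ∀ (t : Fin m) (s : Fin 2), q' (t.succ, s) = q (t, s) := fun t s => by rw [hq']; rfl
    refine ⟨m + 1, q', Fin.cons i c, ?_, ?_, ?_⟩
    · rintro ⟨x, s⟩ ⟨y, s'⟩ h
      induction x using Fin.cases with
      | zero =>
        induction y using Fin.cases with
        | zero =>
          rw [q0, q0] at h
          have : s = s' := by
            by_contra hss
            rcases (by omega : s = 0 ∨ s = 1) with rfl | rfl <;>
              rcases (by omega : s' = 0 ∨ s' = 1) with rfl | rfl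
            · exact hss rfl
            · exact hne (by simpa using h)
            · exact hne (by simpa using h.symm)
            · exact hss rfl
          rw [this]
        | succ y =>
          rw [q0, qs] at h
          split_ifs at h
          · exact absurd h.symm (hqa _)
          · exact absurd h.symm (hqa' _)
      | succ x =>
        induction y using Fin.cases with
        | zero =>
          rw [q0, qs] at h
          split_ifs at h
          · exact absurd h (hqa _)
          · exact absurd h (hqa' _)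
        | succ y =>
          rw [qs, qs] at h
          have := hinj h
          simp only [Prod.mk.injEq] at this
          rw [this.1, this.2]
    · intro b
      constructor
      · intro hb
        rcases Finset.mem_insert.mp hb with h | h
        · exact ⟨(0, 0), by rw [q0, if_pos rfl, h]⟩
        rcases Finset.mem_insert.mp h with h | h
        · exact ⟨(0, 1), by rw [q0, if_neg (by decide), h]⟩
        · obtain ⟨⟨t, s⟩, hz⟩ := (hmem b).mp h
          exact ⟨(t.succ, s), by rw [qs, hz]⟩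
      · rintro ⟨⟨x, s⟩, hz⟩
        induction x using Fin.cases with
        | zero =>
          rw [q0] at hz
          split_ifs at hz
          · rw [← hz]; exact Finset.mem_insert_self _ _
          · rw [← hz]; exact Finset.mem_insert_of_mem (Finset.mem_insert_self _ _)
        | succ x =>
          rw [qs] at hz
          rw [← hz]
          exact Finset.mem_insert_of_mem (Finset.mem_insert_of_mem (hq _))
    · intro v
      show ω i (v a i) (v a' i) * F v = _
      rw [Fin.prod_univ_succ, hv v]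
      have e0 : q' (0, 0) = a := by rw [q0, if_pos rfl]
      have e1 : q' (0, 1) = a' := by rw [q0, if_neg (by decide)]
      rw [e0, e1]
      simp only [qs]
      rfl

end tr

/-! ### From the group to the Lie algebra: the Cayley transform -/

section cay

variable {ℓ : ℕ} [Fact ℓ.Prime]

theorem deriv_sum {𝕜 : Type*} [NontriviallyNormedField 𝕜] [CharZero 𝕜] {k : ℕ}
    (c : Finset (Fin k) → 𝕜)
    (h : ∀ᶠ t in nhds (0 : 𝕜), ∑ S, (t ^ S.card - (-t) ^ S.card) * c S = 0) :
    ∑ a, c {a} = 0 := by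
  have h1 : ∀ m : ℕ, HasDerivAt (fun t : 𝕜 => t ^ m - (-t) ^ m)
      (if m = 1 then 2 else 0) 0 := by
    intro m
    have h2 : HasDerivAt (fun t : 𝕜 => t ^ m) ((m : 𝕜) * 0 ^ (m - 1)) 0 := hasDerivAt_pow m 0
    have h3 : HasDerivAt (fun t : 𝕜 => (-t) ^ m) ((m : 𝕜) * (-0) ^ (m - 1) * (-1)) 0 := by
      have h4 : HasDerivAt (fun t : 𝕜 => -t) (-1) 0 := (hasDerivAt_id (0 : 𝕜)).fun_neg
      exact h4.fun_pow m
    have h5 := h2.fun_sub h3
    have h6 : ((m : 𝕜) * 0 ^ (m - 1) - (m : 𝕜) * (-0) ^ (m - 1) * (-1)) = if m = 1 then 2 else 0 := by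
      rcases m with _ | _ | m
      · simp
      · norm_num
      · simp
    rwa [h6] at h5
  have h6 : HasDerivAt (fun t : 𝕜 => ∑ S, (t ^ S.card - (-t) ^ S.card) * c S)
      (∑ S, (if S.card = 1 then 2 else 0) * c S) 0 :=
    HasDerivAt.fun_sum fun S _ => (h1 S.card).mul_const (c S)
  have h7 : HasDerivAt (fun t : 𝕜 => ∑ S, (t ^ S.card - (-t) ^ S.card) * c S) 0 0 :=
    (hasDerivAt_const (0 : 𝕜) (0 : 𝕜)).congr_of_eventuallyEq h
  have h8 := h6.unique h7
  have h9 : ∑ S : Finset (Fin k), (if S.card = 1 then 2 else 0) * c S = 2 * ∑ a, c {a} := by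
    rw [Finset.mul_sum]
    have h10 : ∑ a : Fin k, 2 * c {a} = ∑ S ∈ (Finset.univ : Finset (Fin k)).map
        ⟨fun a => ({a} : Finset (Fin k)), Finset.singleton_injective⟩,
        (if S.card = 1 then 2 else 0) * c S := by
      rw [Finset.sum_map]
      exact Finset.sum_congr rfl fun a _ => by simp
    rw [h10]
    symm
    refine Finset.sum_subset (Finset.subset_univ _) fun S _ hS => ?_
    rw [if_neg, zero_mul]
    intro h
    obtain ⟨a, ha⟩ := Finset.card_eq_one.mp h
    exact hS (Finset.mem_map.mpr ⟨a, Finset.mem_univ _, ha.symm⟩)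
  rw [h9] at h8
  exact (mul_eq_zero.mp h8).resolve_left two_ne_zero

theorem multi_expand {k : ℕ} {V : Type*} [AddCommGroup V] [Module ℚ_[ℓ] V]
    (f : MultilinearMap ℚ_[ℓ] (fun _ : Fin k => V) ℚ_[ℓ]) (v u : Fin k → V) (t : ℚ_[ℓ]) :
    f (fun a => v a + t • u a) = ∑ S : Finset (Fin k), t ^ S.card * f (S.piecewise u v) := by
  have h1 : (fun a => v a + t • u a) = (fun a => t • u a) + v := by
    funext a; simp [add_comm]
  rw [h1, f.map_add_univ]
  refine Finset.sum_congr rfl fun S _ => ?_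
  have h2 : S.piecewise (fun a => t • u a) v
      = S.piecewise (fun a => (fun _ : Fin k => t) a • (S.piecewise u v) a) (S.piecewise u v) := by
    funext a
    by_cases ha : a ∈ S
    · rw [Finset.piecewise_eq_of_mem _ _ _ ha, Finset.piecewise_eq_of_mem _ _ _ ha,
        Finset.piecewise_eq_of_mem _ _ _ ha]
    · rw [Finset.piecewise_eq_of_notMem _ _ _ ha, Finset.piecewise_eq_of_notMem _ _ _ ha,
        Finset.piecewise_eq_of_notMem _ _ _ ha]
  rw [h2, f.map_piecewise_smul, Finset.prod_const, smul_eq_mul]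

theorem cayley_isom {n : ℕ} (J A : Matrix (Fin n) (Fin n) ℚ_[ℓ]) (hA : Aᵀ * J + J * A = 0)
    (h : (1 - A).det ≠ 0) :
    ((1 + A) * (1 - A)⁻¹)ᵀ * J * ((1 + A) * (1 - A)⁻¹) = J := by
  have hu : IsUnit (1 - A).det := isUnit_iff_ne_zero.mpr h
  have h1 : (1 - A) * (1 - A)⁻¹ = 1 := Matrix.mul_nonsing_inv _ hu
  have h2 : (1 + A)ᵀ * J * (1 + A) = (1 - A)ᵀ * J * (1 - A) := by
    simp only [Matrix.transpose_add, Matrix.transpose_sub, Matrix.transpose_one]
    have h3 : Aᵀ * J = -(J * A) := eq_neg_of_add_eq_zero_left hA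
    have h4 : (1 + Aᵀ) * J * (1 + A) - (1 - Aᵀ) * J * (1 - A) = (Aᵀ * J + J * A) + (Aᵀ * J + J * A) := by
      noncomm_ring
    rw [hA, add_zero] at h4
    exact sub_eq_zero.mp h4
  calc ((1 + A) * (1 - A)⁻¹)ᵀ * J * ((1 + A) * (1 - A)⁻¹)
      = ((1 - A)⁻¹)ᵀ * ((1 + A)ᵀ * J * (1 + A)) * (1 - A)⁻¹ := by
        rw [Matrix.transpose_mul]; simp only [Matrix.mul_assoc]
    _ = ((1 - A) * (1 - A)⁻¹)ᵀ * J * ((1 - A) * (1 - A)⁻¹) := by
        rw [h2, Matrix.transpose_mul]; simp only [Matrix.mul_assoc]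
    _ = J := by rw [h1]; simp

theorem cayley_cont {n : ℕ} (A : Matrix (Fin n) (Fin n) ℚ_[ℓ]) (i j : Fin n) :
    ContinuousAt (fun t : ℚ_[ℓ] => ((1 + t • A) * (1 - t • A)⁻¹ - 1) i j) 0 := by
  have h0 : (1 - (0 : ℚ_[ℓ]) • A).det ≠ 0 := by simp
  have hc : Continuous fun t : ℚ_[ℓ] => 1 - t • A := by fun_prop
  have hinv : ∀ t : ℚ_[ℓ], (1 - t • A)⁻¹ = ((1 - t • A).det)⁻¹ • (1 - t • A).adjugate := by
    intro t
    rw [Matrix.inv_def, Ring.inverse_eq_inv']
  have hci : ContinuousAt (fun t : ℚ_[ℓ] => (1 - t • A)⁻¹) 0 := by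
    have : (fun t : ℚ_[ℓ] => (1 - t • A)⁻¹) = fun t => ((1 - t • A).det)⁻¹ • (1 - t • A).adjugate :=
      funext hinv
    rw [this]
    exact ((hc.matrix_det.continuousAt).inv₀ h0).smul hc.matrix_adjugate.continuousAt
  have hm : ContinuousAt (fun t : ℚ_[ℓ] => (1 + t • A) * (1 - t • A)⁻¹ - 1) 0 := by
    have h1 : ContinuousAt (fun t : ℚ_[ℓ] => 1 + t • A) 0 := by
      have : Continuous fun t : ℚ_[ℓ] => 1 + t • A := by fun_prop
      exact this.continuousAt
    exact (h1.mul hci).sub continuousAt_const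
  exact ((continuous_apply_apply i j).continuousAt (x := _)).comp hm

end cay

end T

open T

/-- block T: the multilinear forms on the direct sum of the spaces that are invariant under all
isometries near `1` are linear combinations of products of the forms `J a` (the set is
`{F | IsPairing J k F}` of `Lib_helper98/LM/Defs`, written out). -/
theorem blockT_set {ℓ : ℕ} [Fact ℓ.Prime] {I : Type} [Fintype I] {n : I → ℕ}
    (J : (a : I) → Matrix (Fin (n a)) (Fin (n a)) ℚ_[ℓ]) (hJ : ∀ a, (J a).det ≠ 0) (k : ℕ)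
    (hJs : ∀ a, (J a)ᵀ = -J a ∨ ((J a)ᵀ = J a ∧ k < n a))
    (f : MultilinearMap ℚ_[ℓ] (fun _ : Fin k => (a : I) → Fin (n a) → ℚ_[ℓ]) ℚ_[ℓ])
    (ε : ℝ) (hε : 0 < ε)
    (hf : ∀ g : (a : I) → Matrix (Fin (n a)) (Fin (n a)) ℚ_[ℓ],
      (∀ a, (g a)ᵀ * J a * g a = J a) → (∀ a i j, ‖(g a - 1) i j‖ < ε) →
      ∀ v, f (fun i a => g a *ᵥ v i a) = f v) :
    (fun v => f v) ∈ Submodule.span ℚ_[ℓ]
      {F : (Fin k → (a : I) → Fin (n a) → ℚ_[ℓ]) → ℚ_[ℓ] |
        ∃ (m : ℕ) (π : Fin m × Fin 2 ≃ Fin k) (c : Fin m → I), ∀ v, F v =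
          ∏ i : Fin m, v (π (i, 0)) (c i) ⬝ᵥ (J (c i) *ᵥ v (π (i, 1)) (c i))} := by
  classical
  let W : I → Type := fun a => Fin (n a) → ℚ_[ℓ]
  let ω : ∀ a, LinearMap.BilinForm ℚ_[ℓ] (W a) := fun a => Matrix.toBilin' (J a)
  have hωa : ∀ a (x y : W a), ω a x y = x ⬝ᵥ (J a *ᵥ y) := fun a x y =>
    Matrix.toBilin'_apply' (J a) x y
  have hω : ∀ a, (ω a).Nondegenerate := fun a =>
    LinearMap.BilinForm.nondegenerate_toBilin'_of_det_ne_zero' (J a) (hJ a)
  let e₀ : I → ℤ := fun a => if (J a)ᵀ = J a ∧ k < n a then 1 else -1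
  have he₀ : ∀ a, e₀ a = 1 ∨ e₀ a = -1 := by
    intro a
    simp only [e₀]
    split_ifs
    · exact Or.inl rfl
    · exact Or.inr rfl
  have hs : ∀ a (v w : W a), ω a v w = (e₀ a : ℚ_[ℓ]) * ω a w v := by
    intro a v w
    rw [hωa, hωa]
    have h1 : w ⬝ᵥ (J a *ᵥ v) = v ⬝ᵥ ((J a)ᵀ *ᵥ w) := by
      rw [Matrix.dotProduct_mulVec, ← Matrix.mulVec_transpose, dotProduct_comm]
    rw [h1]
    simp only [e₀]
    split_ifs with h
    · rw [h.1]; simp
    · have h2 := (hJs a).resolve_right h
      rw [h2, Matrix.neg_mulVec, dotProduct_neg]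
      push_cast
      ring
  have hn : ∀ a, e₀ a = 1 → k < Module.finrank ℚ_[ℓ] (W a) := by
    intro a ha
    simp only [e₀] at ha
    split_ifs at ha with h
    · simp only [W]
      rw [Module.finrank_fin_fun]
      exact h.2
  have hP : PML ℚ_[ℓ] (Finset.univ : Finset (Fin k)) (fun v : Fin k → ∀ a, W a => f v) :=
    ⟨fun a _ v x y => f.map_update_add v a x y, fun a _ v c x => f.map_update_smul v a c x,
      fun a ha => absurd (Finset.mem_univ a) ha⟩
  have hI : Inv ω (Finset.univ : Finset (Fin k)) (fun v : Fin k → ∀ a, W a => f v) := by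
    intro i x hx v
    let A : Matrix (Fin (n i)) (Fin (n i)) ℚ_[ℓ] := LinearMap.toMatrix' x
    have hAx : ∀ y, x y = A *ᵥ y := fun y => by
      rw [← Matrix.toLin'_apply, Matrix.toLin'_toMatrix']
    have hA : Aᵀ * J i + J i * A = 0 := by
      have h1 : ∀ p q : Fin (n i) → ℚ_[ℓ], p ⬝ᵥ ((Aᵀ * J i + J i * A) *ᵥ q) = 0 := by
        intro p q
        have h2 := hx p q
        rw [hωa, hωa, hAx, hAx] at h2
        rw [Matrix.add_mulVec, dotProduct_add, ← Matrix.mulVec_mulVec, ← Matrix.mulVec_mulVec]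
        have h3 : (A *ᵥ p) ⬝ᵥ (J i *ᵥ q) = p ⬝ᵥ (Aᵀ *ᵥ (J i *ᵥ q)) := by
          rw [Matrix.dotProduct_mulVec p, ← Matrix.mulVec_transpose, Matrix.transpose_transpose]
        rw [← h3, h2]
        ring
      ext p q
      have := h1 (Pi.single p 1) (Pi.single q 1)
      simpa using this
    have hAt : ∀ t : ℚ_[ℓ], (t • A)ᵀ * J i + J i * (t • A) = 0 := by
      intro t
      rw [Matrix.transpose_smul, Matrix.smul_mul, Matrix.mul_smul, ← smul_add, hA, smul_zero]
    let u : Fin k → ∀ a, W a := fun a => Pi.single i (x (v a i))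
    have hev : ∀ᶠ t in nhds (0 : ℚ_[ℓ]), (1 - t • A).det ≠ 0 ∧
        ∀ p q, ‖((1 + t • A) * (1 - t • A)⁻¹ - 1) p q‖ < ε := by
      have h1 : ∀ᶠ t in nhds (0 : ℚ_[ℓ]), (1 - t • A).det ≠ 0 := by
        have hc : Continuous fun t : ℚ_[ℓ] => (1 - t • A).det := by
          have : Continuous fun t : ℚ_[ℓ] => 1 - t • A := by fun_prop
          exact this.matrix_det
        exact hc.continuousAt.eventually_ne (by simp)
      have h2 : ∀ p q, ∀ᶠ t in nhds (0 : ℚ_[ℓ]),
          ‖((1 + t • A) * (1 - t • A)⁻¹ - 1) p q‖ < ε := by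
        intro p q
        have h3 := (cayley_cont A p q).norm
        refine h3.eventually_lt_const ?_
        simpa using hε
      have h4 : ∀ᶠ t in nhds (0 : ℚ_[ℓ]), ∀ p q,
          ‖((1 + t • A) * (1 - t • A)⁻¹ - 1) p q‖ < ε :=
        Filter.eventually_all.mpr fun p => Filter.eventually_all.mpr fun q => h2 p q
      exact h1.and h4
    have hkey : ∀ᶠ t in nhds (0 : ℚ_[ℓ]),
        ∑ S : Finset (Fin k), (t ^ S.card - (-t) ^ S.card) * f (S.piecewise u v) = 0 := by
      refine hev.mono fun t ht => ?_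
      have h1 : f (fun a => v a + t • u a) = f (fun a => v a + (-t) • u a) := by
        let C := (1 + t • A) * (1 - t • A)⁻¹
        let g : (a : I) → Matrix (Fin (n a)) (Fin (n a)) ℚ_[ℓ] := Function.update (fun _ => 1) i C
        have hgi : g i = C := Function.update_self _ _ _
        have hgo : ∀ a, a ≠ i → g a = 1 := fun a ha => Function.update_of_ne ha _ _
        have h2 := hf g ?_ ?_ (fun a => v a + (-t) • u a)
        · rw [← h2]
          congr 1
          funext a b
          by_cases hb : b = i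
          · subst hb
            rw [hgi]
            simp only [Pi.add_apply, Pi.smul_apply, u, Pi.single_eq_same]
            rw [hAx]
            have h3 : v a b + (-t) • (A *ᵥ v a b) = (1 - t • A) *ᵥ v a b := by
              rw [Matrix.sub_mulVec, Matrix.one_mulVec, Matrix.smul_mulVec, neg_smul, sub_eq_add_neg]
            have h4 : v a b + t • (A *ᵥ v a b) = (1 + t • A) *ᵥ v a b := by
              rw [Matrix.add_mulVec, Matrix.one_mulVec, Matrix.smul_mulVec]
            rw [h3, h4, Matrix.mulVec_mulVec]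
            congr 1
            have hu : IsUnit (1 - t • A).det := isUnit_iff_ne_zero.mpr ht.1
            show _ = (1 + t • A) * (1 - t • A)⁻¹ * (1 - t • A)
            rw [Matrix.mul_assoc, Matrix.nonsing_inv_mul _ hu, Matrix.mul_one]
          · rw [hgo b hb, Matrix.one_mulVec]
            simp only [Pi.add_apply, Pi.smul_apply, u, Pi.single_eq_of_ne hb, smul_zero]
        · intro a
          by_cases ha : a = i
          · subst ha
            rw [hgi]
            exact cayley_isom (J a) (t • A) (hAt t) ht.1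
          · rw [hgo a ha]; simp
        · intro a p q
          by_cases ha : a = i
          · subst ha
            rw [hgi]
            exact ht.2 p q
          · rw [hgo a ha]; simpa using hε
      rw [multi_expand, multi_expand] at h1
      simp only [sub_mul, Finset.sum_sub_distrib]
      rw [h1, sub_self]
    have h := deriv_sum (fun S => f (S.piecewise u v)) hkey
    simp only [Finset.piecewise_singleton] at h
    exact h
  have hS := fft hω e₀ he₀ hs k hn Finset.univ (by simp) _ hP hI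
  unfold S at hS
  refine Submodule.span_mono ?_ hS
  intro F hF
  obtain ⟨m, q, c, hinj, hmem, hv⟩ := Pairing.explicit hF
  refine ⟨m, Equiv.ofBijective q ⟨hinj, fun a => (hmem a).mp (Finset.mem_univ a)⟩, c, fun v => ?_⟩
  rw [hv v]
  exact Finset.prod_congr rfl fun t _ => hωa _ _ _

end Pool.Agent.LM
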