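import Pool.Agent.Lib_helper51.LM.BlockT

set_option autoImplicit false
set_option linter.unusedSectionVars false

open scoped Matrix

namespace Pool.Agent.LM

namespace T

open Module Finset

section semi

variable {K : Type*} [Field K] [CharZero K]

section one

variable {V : Type*} [AddCommGroup V] [Module K V] [FiniteDimensional K V]

theorem elt_add_left (ω : LinearMap.BilinForm K V) (c : K) (u u' w : V) :
    elt ω c (u + u') w = elt ω c u w + elt ω c u' w := by
  ext x
  simp only [elt_apply, LinearMap.add_apply, map_add, add_smul, smul_add]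
  abel

theorem elt_smul_left (ω : LinearMap.BilinForm K V) (c a : K) (u w : V) :
    elt ω c (a • u) w = a • elt ω c u w := by
  ext x
  simp only [elt_apply, LinearMap.smul_apply, map_smul, smul_sub, smul_smul, smul_eq_mul]
  congr 2
  ring

theorem elt_swap (ω : LinearMap.BilinForm K V) {c : K} (hc : c * c = 1) (u w : V) :
    elt ω c w u = -c • elt ω c u w := by
  ext x
  simp only [elt_apply, LinearMap.smul_apply, smul_sub, smul_smul]
  have h1 : -c * (c * ω w x) = -(ω w x) := by linear_combination (-(ω w x)) * hc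
  rw [h1, neg_mul, neg_smul, neg_smul]
  abel

theorem elt_brk (ω : LinearMap.BilinForm K V) (c : K) {x : Module.End K V} (hx : Sk ω x) (u w : V) :
    x * elt ω c u w - elt ω c u w * x = elt ω c (x u) w + elt ω c u (x w) := by
  ext y
  simp only [elt_apply, LinearMap.sub_apply, LinearMap.add_apply, Module.End.mul_apply, map_sub, map_smul,
    hx u y, hx w y, mul_neg, neg_smul]
  abel

/-- An invariant form `b(u,w) = φ(elt u w)` is zero. -/
theorem form_zero (ω : LinearMap.BilinForm K V) (hω : ω.Nondegenerate) {c : K} (hc : c * c = 1)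
    (hs : ∀ v w, ω v w = c * ω w v) (hd : (finrank K V : K) ≠ 2 * c)
    (φ : Module.End K V →ₗ[K] K)
    (hφ : ∀ x y, Sk ω x → Sk ω y → φ (x * y - y * x) = 0) (u w : V) : φ (elt ω c u w) = 0 := by
  let b : V → V → K := fun u w => φ (elt ω c u w)
  have hsw : ∀ u w, b w u = -c * b u w := fun u w => by
    simp only [b]; rw [elt_swap ω hc, map_smul, smul_eq_mul]
  have hl : ∀ u u' w, b (u + u') w = b u w + b u' w := fun u u' w => by
    simp only [b]; rw [elt_add_left, map_add]
  have hsl : ∀ (a : K) u w, b (a • u) w = a * b u w := fun a u w => by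
    simp only [b]; rw [elt_smul_left, map_smul, smul_eq_mul]
  let L : V → V →ₗ[K] K := fun w =>
    { toFun := fun u => b u w, map_add' := fun u u' => hl u u' w, map_smul' := fun a u => hsl a u w }
  have hsumL : ∀ {J : Type} [Fintype J] (a : J → K) (x : J → V) (w : V),
      ∑ j, a j * b (x j) w = b (∑ j, a j • x j) w := by
    intro J _ a x w
    show _ = L w (∑ j, a j • x j)
    rw [map_sum]
    refine Finset.sum_congr rfl fun j _ => ?_
    rw [map_smul]; rfl
  have hinv : ∀ x, Sk ω x → ∀ u w, b (x u) w + b u (x w) = 0 := by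
    intro x hx u w
    simp only [b]
    rw [← map_add, ← elt_brk ω c hx]
    exact hφ _ _ hx (sk_elt hc hs u w)
  obtain ⟨e, he⟩ : ∃ e, e = Module.finBasis K V := ⟨_, rfl⟩
  obtain ⟨e', he'⟩ : ∃ e', e' = ω.dualBasis hω (Module.finBasis K V) := ⟨_, rfl⟩
  have hde : ∀ s, ω (e' s) (e s) = 1 := by
    intro b; rw [he, he', dual_pair, if_pos rfl]
  have s1 : ∀ y, ∑ s, ω y (e s) • e' s = y := by
    intro y; rw [he, he']; exact dual_sum1 ω hω y
  have s2 : ∀ y, ∑ s, ω (e' s) y • e s = y := by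
    intro y; rw [he, he']; exact dual_sum2 ω hω y
  obtain ⟨τ, hτ⟩ : ∃ τ, τ = ∑ s, b (e s) (e' s) := ⟨_, rfl⟩
  have key : ∀ p w, ((finrank K V : K) - 2 * c) * b p w = c * τ * ω p w := by
    intro p w
    have h1 : ∀ s, b (elt ω c (e' s) p (e s)) w + b (e s) (elt ω c (e' s) p w) = 0 := fun s =>
      hinv _ (sk_elt hc hs _ _) _ _
    have h2 : ∀ s, b (elt ω c (e' s) p (e s)) w = b p w - c * (ω p (e s) * b (e' s) w) := by
      intro s
      rw [elt_apply, hde, one_smul, sub_eq_add_neg, hl, ← neg_smul, hsl]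
      ring
    have h3 : ∀ s, b (e s) (elt ω c (e' s) p w)
        = (ω (e' s) w * b (e s) p) - c * ω p w * b (e s) (e' s) := by
      intro s
      have h4 : b (e s) (elt ω c (e' s) p w) = -c * b (elt ω c (e' s) p w) (e s) := hsw _ _
      rw [h4, elt_apply, sub_eq_add_neg, hl, ← neg_smul, hsl, hsl, hsw (e s) p, hsw (e s) (e' s)]
      linear_combination (ω (e' s) w * b (e s) p - c * ω p w * b (e s) (e' s)) * hc
    have h5 : ∑ s, ((b p w - c * (ω p (e s) * b (e' s) w))
        + ((ω (e' s) w * b (e s) p) - c * ω p w * b (e s) (e' s))) = 0 := by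
      refine Finset.sum_eq_zero fun s _ => ?_
      rw [← h2, ← h3]; exact h1 s
    rw [Finset.sum_add_distrib, Finset.sum_sub_distrib, Finset.sum_sub_distrib, Finset.sum_const,
      nsmul_eq_mul, Finset.card_univ, Fintype.card_fin, ← Finset.mul_sum, ← Finset.mul_sum, ← hτ,
      hsumL, hsumL, s1, s2, hsw p w] at h5
    linear_combination h5
  have hne : (finrank K V : K) - 2 * c ≠ 0 := sub_ne_zero.mpr hd
  have hc0 : c ≠ 0 := by
    rintro rfl
    simp at hc
  have h1 := key u w
  have h2 := key w u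
  rw [hsw u w] at h2
  rw [hs w u] at h2
  have h3 : ((finrank K V : K) - 2 * c) * b u w * 2 = 0 := by
    linear_combination h1 - c * h2 + (-(((finrank K V : K) - 2 * c) * b u w) - c * τ * ω u w) * hc
  have h4 := (mul_eq_zero.mp h3).resolve_right two_ne_zero
  exact (mul_eq_zero.mp h4).resolve_left hne

/-- A skew operator is a combination of elementary ones. -/
theorem sk_sum (ω : LinearMap.BilinForm K V) (hω : ω.Nondegenerate) {c : K} (hc : c * c = 1)
    (hs : ∀ v w, ω v w = c * ω w v) {x : Module.End K V} (hx : Sk ω x) :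
    (2 : K) • x = ∑ s, elt ω c (ω.dualBasis hω (Module.finBasis K V) s) (x (Module.finBasis K V s)) := by
  ext y
  rw [LinearMap.sum_apply]
  simp only [elt_apply, LinearMap.smul_apply]
  rw [Finset.sum_sub_distrib]
  have h1 : ∑ s, ω (ω.dualBasis hω (Module.finBasis K V) s) y • x (Module.finBasis K V s) = x y := by
    conv_rhs => rw [← dual_sum2 ω hω y]
    rw [map_sum]
    simp only [map_smul]
  have h2 : ∑ s, (c * ω (x (Module.finBasis K V s)) y) • ω.dualBasis hω (Module.finBasis K V) s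
      = - x y := by
    have h3 : ∀ s, c * ω (x (Module.finBasis K V s)) y = ω (-(x y)) (Module.finBasis K V s) := by
      intro s
      rw [hx, hs (Module.finBasis K V s) (x y)]
      simp only [map_neg, LinearMap.neg_apply]
      linear_combination (-(ω (x y) (Module.finBasis K V s))) * hc
    simp only [h3]
    exact dual_sum1 ω hω _
  rw [h1, h2, sub_neg_eq_add, two_smul]

end one

variable {ι : Type*} [Fintype ι] [DecidableEq ι] {W : ι → Type*} [∀ i, AddCommGroup (W i)]
  [∀ i, Module K (W i)] [∀ i, FiniteDimensional K (W i)]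
variable {A : Type*} [Fintype A] [DecidableEq A]
variable {ω : ∀ i, LinearMap.BilinForm K (W i)}

/-- The action of an endomorphism of one factor on functions. -/
def Dop (P : Finset A) (i : ι) (x : Module.End K (W i)) (f : (A → ∀ i, W i) → K) :
    (A → ∀ i, W i) → K := fun v => ∑ a ∈ P, f (Function.update v a (Pi.single i (x (v a i))))

theorem Dop_smul (P : Finset A) (i : ι) (x : Module.End K (W i)) (c : K) (f : (A → ∀ i, W i) → K)
    (v : A → ∀ i, W i) : Dop P i x (c • f) v = c * Dop P i x f v := by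
  unfold Dop
  simp only [Pi.smul_apply, smul_eq_mul, Finset.mul_sum]

theorem Dop_Dop {P : Finset A} (i : ι) (x y : Module.End K (W i)) (f : (A → ∀ i, W i) → K)
    (v : A → ∀ i, W i) : Dop P i x (Dop P i y f) v
      = ∑ a ∈ P, f (Function.update v a (Pi.single i (y (x (v a i)))))
        + ∑ a ∈ P, ∑ b ∈ P.erase a, f (Function.update (Function.update v a
          (Pi.single i (x (v a i)))) b (Pi.single i (y (v b i)))) := by
  unfold Dop
  rw [← Finset.sum_add_distrib]
  refine Finset.sum_congr rfl fun a ha => ?_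
  rw [← Finset.add_sum_erase P _ ha]
  congr 1
  · rw [Function.update_idem, Function.update_self, Pi.single_eq_same]
  · refine Finset.sum_congr rfl fun b hb => ?_
    rw [Function.update_of_ne (Finset.mem_erase.mp hb).1]

theorem Dop_comm {P : Finset A} {f : (A → ∀ i, W i) → K} (hf : PML K P f) (i : ι)
    (x y : Module.End K (W i)) (v : A → ∀ i, W i) :
    Dop P i x (Dop P i y f) v - Dop P i y (Dop P i x f) v = Dop P i (y * x - x * y) f v := by
  rw [Dop_Dop, Dop_Dop]
  have h1 : ∑ a ∈ P, ∑ b ∈ P.erase a, f (Function.update (Function.update v a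
          (Pi.single i (x (v a i)))) b (Pi.single i (y (v b i))))
      = ∑ a ∈ P, ∑ b ∈ P.erase a, f (Function.update (Function.update v a
          (Pi.single i (y (v a i)))) b (Pi.single i (x (v b i)))) := by
    rw [Finset.sum_comm' (s := P) (t := fun a => P.erase a) (t' := P) (s' := fun b => P.erase b)]
    · refine Finset.sum_congr rfl fun b hb => Finset.sum_congr rfl fun a ha => ?_
      rw [Function.update_comm (Finset.mem_erase.mp ha).1]
    · intro a b
      simp only [Finset.mem_erase]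
      tauto
  rw [h1, add_sub_add_right_eq_sub, ← Finset.sum_sub_distrib]
  unfold Dop
  refine Finset.sum_congr rfl fun a ha => ?_
  rw [← hf.lin_apply ha, ← hf.lin_apply ha, ← hf.lin_apply ha, ← map_sub, ← Pi.single_sub]
  rfl

theorem Dop_add {P : Finset A} {f : (A → ∀ i, W i) → K} (hf : PML K P f) (i : ι)
    (x y : Module.End K (W i)) (v : A → ∀ i, W i) :
    Dop P i (x + y) f v = Dop P i x f v + Dop P i y f v := by
  unfold Dop
  rw [← Finset.sum_add_distrib]
  refine Finset.sum_congr rfl fun a ha => ?_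
  rw [← hf.lin_apply ha, ← hf.lin_apply ha, ← hf.lin_apply ha, ← map_add, ← Pi.single_add]
  rfl

theorem Dop_smul' {P : Finset A} {f : (A → ∀ i, W i) → K} (hf : PML K P f) (i : ι) (c : K)
    (x : Module.End K (W i)) (v : A → ∀ i, W i) :
    Dop P i (c • x) f v = c * Dop P i x f v := by
  unfold Dop
  rw [Finset.mul_sum]
  refine Finset.sum_congr rfl fun a ha => ?_
  rw [← hf.lin_apply ha, ← hf.lin_apply ha, ← smul_eq_mul, ← map_smul, ← Pi.single_smul]
  rfl

/-- A form multiplied by scalars by the Lie algebras is invariant. -/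
theorem semi_inv (hω : ∀ i, (ω i).Nondegenerate) (c : ι → K) (hc : ∀ i, c i * c i = 1)
    (hs : ∀ i v w, ω i v w = c i * ω i w v) (hd : ∀ i, (finrank K (W i) : K) ≠ 2 * c i)
    {P : Finset A} {f : (A → ∀ i, W i) → K} (hf : PML K P f)
    (hsemi : ∀ i x, Sk (ω i) x → ∀ v v₀, Dop P i x f v * f v₀ = f v * Dop P i x f v₀) :
    Inv ω P f := by
  by_cases h0 : ∃ v₀, f v₀ ≠ 0
  swap
  · push Not at h0
    intro i x hx v
    exact Finset.sum_eq_zero fun a _ => h0 _
  obtain ⟨v₀, hv₀⟩ := h0
  intro i x hx v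
  let φ : Module.End K (W i) →ₗ[K] K :=
    { toFun := fun x => Dop P i x f v₀
      map_add' := fun x y => Dop_add hf i x y v₀
      map_smul' := fun c x => Dop_smul' hf i c x v₀ }
  have hD : ∀ y, Sk (ω i) y → Dop P i y f = (φ y / f v₀) • f := by
    intro y hy
    funext v
    rw [Pi.smul_apply, smul_eq_mul, div_mul_eq_mul_div, eq_div_iff hv₀, hsemi i y hy v v₀, mul_comm]
    rfl
  have hφ : ∀ x y, Sk (ω i) x → Sk (ω i) y → φ (x * y - y * x) = 0 := by
    intro x y hx hy
    show Dop P i (x * y - y * x) f v₀ = 0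
    rw [← Dop_comm hf, hD x hx, hD y hy, Dop_smul, Dop_smul, hD x hx, hD y hy]
    simp only [Pi.smul_apply, smul_eq_mul]
    ring
  have h1 := form_zero (ω i) (hω i) (hc i) (hs i) (hd i) φ hφ
  have h2 : φ x = 0 := by
    have h3 := congrArg φ (sk_sum (ω i) (hω i) (hc i) (hs i) hx)
    rw [map_smul, map_sum, Finset.sum_eq_zero (fun s _ => h1 _ _), smul_eq_mul] at h3
    exact (mul_eq_zero.mp h3).resolve_left two_ne_zero
  have h3 := hD x hx
  rw [h2, zero_div, zero_smul] at h3
  exact congrFun h3 v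

end semi

theorem deriv_one {𝕜 : Type*} [NontriviallyNormedField 𝕜] {k : ℕ} (c : Finset (Fin k) → 𝕜) :
    HasDerivAt (fun t : 𝕜 => ∑ S, t ^ S.card * c S) (∑ a, c {a}) 0 := by
  have h1 : ∀ m : ℕ, HasDerivAt (fun t : 𝕜 => t ^ m) (if m = 1 then 1 else 0) 0 := by
    intro m
    have h2 : HasDerivAt (fun t : 𝕜 => t ^ m) ((m : 𝕜) * 0 ^ (m - 1)) 0 := hasDerivAt_pow m 0
    have h6 : ((m : 𝕜) * 0 ^ (m - 1)) = if m = 1 then 1 else 0 := by
      rcases m with _ | _ | m
      · simp
      · norm_num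
      · simp
    rwa [h6] at h2
  have h6 : HasDerivAt (fun t : 𝕜 => ∑ S, t ^ S.card * c S)
      (∑ S, (if S.card = 1 then 1 else 0) * c S) 0 :=
    HasDerivAt.fun_sum fun S _ => (h1 S.card).mul_const (c S)
  have h9 : ∑ S : Finset (Fin k), (if S.card = 1 then 1 else 0) * c S = ∑ a, c {a} := by
    have h10 : ∑ a : Fin k, c {a} = ∑ S ∈ (Finset.univ : Finset (Fin k)).map
        ⟨fun a => ({a} : Finset (Fin k)), Finset.singleton_injective⟩,
        (if S.card = 1 then 1 else 0) * c S := by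
      rw [Finset.sum_map]
      exact Finset.sum_congr rfl fun a _ => by simp
    rw [h10]
    symm
    refine Finset.sum_subset (Finset.subset_univ _) fun S _ hS => ?_
    rw [if_neg, zero_mul]
    intro h
    obtain ⟨a, ha⟩ := Finset.card_eq_one.mp h
    exact hS (Finset.mem_map.mpr ⟨a, Finset.mem_univ _, ha.symm⟩)
  rwa [h9] at h6

theorem deriv_two {𝕜 : Type*} [NontriviallyNormedField 𝕜] [CharZero 𝕜] {k : ℕ}
    (c d : Finset (Fin k) → 𝕜)
    (h : ∀ᶠ t in nhds (0 : 𝕜), (∑ S, t ^ S.card * c S) * (∑ S, (-t) ^ S.card * d S)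
      - (∑ S, (-t) ^ S.card * c S) * (∑ S, t ^ S.card * d S) = 0) :
    (∑ a, c {a}) * d ∅ = c ∅ * ∑ a, d {a} := by
  have h0 : ∀ c : Finset (Fin k) → 𝕜, ∑ S : Finset (Fin k), (0 : 𝕜) ^ S.card * c S = c ∅ := by
    intro c
    rw [Finset.sum_eq_single ∅]
    · simp
    · intro S _ hS
      rw [zero_pow (Finset.card_ne_zero.mpr (Finset.nonempty_iff_ne_empty.mpr hS)), zero_mul]
    · intro h; exact absurd (Finset.mem_univ _) h
  have hneg : ∀ c : Finset (Fin k) → 𝕜,
      HasDerivAt (fun t : 𝕜 => ∑ S, (-t) ^ S.card * c S) (-∑ a, c {a}) 0 := by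
    intro c
    have h1 : HasDerivAt (fun t : 𝕜 => ∑ S, t ^ S.card * c S) (∑ a, c {a}) (-(0 : 𝕜)) := by
      rw [neg_zero]; exact deriv_one c
    have h2 : HasDerivAt (fun t : 𝕜 => -t) (-1) 0 := (hasDerivAt_id (0 : 𝕜)).fun_neg
    have h3 := h1.comp (0 : 𝕜) h2
    rw [mul_neg, mul_one] at h3
    exact h3
  have h1 := ((deriv_one c).fun_mul (hneg d)).fun_sub ((hneg c).fun_mul (deriv_one d))
  have h7 : HasDerivAt (fun t : 𝕜 => (∑ S, t ^ S.card * c S) * (∑ S, (-t) ^ S.card * d S)
      - (∑ S, (-t) ^ S.card * c S) * (∑ S, t ^ S.card * d S)) 0 0 :=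
    (hasDerivAt_const (0 : 𝕜) (0 : 𝕜)).congr_of_eventuallyEq h
  have h8 := h1.unique h7
  simp only [neg_zero, h0] at h8
  have h9 : (2 : 𝕜) * ((∑ a, c {a}) * d ∅ - c ∅ * ∑ a, d {a}) = 0 := by
    linear_combination h8
  exact sub_eq_zero.mp ((mul_eq_zero.mp h9).resolve_left two_ne_zero)

end T

open T

/-- the same for forms which the isometries near `1` multiply by scalars (symmetric forms of rank
`2` are excluded). -/
theorem blockT_semi {ℓ : ℕ} [Fact ℓ.Prime] {I : Type} [Fintype I] {n : I → ℕ}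
    (J : (a : I) → Matrix (Fin (n a)) (Fin (n a)) ℚ_[ℓ]) (hJ : ∀ a, (J a).det ≠ 0) (k : ℕ)
    (hJs : ∀ a, (J a)ᵀ = -J a ∨ ((J a)ᵀ = J a ∧ k < n a ∧ n a ≠ 2))
    (f : MultilinearMap ℚ_[ℓ] (fun _ : Fin k => (a : I) → Fin (n a) → ℚ_[ℓ]) ℚ_[ℓ])
    (ε : ℝ) (hε : 0 < ε)
    (hf : ∀ g : (a : I) → Matrix (Fin (n a)) (Fin (n a)) ℚ_[ℓ],
      (∀ a, (g a)ᵀ * J a * g a = J a) → (∀ a i j, ‖(g a - 1) i j‖ < ε) →
      ∃ c : ℚ_[ℓ], ∀ v, f (fun i a => g a *ᵥ v i a) = c * f v) :
    (fun v => f v) ∈ Submodule.span ℚ_[ℓ]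
      {F : (Fin k → (a : I) → Fin (n a) → ℚ_[ℓ]) → ℚ_[ℓ] |
        ∃ (m : ℕ) (π : Fin m × Fin 2 ≃ Fin k) (c : Fin m → I), ∀ v, F v =
          ∏ i : Fin m, v (π (i, 0)) (c i) ⬝ᵥ (J (c i) *ᵥ v (π (i, 1)) (c i))} := by
  classical
  let W : I → Type := fun a => Fin (n a) → ℚ_[ℓ]
  let ω : ∀ a, LinearMap.BilinForm ℚ_[ℓ] (W a) := fun a => Matrix.toBilin' (J a)
  have hωa : ∀ a (x y : W a), ω a x y = x ⬝ᵥ (J a *ᵥ y) := fun a x y =>
    Matrix.toBilin'_apply' (J a) x y
  have hω : ∀ a, (ω a).Nondegenerate := fun a =>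
    LinearMap.BilinForm.nondegenerate_toBilin'_of_det_ne_zero' (J a) (hJ a)
  let e₀ : I → ℤ := fun a => if (J a)ᵀ = J a ∧ k < n a ∧ n a ≠ 2 then 1 else -1
  have he₀ : ∀ a, e₀ a = 1 ∨ e₀ a = -1 := by
    intro a
    simp only [e₀]
    split_ifs
    · exact Or.inl rfl
    · exact Or.inr rfl
  have hs : ∀ a (v w : W a), ω a v w = (e₀ a : ℚ_[ℓ]) * ω a w v := by
    intro a v w
    rw [hωa, hωa]
    have h1 : w ⬝ᵥ (J a *ᵥ v) = v ⬝ᵥ ((J a)ᵀ *ᵥ w) := by
      rw [Matrix.dotProduct_mulVec, ← Matrix.mulVec_transpose, dotProduct_comm]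
    rw [h1]
    simp only [e₀]
    split_ifs with h
    · rw [h.1]; simp
    · have h2 := (hJs a).resolve_right h
      rw [h2, Matrix.neg_mulVec, dotProduct_neg]
      push_cast
      ring
  have hn : ∀ a, e₀ a = 1 → k < Module.finrank ℚ_[ℓ] (W a) := by
    intro a ha
    simp only [e₀] at ha
    split_ifs at ha with h
    · simp only [W]
      rw [Module.finrank_fin_fun]
      exact h.2.1
  have hP : PML ℚ_[ℓ] (Finset.univ : Finset (Fin k)) (fun v : Fin k → ∀ a, W a => f v) :=
    ⟨fun a _ v x y => f.map_update_add v a x y, fun a _ v c x => f.map_update_smul v a c x,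
      fun a ha => absurd (Finset.mem_univ a) ha⟩
  have hcc : ∀ a, (e₀ a : ℚ_[ℓ]) * (e₀ a : ℚ_[ℓ]) = 1 := fun a => by
    rcases he₀ a with h | h <;> rw [h] <;> norm_num
  have hd : ∀ a, (Module.finrank ℚ_[ℓ] (W a) : ℚ_[ℓ]) ≠ 2 * (e₀ a : ℚ_[ℓ]) := by
    intro a
    have hfr : Module.finrank ℚ_[ℓ] (W a) = n a := by
      simp only [W]; rw [Module.finrank_fin_fun]
    rw [hfr]
    simp only [e₀]
    split_ifs with h
    · intro h2
      have h3 : ((n a : ℕ) : ℚ_[ℓ]) = ((2 : ℕ) : ℚ_[ℓ]) := by rw [h2]; norm_num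
      exact h.2.2 (Nat.cast_injective h3)
    · intro h2
      have h3 : ((n a + 2 : ℕ) : ℚ_[ℓ]) = 0 := by
        push_cast
        rw [h2]; push_cast; ring
      have h4 : n a + 2 = 0 := Nat.cast_injective (by rw [h3, Nat.cast_zero])
      omega
  have hI : Inv ω (Finset.univ : Finset (Fin k)) (fun v : Fin k → ∀ a, W a => f v) := by
    refine semi_inv hω (fun a => (e₀ a : ℚ_[ℓ])) hcc hs hd hP ?_
    intro i x hx v v₀
    let A : Matrix (Fin (n i)) (Fin (n i)) ℚ_[ℓ] := LinearMap.toMatrix' x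
    have hAx : ∀ y, x y = A *ᵥ y := fun y => by
      rw [← Matrix.toLin'_apply, Matrix.toLin'_toMatrix']
    have hA : Aᵀ * J i + J i * A = 0 := by
      have h1 : ∀ p q : Fin (n i) → ℚ_[ℓ], p ⬝ᵥ ((Aᵀ * J i + J i * A) *ᵥ q) = 0 := by
        intro p q
        have h2 := hx p q
        rw [hωa, hωa, hAx, hAx] at h2
        rw [Matrix.add_mulVec, dotProduct_add, ← Matrix.mulVec_mulVec, ← Matrix.mulVec_mulVec]
        have h3 : (A *ᵥ p) ⬝ᵥ (J i *ᵥ q) = p ⬝ᵥ (Aᵀ *ᵥ (J i *ᵥ q)) := by
          rw [Matrix.dotProduct_mulVec p, ← Matrix.mulVec_transpose, Matrix.transpose_transpose]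
        rw [← h3, h2]
        ring
      ext p q
      have := h1 (Pi.single p 1) (Pi.single q 1)
      simpa using this
    have hAt : ∀ t : ℚ_[ℓ], (t • A)ᵀ * J i + J i * (t • A) = 0 := by
      intro t
      rw [Matrix.transpose_smul, Matrix.smul_mul, Matrix.mul_smul, ← smul_add, hA, smul_zero]
    let U : (Fin k → ∀ a, W a) → Fin k → ∀ a, W a := fun v a => Pi.single i (x (v a i))
    have hev : ∀ᶠ t in nhds (0 : ℚ_[ℓ]), (1 - t • A).det ≠ 0 ∧
        ∀ p q, ‖((1 + t • A) * (1 - t • A)⁻¹ - 1) p q‖ < ε := by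
      have h1 : ∀ᶠ t in nhds (0 : ℚ_[ℓ]), (1 - t • A).det ≠ 0 := by
        have hc : Continuous fun t : ℚ_[ℓ] => (1 - t • A).det := by
          have : Continuous fun t : ℚ_[ℓ] => 1 - t • A := by fun_prop
          exact this.matrix_det
        exact hc.continuousAt.eventually_ne (by simp)
      have h2 : ∀ p q, ∀ᶠ t in nhds (0 : ℚ_[ℓ]),
          ‖((1 + t • A) * (1 - t • A)⁻¹ - 1) p q‖ < ε := by
        intro p q
        have h3 := (cayley_cont A p q).norm
        refine h3.eventually_lt_const ?_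
        simpa using hε
      have h4 : ∀ᶠ t in nhds (0 : ℚ_[ℓ]), ∀ p q,
          ‖((1 + t • A) * (1 - t • A)⁻¹ - 1) p q‖ < ε :=
        Filter.eventually_all.mpr fun p => Filter.eventually_all.mpr fun q => h2 p q
      exact h1.and h4
    have hkey : ∀ᶠ t in nhds (0 : ℚ_[ℓ]),
        (∑ S : Finset (Fin k), t ^ S.card * f (S.piecewise (U v) v))
          * (∑ S : Finset (Fin k), (-t) ^ S.card * f (S.piecewise (U v₀) v₀))
        - (∑ S : Finset (Fin k), (-t) ^ S.card * f (S.piecewise (U v) v))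
          * (∑ S : Finset (Fin k), t ^ S.card * f (S.piecewise (U v₀) v₀)) = 0 := by
      refine hev.mono fun t ht => ?_
      obtain ⟨c, h1⟩ : ∃ c : ℚ_[ℓ], ∀ v : Fin k → ∀ a, W a,
          f (fun a => v a + t • U v a) = c * f (fun a => v a + (-t) • U v a) := by
        let C := (1 + t • A) * (1 - t • A)⁻¹
        let g : (a : I) → Matrix (Fin (n a)) (Fin (n a)) ℚ_[ℓ] := Function.update (fun _ => 1) i C
        have hgi : g i = C := Function.update_self _ _ _
        have hgo : ∀ a, a ≠ i → g a = 1 := fun a ha => Function.update_of_ne ha _ _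
        have hg1 : ∀ a, (g a)ᵀ * J a * g a = J a := by
          intro a
          by_cases ha : a = i
          · subst ha
            rw [hgi]
            exact cayley_isom (J a) (t • A) (hAt t) ht.1
          · rw [hgo a ha]; simp
        have hg2 : ∀ a p q, ‖(g a - 1) p q‖ < ε := by
          intro a p q
          by_cases ha : a = i
          · subst ha
            rw [hgi]
            exact ht.2 p q
          · rw [hgo a ha]; simpa using hε
        obtain ⟨c, h2⟩ := hf g hg1 hg2
        refine ⟨c, fun v => ?_⟩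
        rw [← h2 (fun a => v a + (-t) • U v a)]
        congr 1
        funext a b
        by_cases hb : b = i
        · subst hb
          rw [hgi]
          simp only [Pi.add_apply, Pi.smul_apply, U, Pi.single_eq_same]
          rw [hAx]
          have h3 : v a b + (-t) • (A *ᵥ v a b) = (1 - t • A) *ᵥ v a b := by
            rw [Matrix.sub_mulVec, Matrix.one_mulVec, Matrix.smul_mulVec, neg_smul, sub_eq_add_neg]
          have h4 : v a b + t • (A *ᵥ v a b) = (1 + t • A) *ᵥ v a b := by
            rw [Matrix.add_mulVec, Matrix.one_mulVec, Matrix.smul_mulVec]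
          rw [h3, h4, Matrix.mulVec_mulVec]
          congr 1
          have hu : IsUnit (1 - t • A).det := isUnit_iff_ne_zero.mpr ht.1
          show _ = (1 + t • A) * (1 - t • A)⁻¹ * (1 - t • A)
          rw [Matrix.mul_assoc, Matrix.nonsing_inv_mul _ hu, Matrix.mul_one]
        · rw [hgo b hb, Matrix.one_mulVec]
          simp only [Pi.add_apply, Pi.smul_apply, U, Pi.single_eq_of_ne hb, smul_zero]
      rw [← multi_expand, ← multi_expand, ← multi_expand, ← multi_expand, h1 v, h1 v₀]
      ring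
    have h := deriv_two (fun S => f (S.piecewise (U v) v)) (fun S => f (S.piecewise (U v₀) v₀)) hkey
    simp only [Finset.piecewise_singleton, Finset.piecewise_empty] at h
    exact h
  have hS := fft hω e₀ he₀ hs k hn Finset.univ (by simp) _ hP hI
  unfold S at hS
  refine Submodule.span_mono ?_ hS
  intro F hF
  obtain ⟨m, q, c, hinj, hmem, hv⟩ := Pairing.explicit hF
  refine ⟨m, Equiv.ofBijective q ⟨hinj, fun a => (hmem a).mp (Finset.mem_univ a)⟩, c, fun v => ?_⟩
  rw [hv v]
  exact Finset.prod_congr rfl fun t _ => hωa _ _ _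

end Pool.Agent.LM
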