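import Mathlib

set_option autoImplicit false

open scoped Topology

namespace Pool.Agent.LM

section core

variable {𝕜 : Type*} [NontriviallyNormedField 𝕜] [CompleteSpace 𝕜]
variable {A : Type*} [NormedRing A] [NormedAlgebra 𝕜 A]

omit [CompleteSpace 𝕜] in
/-- strict derivative at `0` of a product of curves through `1`. -/
theorem hasStrict_prod {ι : Type*} [Fintype ι] (E : ι → 𝕜 → A) (a : ι → A)
    (h0 : ∀ i, E i 0 = 1) (h : ∀ i, HasStrictDerivAt (E i) (a i) 0) (l : List ι) :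
    (l.map fun i => E i ((0 : ι → 𝕜) i)).prod = 1 ∧
    HasStrictFDerivAt (fun t : ι → 𝕜 => (l.map fun i => E i (t i)).prod)
      (l.map fun i => (ContinuousLinearMap.proj (R := 𝕜) (φ := fun _ : ι => 𝕜) i).smulRight
        (a i)).sum (0 : ι → 𝕜) := by
  induction l with
  | nil =>
    refine ⟨by simp, ?_⟩
    simpa using hasStrictFDerivAt_const (𝕜 := 𝕜) (1 : A) (0 : ι → 𝕜)
  | cons i l ih =>
    obtain ⟨ih1, ih2⟩ := ih
    refine ⟨by simpa [h0 i] using ih1, ?_⟩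
    have hi : HasStrictFDerivAt (fun t : ι → 𝕜 => E i (t i))
        ((ContinuousLinearMap.proj (R := 𝕜) (φ := fun _ : ι => 𝕜) i).smulRight (a i))
        (0 : ι → 𝕜) := by
      have h1 : HasStrictFDerivAt (fun t : ι → 𝕜 => t i)
          (ContinuousLinearMap.proj (R := 𝕜) (φ := fun _ : ι => 𝕜) i) (0 : ι → 𝕜) :=
        (ContinuousLinearMap.proj (R := 𝕜) (φ := fun _ : ι => 𝕜) i).hasStrictFDerivAt
      have h2 : HasStrictDerivAt (E i) (a i) ((0 : ι → 𝕜) i) := h i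
      have h3 := h2.hasStrictFDerivAt.comp (0 : ι → 𝕜) h1
      refine h3.congr_fderiv ?_
      ext t
      simp
    have h4 := hi.mul' ih2
    have e1 : (fun t : ι → 𝕜 => ((i :: l).map fun i => E i (t i)).prod) =
        (fun t : ι → 𝕜 => E i (t i)) * (fun t : ι → 𝕜 => (l.map fun i => E i (t i)).prod) := by
      funext t
      simp
    rw [e1]
    refine h4.congr_fderiv ?_
    rw [ih1]
    have e2 : E i ((0 : ι → 𝕜) i) = 1 := h0 i
    rw [e2]
    ext t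
    simp [add_comm]

theorem open_core [FiniteDimensional 𝕜 A] (L : Submodule 𝕜 A) (p : A →ₗ[𝕜] A)
    (hp : ∀ x, p x ∈ L) (hp1 : p 1 = 0) (hpL : ∀ x ∈ L, p x = x) (S : Submonoid A) (T : Set A)
    (hT : Submodule.span 𝕜 T = L) (E : A → 𝕜 → A) (hE0 : ∀ a ∈ T, E a 0 = 1)
    (hE : ∀ a ∈ T, HasStrictDerivAt (E a) a 0)
    (hES : ∀ a ∈ T, ∀ t : 𝕜, ‖t‖ ≤ 1 → E a t ∈ S) (δ : ℝ) (hδ : 0 < δ) :
    ∃ ε : ℝ, 0 < ε ∧ ∀ x ∈ L, ‖x‖ < ε → ∃ h ∈ S, ‖h - 1‖ < δ ∧ p h = x := by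
  classical
  obtain ⟨b, hbT, hbspan, hbli⟩ := exists_linearIndependent 𝕜 T
  have hbfin : b.Finite := hbli.setFinite
  have : Fintype b := hbfin.fintype
  let pL : A →L[𝕜] L := LinearMap.toContinuousLinearMap (p.codRestrict L hp)
  have hpLv : ∀ x : A, ((pL x : L) : A) = p x := fun x => rfl
  let Φ : (b → 𝕜) → A := fun t => ((Finset.univ : Finset b).toList.map fun i => E i.1 (t i)).prod
  obtain ⟨hΦ0, hΦ⟩ := hasStrict_prod (𝕜 := 𝕜) (fun i : b => E i.1) (fun i : b => i.1)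
    (fun i => hE0 i.1 (hbT i.2)) (fun i => hE i.1 (hbT i.2)) (Finset.univ : Finset b).toList
  have : CompleteSpace L := FiniteDimensional.complete 𝕜 L
  have hf := pL.hasStrictFDerivAt.comp (0 : b → 𝕜) hΦ
  have hr : (pL.comp ((Finset.univ : Finset b).toList.map fun i =>
      (ContinuousLinearMap.proj (R := 𝕜) (φ := fun _ : b => 𝕜) i).smulRight i.1).sum).range
      = ⊤ := by
    rw [eq_top_iff]
    rintro ⟨y, hy⟩ -
    have hy' : y ∈ Submodule.span 𝕜 (Set.range (Subtype.val : b → A)) := by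
      rw [Subtype.range_coe, hbspan, hT]; exact hy
    obtain ⟨c, hc⟩ := (Submodule.mem_span_range_iff_exists_fun 𝕜).1 hy'
    refine ⟨c, ?_⟩
    apply Subtype.ext
    show ((pL (_) : L) : A) = y
    rw [hpLv, Finset.sum_map_toList]
    have key : (∑ i : b, (ContinuousLinearMap.proj (R := 𝕜) (φ := fun _ : b => 𝕜) i).smulRight
        i.1 : (b → 𝕜) →L[𝕜] A) c = y := by
      rw [← hc]
      simp
    exact (congrArg p key).trans (hpL y hy)
  have hmap := hf.map_nhds_eq_of_surj hr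
  have hcont : ContinuousAt Φ 0 := hΦ.continuousAt
  have hU : {t : b → 𝕜 | (∀ i, ‖t i‖ ≤ 1) ∧ ‖Φ t - 1‖ < δ} ∈ 𝓝 (0 : b → 𝕜) := by
    apply Filter.inter_mem
    · have : Metric.closedBall (0 : b → 𝕜) 1 ∈ 𝓝 (0 : b → 𝕜) :=
        Metric.closedBall_mem_nhds _ one_pos
      refine Filter.mem_of_superset this ?_
      intro t ht i
      rw [mem_closedBall_zero_iff] at ht
      exact (norm_le_pi_norm t i).trans ht
    · have h1 : Filter.Tendsto (fun t => ‖Φ t - 1‖) (𝓝 0) (𝓝 ‖Φ 0 - 1‖) :=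
        (hcont.sub continuousAt_const).norm
      have h2 : ‖Φ 0 - 1‖ < δ := by
        have : Φ 0 = 1 := hΦ0
        rw [this]; simpa using hδ
      exact h1.eventually_lt_const h2
  have himg := Filter.image_mem_map (m := fun t => pL (Φ t)) hU
  have hmap' : Filter.map (fun t => pL (Φ t)) (𝓝 0) = 𝓝 (pL (Φ 0)) := hmap
  rw [hmap'] at himg
  have h0 : pL (Φ 0) = 0 := by
    apply Subtype.ext
    rw [hpLv]
    have : Φ 0 = 1 := hΦ0
    rw [this, hp1]; rfl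
  rw [h0] at himg
  obtain ⟨ε, hε, hball⟩ := Metric.mem_nhds_iff.1 himg
  refine ⟨ε, hε, ?_⟩
  intro x hx hxε
  have hxb : (⟨x, hx⟩ : L) ∈ Metric.ball (0 : L) ε := by
    rw [mem_ball_zero_iff]; exact hxε
  obtain ⟨t, ⟨ht1, ht2⟩, htx⟩ := hball hxb
  refine ⟨Φ t, ?_, ht2, ?_⟩
  · apply Submonoid.list_prod_mem
    intro y hy
    rw [List.mem_map] at hy
    obtain ⟨i, -, rfl⟩ := hy
    exact hES i.1 (hbT i.2) (t i) (ht1 i)
  · have := congrArg Subtype.val htx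
    simpa [hpLv] using this

omit [CompleteSpace 𝕜] in
/-- `g - g⁻¹` determines `g` near `1`. -/
theorem inj_core (h2 : (2 : 𝕜) ≠ 0) (g g' h h' : A) (hg : g * g' = 1) (hh : h' * h = 1)
    (he : g - g' = h - h') (δ : ℝ) (hδ1 : δ ≤ 1) (hδ2 : δ ≤ ‖(2 : 𝕜)‖ / 4)
    (h1 : ‖g - 1‖ < δ) (h3 : ‖h - 1‖ < δ) : g = h := by
  set X := g - h with hX
  have hX' : X = g' - h' := by
    have : g - h = g' - h' := by
      have e := he
      rw [sub_eq_sub_iff_add_eq_add] at e ⊢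
      rw [e]; exact add_comm _ _
    exact this
  have e1 : g * X * h = -X := by
    have : g * X * h = h - g := by
      calc g * X * h = (g * g') * h - g * (h' * h) := by rw [hX']; noncomm_ring
        _ = h - g := by rw [hg, hh, one_mul, mul_one]
    rw [this, hX]; abel
  have e2 : (2 : 𝕜) • X = -((g - 1) * X * (h - 1) + (g - 1) * X + X * (h - 1)) := by
    have : (g - 1) * X * (h - 1) + (g - 1) * X + X * (h - 1) = g * X * h - X := by noncomm_ring
    rw [this, e1, two_smul]; abel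
  have e3 : ‖(2 : 𝕜)‖ * ‖X‖ ≤ (3 / 4 * ‖(2 : 𝕜)‖) * ‖X‖ := by
    calc ‖(2 : 𝕜)‖ * ‖X‖ = ‖(2 : 𝕜) • X‖ := (norm_smul _ _).symm
      _ = ‖(g - 1) * X * (h - 1) + (g - 1) * X + X * (h - 1)‖ := by rw [e2, norm_neg]
      _ ≤ ‖(g - 1) * X * (h - 1)‖ + ‖(g - 1) * X‖ + ‖X * (h - 1)‖ := norm_add₃_le
      _ ≤ δ * ‖X‖ * 1 + δ * ‖X‖ + ‖X‖ * δ := by
          have a1 : ‖(g - 1) * X‖ ≤ δ * ‖X‖ :=
            (norm_mul_le _ _).trans (mul_le_mul_of_nonneg_right h1.le (norm_nonneg _))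
          have a2 : ‖X * (h - 1)‖ ≤ ‖X‖ * δ :=
            (norm_mul_le _ _).trans (mul_le_mul_of_nonneg_left h3.le (norm_nonneg _))
          have a3 : ‖(g - 1) * X * (h - 1)‖ ≤ δ * ‖X‖ * 1 := by
            refine (norm_mul_le _ _).trans ?_
            have hδ0 : 0 ≤ δ := (norm_nonneg _).trans h1.le
            exact mul_le_mul a1 (h3.le.trans hδ1) (norm_nonneg _)
              (mul_nonneg hδ0 (norm_nonneg _))
          linarith
      _ = 3 * δ * ‖X‖ := by ring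
      _ ≤ (3 / 4 * ‖(2 : 𝕜)‖) * ‖X‖ := by
          apply mul_le_mul_of_nonneg_right _ (norm_nonneg _)
          linarith
  have h20 : 0 < ‖(2 : 𝕜)‖ := norm_pos_iff.2 h2
  have hX0 : ‖X‖ = 0 := by
    have hn := norm_nonneg X
    nlinarith
  have := norm_eq_zero.1 hX0
  rw [hX, sub_eq_zero] at this
  exact this

theorem lin_bound [FiniteDimensional 𝕜 A] (p : A →ₗ[𝕜] A) :
    ∃ C : ℝ, 0 < C ∧ ∀ x, ‖p x‖ ≤ C * ‖x‖ := by
  refine ⟨‖LinearMap.toContinuousLinearMap p‖ + 1, by positivity, fun x => ?_⟩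
  have h := (LinearMap.toContinuousLinearMap p).le_opNorm x
  have h2 := norm_nonneg x
  calc ‖p x‖ ≤ ‖LinearMap.toContinuousLinearMap p‖ * ‖x‖ := h
    _ ≤ _ := by nlinarith

end core

end Pool.Agent.LM
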