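import Mathlib

/-! Invariant multilinear forms of a product of symplectic and orthogonal Lie algebras: the
combinatorial operator (signs `e i = -1` symplectic, `e i = 1` orthogonal). The symplectic case
follows helper48's `OT/Fft`. -/

set_option linter.unusedSectionVars false
set_option linter.unusedSimpArgs false

namespace Pool.Agent.LM.T

open Module Finset

section pos

variable {A B : Type*} [Fintype A] [DecidableEq A] [Fintype B] [DecidableEq B] {ι : Type*} [DecidableEq ι]

/-- Elementary operator. -/
def Top {R : Type*} [CommRing R] (P : Finset A) (b b' : B) (F : (A → B) → R) : (A → B) → R :=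
  fun β => ∑ a ∈ P, if β a = b' then F (Function.update β a b) else 0

theorem Top_adj {R : Type*} [CommRing R] (P : Finset A) (b b' : B) (F G : (A → B) → R) :
    ∑ β, Top P b b' F β * G β = ∑ β, F β * Top P b' b G β := by
  unfold Top
  simp only [Finset.sum_mul, Finset.mul_sum]
  rw [Finset.sum_comm, Finset.sum_comm (s := (Finset.univ : Finset (A → B)))]
  refine Finset.sum_congr rfl fun a _ => ?_
  simp only [ite_mul, zero_mul, mul_ite, mul_zero]
  rw [← Finset.sum_filter, ← Finset.sum_filter]
  refine Finset.sum_nbij' (fun β => Function.update β a b) (fun β => Function.update β a b') ?_ ?_ ?_ ?_ ?_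
  · intro β _; simp
  · intro β _; simp
  · intro β hβ
    simp only [mem_filter, mem_univ, true_and] at hβ
    simp only [Function.update_idem]
    rw [← hβ, Function.update_eq_self]
  · intro β hβ
    simp only [mem_filter, mem_univ, true_and] at hβ
    simp only [Function.update_idem]
    rw [← hβ, Function.update_eq_self]
  · intro β hβ
    simp only [mem_filter, mem_univ, true_and] at hβ
    simp only [Function.update_idem]
    rw [← hβ, Function.update_eq_self]

/-- The operator D in coordinates. -/
def Dc {R : Type*} [CommRing R] (e : ι → ℤ) (c : B → ι) (P : Finset A) (F : (A → B) → R) :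
    (A → B) → R :=
  fun β => ∑ a ∈ P, (((((univ.filter (fun b => c b = c (β a))).card : ℤ) - e (c (β a)) : ℤ) : R) * F β
    + ∑ a' ∈ P.erase a, if c (β a) = c (β a') then F (β ∘ Equiv.swap a a') else 0)

theorem update_update_swap (β : A → B) {a a' : A} (h : a ≠ a') :
    Function.update (Function.update β a (β a')) a' (β a) = β ∘ Equiv.swap a a' := by
  funext x
  by_cases h1 : x = a'
  · subst h1
    rw [Function.update_self, Function.comp_apply, Equiv.swap_apply_right]
  · rw [Function.update_of_ne h1]
    by_cases h2 : x = a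
    · subst h2
      rw [Function.update_self, Function.comp_apply, Equiv.swap_apply_left]
    · rw [Function.update_of_ne h2, Function.comp_apply, Equiv.swap_apply_of_ne_of_ne h2 h1]

/-- the part of the operator at the value `b'`. -/
theorem top_sum {R : Type*} [CommRing R] (c : B → ι) (P : Finset A) (F : (A → B) → R) (β : A → B)
    (b' : B) : (∑ b, if c b = c b' then Top P b b' (Top P b' b F) β else 0)
      = ∑ a ∈ P, if β a = b' then (((univ.filter (fun b => c b = c b')).card : R) * F β
        + ∑ a' ∈ P.erase a, if c (β a') = c b' then F (β ∘ Equiv.swap a a') else 0) else 0 := by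
  have h1 : ∀ b b', Top P b b' (Top P b' b F) β = ∑ a ∈ P, if β a = b' then
      (F β + ∑ a' ∈ P.erase a, if β a' = b then F (β ∘ Equiv.swap a a') else 0) else 0 := by
    intro b b'
    unfold Top
    refine Finset.sum_congr rfl fun a ha => ?_
    split_ifs with hb
    · rw [← Finset.add_sum_erase P _ ha]
      congr 1
      · rw [if_pos (Function.update_self _ _ _), Function.update_idem, ← hb, Function.update_eq_self]
      · refine Finset.sum_congr rfl fun a' ha' => ?_
        have hne : a' ≠ a := (Finset.mem_erase.mp ha').1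
        rw [Function.update_of_ne hne]
        split_ifs with hb2
        · rw [← hb2, ← hb, update_update_swap β hne.symm]
        · rfl
    · rfl
  simp only [h1]
  rw [← Finset.sum_filter, Finset.sum_comm]
  refine Finset.sum_congr rfl fun a _ => ?_
  split_ifs with hb
  · rw [Finset.sum_add_distrib, Finset.sum_const, nsmul_eq_mul, Finset.sum_comm]
    congr 1
    refine Finset.sum_congr rfl fun a' _ => ?_
    rw [Finset.sum_ite_eq]
    simp only [mem_filter, mem_univ, true_and]
  · rw [Finset.sum_const_zero]

/-- the positive part at one position. -/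
def T1 {R : Type*} [CommRing R] (c : B → ι) (P : Finset A) (F : (A → B) → R) (β : A → B) (a : A) : R :=
  (((univ.filter (fun b => c b = c (β a))).card : ℕ) : R) * F β
    + ∑ a' ∈ P.erase a, if c (β a) = c (β a') then F (β ∘ Equiv.swap a a') else 0

theorem Dc_eq_T1 {R : Type*} [CommRing R] (e : ι → ℤ) (c : B → ι) (P : Finset A) (F : (A → B) → R)
    (β : A → B) : Dc e c P F β = ∑ a ∈ P, (T1 c P F β a - (e (c (β a)) : R) * F β) := by
  unfold Dc T1
  refine Finset.sum_congr rfl fun a _ => ?_
  push_cast
  ring

theorem sympl_nonneg (c : B → ι) (P : Finset A) (F : (A → B) → ℚ) (q : ι → Prop) [DecidablePred q] :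
    0 ≤ ∑ β, ∑ a ∈ P, if q (c (β a)) then T1 c P F β a * F β else 0 := by
  have h1 : ∀ β, (∑ a ∈ P, if q (c (β a)) then T1 c P F β a * F β else 0)
      = ∑ b', if q (c b') then ∑ b, if c b = c b' then Top P b b' (Top P b' b F) β * F β else 0
        else 0 := by
    intro β
    have h2 : ∀ b', (if q (c b') then ∑ b, if c b = c b' then Top P b b' (Top P b' b F) β * F β else 0
        else 0) = ∑ a ∈ P, if β a = b' then (if q (c b') then T1 c P F β a * F β else 0) else 0 := by
      intro b'
      split_ifs with hq
      · have h3 := top_sum c P F β b'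
        have h4 : (∑ b, if c b = c b' then Top P b b' (Top P b' b F) β * F β else 0)
            = (∑ b, if c b = c b' then Top P b b' (Top P b' b F) β else 0) * F β := by
          rw [Finset.sum_mul]
          refine Finset.sum_congr rfl fun b _ => ?_
          split_ifs <;> simp
        rw [h4, h3, Finset.sum_mul]
        refine Finset.sum_congr rfl fun a _ => ?_
        split_ifs with hb
        · subst hb
          unfold T1
          congr 2
          refine Finset.sum_congr rfl fun a' _ => ?_
          by_cases h : c (β a) = c (β a')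
          · rw [if_pos h, if_pos h.symm]
          · rw [if_neg h, if_neg (fun h' => h h'.symm)]
        · simp
      · symm
        refine Finset.sum_eq_zero fun a _ => ?_
        split_ifs <;> rfl
    simp only [h2]
    rw [Finset.sum_comm]
    refine Finset.sum_congr rfl fun a _ => ?_
    rw [Finset.sum_ite_eq]
    simp
  simp only [h1]
  rw [Finset.sum_comm]
  refine Finset.sum_nonneg fun b' _ => ?_
  split_ifs with hq
  · rw [Finset.sum_comm]
    refine Finset.sum_nonneg fun b _ => ?_
    split_ifs with hc
    · rw [Top_adj]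
      exact Finset.sum_nonneg fun β _ => mul_self_nonneg _
    · simp
  · simp

/-- the swap terms are bounded below. -/
theorem swap_lower (c : B → ι) (F : (A → B) → ℚ) (q : ι → Prop) [DecidablePred q] (a a' : A) :
    -(∑ β, if q (c (β a)) then F β * F β else 0)
      ≤ ∑ β, if q (c (β a)) then (if c (β a) = c (β a') then F (β ∘ Equiv.swap a a') else 0) * F β
        else 0 := by
  have h1 : ∑ β : A → B, (if q (c (β a)) ∧ c (β a) = c (β a') then
        F (β ∘ Equiv.swap a a') * F (β ∘ Equiv.swap a a') else 0)
      = ∑ β : A → B, (if q (c (β a)) ∧ c (β a) = c (β a') then F β * F β else 0) := by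
    refine Fintype.sum_bijective (fun β : A → B => β ∘ Equiv.swap a a') ?_ _ _ ?_
    · refine Function.Involutive.bijective fun β => ?_
      funext x
      simp [Function.comp, Equiv.swap_apply_self]
    · intro β
      have h2 : (q (c (β a)) ∧ c (β a) = c (β a')) ↔ (q (c ((β ∘ Equiv.swap a a') a)) ∧
          c ((β ∘ Equiv.swap a a') a) = c ((β ∘ Equiv.swap a a') a')) := by
        simp only [Function.comp_apply, Equiv.swap_apply_left, Equiv.swap_apply_right]
        constructor
        · rintro ⟨h, h'⟩; exact ⟨h' ▸ h, h'.symm⟩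
        · rintro ⟨h, h'⟩; exact ⟨h' ▸ h, h'.symm⟩
      by_cases h : q (c (β a)) ∧ c (β a) = c (β a')
      · rw [if_pos h, if_pos (h2.mp h)]
      · rw [if_neg h, if_neg (fun h' => h (h2.mpr h'))]
  have h3 : 0 ≤ ∑ β : A → B, (if q (c (β a)) then ((if c (β a) = c (β a') then
        F (β ∘ Equiv.swap a a') else 0) * F β + F β * F β) else 0) := by
    have h4 : ∀ β : A → B, (if q (c (β a)) ∧ c (β a) = c (β a') then F β * F β else 0) / 2
        - (if q (c (β a)) ∧ c (β a) = c (β a') then
          F (β ∘ Equiv.swap a a') * F (β ∘ Equiv.swap a a') else 0) / 2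
        ≤ (if q (c (β a)) then ((if c (β a) = c (β a') then
        F (β ∘ Equiv.swap a a') else 0) * F β + F β * F β) else 0) := by
      intro β
      by_cases hq : q (c (β a))
      · by_cases hc : c (β a) = c (β a')
        · simp only [hq, hc, true_and, if_true]
          have hq' : q (c (β a')) := hc ▸ hq
          simp only [hq', if_true, and_self]
          nlinarith [mul_self_nonneg (F β + F (β ∘ Equiv.swap a a'))]
        · simp only [hq, hc, true_and, if_true, if_false, and_false]
          nlinarith [mul_self_nonneg (F β)]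
      · simp [hq]
    have h5 := Finset.sum_le_sum fun β (_ : β ∈ (Finset.univ : Finset (A → B))) => h4 β
    rw [Finset.sum_sub_distrib, ← Finset.sum_div, ← Finset.sum_div, h1, sub_self] at h5
    exact h5
  have h6 : ∑ β : A → B, (if q (c (β a)) then ((if c (β a) = c (β a') then
        F (β ∘ Equiv.swap a a') else 0) * F β + F β * F β) else 0)
      = ∑ β : A → B, (if q (c (β a)) then (if c (β a) = c (β a') then
        F (β ∘ Equiv.swap a a') else 0) * F β else 0)
        + ∑ β, if q (c (β a)) then F β * F β else 0 := by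
    rw [← Finset.sum_add_distrib]
    refine Finset.sum_congr rfl fun β _ => ?_
    split_ifs <;> simp
  rw [h6] at h3
  linarith

theorem orth_lower (c : B → ι) (P : Finset A) (F : (A → B) → ℚ) (q : ι → Prop) [DecidablePred q]
    (hq : ∀ b, q (c b) → P.card < (univ.filter (fun b' => c b' = c b)).card) {a : A} (ha : a ∈ P) :
    2 * (∑ β, if q (c (β a)) then F β * F β else 0)
      ≤ ∑ β, if q (c (β a)) then T1 c P F β a * F β else 0 := by
  have h1 : ∀ β : A → B, (if q (c (β a)) then T1 c P F β a * F β else 0)
      = (if q (c (β a)) then (((univ.filter (fun b => c b = c (β a))).card : ℕ) : ℚ) * (F β * F β)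
          else 0)
        + ∑ a' ∈ P.erase a, (if q (c (β a)) then (if c (β a) = c (β a') then
          F (β ∘ Equiv.swap a a') else 0) * F β else 0) := by
    intro β
    unfold T1
    split_ifs with h
    · rw [add_mul, Finset.sum_mul]
      ring
    · simp
  simp only [h1]
  rw [Finset.sum_add_distrib, Finset.sum_comm]
  have h2 : (P.erase a).card • (-(∑ β : A → B, if q (c (β a)) then F β * F β else 0))
      ≤ ∑ a' ∈ P.erase a, ∑ β : A → B, (if q (c (β a)) then (if c (β a) = c (β a') then
          F (β ∘ Equiv.swap a a') else 0) * F β else 0) :=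
    Finset.card_nsmul_le_sum _ _ _ fun a' _ => swap_lower c F q a a'
  have h3 : ((P.card : ℚ) + 1) * (∑ β : A → B, if q (c (β a)) then F β * F β else 0)
      ≤ ∑ β : A → B, (if q (c (β a)) then
        (((univ.filter (fun b => c b = c (β a))).card : ℕ) : ℚ) * (F β * F β) else 0) := by
    rw [Finset.mul_sum]
    refine Finset.sum_le_sum fun β _ => ?_
    split_ifs with h
    · have h4 := hq (β a) h
      have h5 : ((P.card : ℚ) + 1) ≤ (((univ.filter (fun b => c b = c (β a))).card : ℕ) : ℚ) := by
        exact_mod_cast h4
      exact mul_le_mul_of_nonneg_right h5 (mul_self_nonneg _)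
    · simp
  have h6 : ((P.erase a).card : ℚ) = (P.card : ℚ) - 1 := by
    rw [Finset.card_erase_of_mem ha, Nat.cast_sub (Finset.card_pos.mpr ⟨a, ha⟩), Nat.cast_one]
  rw [nsmul_eq_mul, h6] at h2
  linarith

theorem Dc_inj_rat (e : ι → ℤ) (he : ∀ i, e i = 1 ∨ e i = -1) (c : B → ι) (P : Finset A)
    (hP : P.Nonempty)
    (hq : ∀ b, e (c b) = 1 → P.card < (univ.filter (fun b' => c b' = c b)).card)
    (F : (A → B) → ℚ) (h : ∀ β, Dc e c P F β = 0) : ∀ β, F β = 0 := by
  have h1 : ∑ β, Dc e c P F β * F β = 0 := by simp [h]
  have h2 : ∀ β : A → B, Dc e c P F β * F β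
      = (∑ a ∈ P, if e (c (β a)) = -1 then T1 c P F β a * F β else 0)
        + (∑ a ∈ P, if e (c (β a)) = -1 then F β * F β else 0)
        + ((∑ a ∈ P, if e (c (β a)) = 1 then T1 c P F β a * F β else 0)
        - (∑ a ∈ P, if e (c (β a)) = 1 then F β * F β else 0)) := by
    intro β
    rw [Dc_eq_T1, Finset.sum_mul, ← Finset.sum_add_distrib, ← Finset.sum_sub_distrib,
      ← Finset.sum_add_distrib]
    refine Finset.sum_congr rfl fun a _ => ?_
    rcases he (c (β a)) with h | h
    · rw [h]; norm_num; ring
    · rw [h]; norm_num; ring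
  simp only [h2] at h1
  rw [Finset.sum_add_distrib, Finset.sum_add_distrib, Finset.sum_sub_distrib] at h1
  have h3 := sympl_nonneg c P F (fun i => e i = -1)
  have h4 : 2 * (∑ β, ∑ a ∈ P, if e (c (β a)) = 1 then F β * F β else 0)
      ≤ ∑ β, ∑ a ∈ P, if e (c (β a)) = 1 then T1 c P F β a * F β else 0 := by
    rw [Finset.sum_comm, Finset.sum_comm (s := (Finset.univ : Finset (A → B))), Finset.mul_sum]
    exact Finset.sum_le_sum fun a ha => orth_lower c P F (fun i => e i = 1) hq ha
  have h5 : ∑ β : A → B, (P.card : ℚ) * (F β * F β)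
      = (∑ β : A → B, ∑ a ∈ P, if e (c (β a)) = -1 then F β * F β else 0)
        + ∑ β : A → B, ∑ a ∈ P, if e (c (β a)) = 1 then F β * F β else 0 := by
    rw [← Finset.sum_add_distrib]
    refine Finset.sum_congr rfl fun β _ => ?_
    rw [← Finset.sum_add_distrib, ← nsmul_eq_mul, ← Finset.sum_const]
    refine Finset.sum_congr rfl fun a _ => ?_
    rcases he (c (β a)) with h | h
    · rw [h]; norm_num
    · rw [h]; norm_num
  have h6 : ∑ β : A → B, (P.card : ℚ) * (F β * F β) ≤ 0 := by linarith
  have h7 : ∀ β ∈ (Finset.univ : Finset (A → B)), 0 ≤ (P.card : ℚ) * (F β * F β) := fun β _ =>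
    mul_nonneg (Nat.cast_nonneg _) (mul_self_nonneg _)
  have h8 : ∑ β : A → B, (P.card : ℚ) * (F β * F β) = 0 := le_antisymm h6 (Finset.sum_nonneg h7)
  intro β
  have h9 := (Finset.sum_eq_zero_iff_of_nonneg h7).mp h8 β (Finset.mem_univ β)
  have hc : (P.card : ℚ) ≠ 0 := by
    rw [Nat.cast_ne_zero]; exact Finset.card_ne_zero.mpr hP
  exact mul_self_eq_zero.mp ((mul_eq_zero.mp h9).resolve_left hc)

theorem Dc_inj {K : Type*} [Field K] [CharZero K] (e : ι → ℤ) (he : ∀ i, e i = 1 ∨ e i = -1)
    (c : B → ι) (P : Finset A) (hP : P.Nonempty)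
    (hq : ∀ b, e (c b) = 1 → P.card < (univ.filter (fun b' => c b' = c b)).card)
    (F : (A → B) → K) (h : ∀ β, Dc e c P F β = 0) : ∀ β, F β = 0 := by
  intro β
  rw [← Module.forall_dual_apply_eq_zero_iff ℚ]
  intro φ
  refine Dc_inj_rat e he c P hP hq (fun β => φ (F β)) ?_ β
  intro γ
  have h1 := congrArg φ (h γ)
  rw [map_zero] at h1
  rw [← h1]
  unfold Dc
  rw [map_sum]
  refine Finset.sum_congr rfl fun a _ => ?_
  rw [map_add, map_sum, ← zsmul_eq_mul, ← zsmul_eq_mul, map_zsmul]
  congr 1
  refine Finset.sum_congr rfl fun a' _ => ?_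
  split_ifs
  · rfl
  · rw [map_zero]

end pos

end Pool.Agent.LM.T
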