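import Pool.Agent.Lib_helper51.LM.FftA

/-! Invariant multilinear forms: products of pairings (after helper48's `OT/Fft2`). -/

set_option linter.unusedSectionVars false
set_option linter.unusedSimpArgs false

namespace Pool.Agent.LM.T

open Module Finset

variable {K : Type*} [Field K] [CharZero K]
variable {ι : Type*} [Fintype ι] [DecidableEq ι] {W : ι → Type*} [∀ i, AddCommGroup (W i)]
  [∀ i, Module K (W i)] [∀ i, FiniteDimensional K (W i)]
variable {A : Type*} [Fintype A] [DecidableEq A]

/-- Multilinear in the positions P, independent of the others. -/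
structure PML (K : Type*) [Field K] {A V : Type*} [DecidableEq A] [AddCommGroup V] [Module K V]
    (P : Finset A) (f : (A → V) → K) : Prop where
  add : ∀ a ∈ P, ∀ v x y, f (Function.update v a (x + y)) = f (Function.update v a x) + f (Function.update v a y)
  smul : ∀ a ∈ P, ∀ v (c : K) x, f (Function.update v a (c • x)) = c * f (Function.update v a x)
  const : ∀ a, a ∉ P → ∀ v x, f (Function.update v a x) = f v

section gen

variable {V : Type*} [AddCommGroup V] [Module K V]

/-- The linear map in one position. -/
def PML.lin {P : Finset A} {f : (A → V) → K} (h : PML K P f) {a : A} (ha : a ∈ P) (v : A → V) :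
    V →ₗ[K] K where
  toFun := fun w => f (Function.update v a w)
  map_add' := fun x y => h.add a ha v x y
  map_smul' := fun c x => h.smul a ha v c x

theorem PML.lin_apply {P : Finset A} {f : (A → V) → K} (h : PML K P f) {a : A} (ha : a ∈ P) (v : A → V)
    (w : V) : h.lin ha v w = f (Function.update v a w) := rfl

theorem PML.zero {P : Finset A} {f : (A → V) → K} (h : PML K P f) {a : A} (ha : a ∈ P) (v : A → V) :
    f (Function.update v a 0) = 0 := by
  rw [← h.lin_apply ha, map_zero]

theorem PML.add' {P : Finset A} {f g : (A → V) → K} (hf : PML K P f) (hg : PML K P g) :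
    PML K P (f + g) where
  add := by intro a ha v x y; simp only [Pi.add_apply, hf.add a ha, hg.add a ha]; ring
  smul := by intro a ha v x y; simp only [Pi.add_apply, hf.smul a ha, hg.smul a ha]; ring
  const := by intro a ha v x; simp only [Pi.add_apply, hf.const a ha, hg.const a ha]

theorem PML.smul' {P : Finset A} {f : (A → V) → K} (hf : PML K P f) (c : K) :
    PML K P (c • f) where
  add := by intro a ha v x y; simp only [Pi.smul_apply, hf.add a ha, smul_eq_mul]; ring
  smul := by intro a ha v x y; simp only [Pi.smul_apply, hf.smul a ha, smul_eq_mul]; ring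
  const := by intro a ha v x; simp only [Pi.smul_apply, hf.const a ha]

theorem PML.zero' (P : Finset A) : PML K P (0 : (A → V) → K) where
  add := by intro a ha v x y; simp
  smul := by intro a ha v x y; simp
  const := by intro a ha v x; simp

theorem PML.sum {P : Finset A} {J : Type*} (s : Finset J) {f : J → (A → V) → K}
    (h : ∀ j ∈ s, PML K P (f j)) : PML K P (fun v => ∑ j ∈ s, f j v) := by
  classical
  induction s using Finset.induction_on with
  | empty => exact PML.zero' P
  | insert j s hj ih =>
    have := (h j (Finset.mem_insert_self _ _)).add' (ih (fun k hk => h k (Finset.mem_insert_of_mem hk)))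
    refine cast ?_ this
    congr 1
    funext v
    rw [Finset.sum_insert hj]; rfl

/-- Two such functions agreeing on a basis agree. -/
theorem PML.ext {B : Type*} [Nonempty B] (e : Basis B K V) {P : Finset A} {f g : (A → V) → K}
    (hf : PML K P f) (hg : PML K P g) (h : ∀ β : A → B, f (fun a => e (β a)) = g (fun a => e (β a))) :
    f = g := by
  classical
  have key : ∀ Q : Finset A, ∀ v : A → V, (∀ a, a ∉ Q → ∃ b, v a = e b) → f v = g v := by
    intro Q
    induction Q using Finset.induction_on with
    | empty =>
      intro v hv
      choose β hβ using fun a => hv a (Finset.notMem_empty a)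
      have : v = fun a => e (β a) := funext hβ
      rw [this, h]
    | insert a Q haQ ih =>
      intro v hv
      have hup : ∀ b, f (Function.update v a (e b)) = g (Function.update v a (e b)) := by
        intro b
        apply ih
        intro x hx
        by_cases hxa : x = a
        · subst hxa; exact ⟨b, Function.update_self _ _ _⟩
        · rw [Function.update_of_ne hxa]
          exact hv x (fun hx' => (Finset.mem_insert.mp hx').elim hxa hx)
      by_cases haP : a ∈ P
      · have hl : hf.lin haP v = hg.lin haP v := e.ext hup
        have := LinearMap.congr_fun hl (v a)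
        rw [hf.lin_apply, hg.lin_apply, Function.update_eq_self] at this
        exact this
      · obtain ⟨b⟩ := ‹Nonempty B›
        rw [← hf.const a haP v (e b), ← hg.const a haP v (e b)]
        exact hup b
  funext v
  exact key Finset.univ v (fun a ha => absurd (Finset.mem_univ a) ha)

end gen

/-- Products of pairings. -/
inductive Pairing (ω : ∀ i, LinearMap.BilinForm K (W i)) : Finset A → ((A → ∀ i, W i) → K) → Prop
  | one : Pairing ω ∅ (fun _ => 1)
  | mul {P : Finset A} {F : (A → ∀ i, W i) → K} (a a' : A) (i : ι) (h : a ≠ a') (ha : a ∉ P)
      (ha' : a' ∉ P) (hF : Pairing ω P F) :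
      Pairing ω (insert a (insert a' P)) (fun v => ω i (v a i) (v a' i) * F v)

/-- Skew endomorphisms. -/
def Sk {V : Type*} [AddCommGroup V] [Module K V] (ω : LinearMap.BilinForm K V)
    (x : Module.End K V) : Prop := ∀ v w, ω (x v) w = - ω v (x w)

/-- Invariance in the positions P. -/
def Inv (ω : ∀ i, LinearMap.BilinForm K (W i)) (P : Finset A) (f : (A → ∀ i, W i) → K) : Prop :=
  ∀ i, ∀ x : Module.End K (W i), Sk (ω i) x → ∀ v : A → ∀ i, W i,
    ∑ a ∈ P, f (Function.update v a (Pi.single i (x (v a i)))) = 0

variable {ω : ∀ i, LinearMap.BilinForm K (W i)}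

theorem Pairing.pml {P : Finset A} {F : (A → ∀ i, W i) → K} (h : Pairing ω P F) : PML K P F := by
  induction h with
  | one => exact ⟨by simp, by simp, by simp⟩
  | @mul P F a a' i hne ha ha' hF ih =>
    have hF1 : ∀ v x, F (Function.update v a x) = F v := ih.const a ha
    have hF2 : ∀ v x, F (Function.update v a' x) = F v := ih.const a' ha'
    refine ⟨?_, ?_, ?_⟩
    · intro b hb v x y
      by_cases h1 : b = a
      · subst h1
        simp only [Function.update_self, Function.update_of_ne hne.symm, hF1, Pi.add_apply, map_add,
          LinearMap.add_apply]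
        ring
      by_cases h2 : b = a'
      · subst h2
        simp only [Function.update_self, Function.update_of_ne hne, hF2, Pi.add_apply, map_add]
        ring
      have hbP : b ∈ P := by
        rcases Finset.mem_insert.mp hb with h | h
        · exact absurd h h1
        rcases Finset.mem_insert.mp h with h | h
        · exact absurd h h2
        · exact h
      simp only [Function.update_of_ne (Ne.symm h1), Function.update_of_ne (Ne.symm h2), ih.add b hbP]
      ring
    · intro b hb v c x
      by_cases h1 : b = a
      · subst h1
        simp only [Function.update_self, Function.update_of_ne hne.symm, hF1, Pi.smul_apply, map_smul,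
          LinearMap.smul_apply, smul_eq_mul]
        ring
      by_cases h2 : b = a'
      · subst h2
        simp only [Function.update_self, Function.update_of_ne hne, hF2, Pi.smul_apply, map_smul, smul_eq_mul]
        ring
      have hbP : b ∈ P := by
        rcases Finset.mem_insert.mp hb with h | h
        · exact absurd h h1
        rcases Finset.mem_insert.mp h with h | h
        · exact absurd h h2
        · exact h
      simp only [Function.update_of_ne (Ne.symm h1), Function.update_of_ne (Ne.symm h2), ih.smul b hbP]
      ring
    · intro b hb v x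
      have h1 : b ≠ a := fun h => hb (by rw [h]; exact Finset.mem_insert_self _ _)
      have h2 : b ≠ a' := fun h => hb (by
        rw [h]; exact Finset.mem_insert_of_mem (Finset.mem_insert_self _ _))
      have h3 : b ∉ P := fun h => hb (Finset.mem_insert_of_mem (Finset.mem_insert_of_mem h))
      simp only [Function.update_of_ne h1.symm, Function.update_of_ne h2.symm, ih.const b h3]

/-- Each position of a product of pairings has a label. -/
theorem Pairing.label {P : Finset A} {F : (A → ∀ i, W i) → K} (h : Pairing ω P F) :
    ∀ a ∈ P, ∃ i₀, ∀ (i : ι) (v : A → ∀ i, W i),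
      F (Function.update v a (Pi.single i (v a i))) = if i = i₀ then F v else 0 := by
  induction h with
  | one => intro a ha; exact absurd ha (Finset.notMem_empty a)
  | @mul P F a a' i₁ hne ha ha' hF ih =>
    have hF1 : ∀ v x, F (Function.update v a x) = F v := hF.pml.const a ha
    have hF2 : ∀ v x, F (Function.update v a' x) = F v := hF.pml.const a' ha'
    intro b hb
    by_cases h1 : b = a
    · subst h1
      refine ⟨i₁, fun i v => ?_⟩
      simp only [Function.update_self, Function.update_of_ne hne.symm, hF1]
      split_ifs with h
      · subst h; rw [Pi.single_eq_same]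
      · rw [Pi.single_eq_of_ne (Ne.symm h), map_zero, LinearMap.zero_apply, zero_mul]
    by_cases h2 : b = a'
    · subst h2
      refine ⟨i₁, fun i v => ?_⟩
      simp only [Function.update_self, Function.update_of_ne hne, hF2]
      split_ifs with h
      · subst h; rw [Pi.single_eq_same]
      · rw [Pi.single_eq_of_ne (Ne.symm h), map_zero, zero_mul]
    have hbP : b ∈ P := by
      rcases Finset.mem_insert.mp hb with h | h
      · exact absurd h h1
      rcases Finset.mem_insert.mp h with h | h
      · exact absurd h h2
      · exact h
    obtain ⟨i₀, hi₀⟩ := ih b hbP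
    refine ⟨i₀, fun i v => ?_⟩
    simp only [Function.update_of_ne (Ne.symm h1), Function.update_of_ne (Ne.symm h2), hi₀]
    split_ifs
    · rfl
    · rw [mul_zero]

theorem Pairing.perm {P : Finset A} {F : (A → ∀ i, W i) → K} (h : Pairing ω P F) (π : Equiv.Perm A) :
    Pairing ω (P.map π.toEmbedding) (fun v => F (v ∘ π)) := by
  induction h with
  | one => exact Pairing.one
  | @mul P F a a' i₁ hne ha ha' hF ih =>
    rw [Finset.map_insert, Finset.map_insert]
    exact Pairing.mul (π a) (π a') i₁ (fun h => hne (π.injective h))
      (by simpa using ha) (by simpa using ha') ih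

theorem map_swap {P : Finset A} {a a' : A} (ha : a ∈ P) (ha' : a' ∈ P) :
    P.map (Equiv.swap a a').toEmbedding = P := by
  ext x
  simp only [Finset.mem_map, Equiv.coe_toEmbedding]
  constructor
  · rintro ⟨y, hy, rfl⟩
    by_cases h1 : y = a
    · subst h1; rw [Equiv.swap_apply_left]; exact ha'
    by_cases h2 : y = a'
    · subst h2; rw [Equiv.swap_apply_right]; exact ha
    rw [Equiv.swap_apply_of_ne_of_ne h1 h2]; exact hy
  · intro hx
    refine ⟨Equiv.swap a a' x, ?_, Equiv.swap_apply_self _ _ _⟩
    by_cases h1 : x = a
    · subst h1; rw [Equiv.swap_apply_left]; exact ha'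
    by_cases h2 : x = a'
    · subst h2; rw [Equiv.swap_apply_right]; exact ha
    rw [Equiv.swap_apply_of_ne_of_ne h1 h2]; exact hx

theorem Pairing.swap {P : Finset A} {F : (A → ∀ i, W i) → K} (h : Pairing ω P F) {a a' : A}
    (ha : a ∈ P) (ha' : a' ∈ P) : Pairing ω P (fun v => F (v ∘ Equiv.swap a a')) := by
  have := h.perm (Equiv.swap a a')
  rwa [map_swap ha ha'] at this

/-- The span of the products of pairings. -/
def S (ω : ∀ i, LinearMap.BilinForm K (W i)) (P : Finset A) : Submodule K ((A → ∀ i, W i) → K) :=
  Submodule.span K {F | Pairing ω P F}

theorem S_pml {P : Finset A} {F : (A → ∀ i, W i) → K} (h : F ∈ S ω P) : PML K P F := by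
  unfold S at h
  induction h using Submodule.span_induction with
  | mem x hx => exact Pairing.pml hx
  | zero => exact PML.zero' P
  | add x y _ _ hx hy => exact hx.add' hy
  | smul c x _ hx => exact hx.smul' c

theorem S_mul {P : Finset A} {F : (A → ∀ i, W i) → K} (h : F ∈ S ω P) {a a' : A} (i : ι)
    (hne : a ≠ a') (ha : a ∉ P) (ha' : a' ∉ P) :
    (fun v => ω i (v a i) (v a' i) * F v) ∈ S ω (insert a (insert a' P)) := by
  unfold S at h
  induction h using Submodule.span_induction with
  | mem x hx => exact Submodule.subset_span (Pairing.mul a a' i hne ha ha' hx)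
  | zero =>
    have : (fun v : A → ∀ i, W i => ω i (v a i) (v a' i) * (0 : (A → ∀ i, W i) → K) v) = 0 := by
      funext v; simp
    rw [this]; exact Submodule.zero_mem _
  | add x y _ _ hx hy =>
    have : (fun v : A → ∀ i, W i => ω i (v a i) (v a' i) * (x + y) v)
        = (fun v => ω i (v a i) (v a' i) * x v) + (fun v => ω i (v a i) (v a' i) * y v) := by
      funext v; simp only [Pi.add_apply]; ring
    rw [this]; exact Submodule.add_mem _ hx hy
  | smul c x _ hx =>
    have : (fun v : A → ∀ i, W i => ω i (v a i) (v a' i) * (c • x) v)
        = c • (fun v => ω i (v a i) (v a' i) * x v) := by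
      funext v; simp only [Pi.smul_apply, smul_eq_mul]; ring
    rw [this]; exact Submodule.smul_mem _ _ hx

/-- The operator D on functions. -/
noncomputable def DD (e : ι → ℤ) (P : Finset A) (f : (A → ∀ i, W i) → K) : (A → ∀ i, W i) → K := fun v =>
  ∑ a ∈ P, ∑ i, (((((finrank K (W i) : ℕ) : ℤ) - e i : ℤ) : K) * f (Function.update v a (Pi.single i (v a i)))
    + ∑ a' ∈ P.erase a, f (Function.update (Function.update v a (Pi.single i (v a' i))) a'
        (Pi.single i (v a i))))

theorem DD_S (e₀ : ι → ℤ) {P : Finset A} {F : (A → ∀ i, W i) → K} (h : F ∈ S ω P) : DD e₀ P F ∈ S ω P := by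
  unfold S at h
  induction h using Submodule.span_induction with
  | mem F hF =>
    have hF' : Pairing ω P F := hF
    have key1 : ∀ a ∈ P, ∀ i, ∀ G : (A → ∀ i, W i) → K, Pairing ω P G →
        (fun v => G (Function.update v a (Pi.single i (v a i)))) ∈ S ω P := by
      intro a ha i G hG
      obtain ⟨i₀, hi₀⟩ := hG.label a ha
      by_cases h : i = i₀
      · have : (fun v => G (Function.update v a (Pi.single i (v a i)))) = G := by
          funext v; rw [hi₀, if_pos h]
        rw [this]; exact Submodule.subset_span hG
      · have : (fun v => G (Function.update v a (Pi.single i (v a i)))) = 0 := by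
          funext v; rw [hi₀, if_neg h]; rfl
        rw [this]; exact Submodule.zero_mem _
    have key2 : ∀ a ∈ P, ∀ a' ∈ P.erase a, ∀ i,
        (fun v => F (Function.update (Function.update v a (Pi.single i (v a' i))) a'
          (Pi.single i (v a i)))) ∈ S ω P := by
      intro a ha a' ha' i
      have hne : a ≠ a' := (Finset.mem_erase.mp ha').1.symm
      have ha'P := (Finset.mem_erase.mp ha').2
      have hG := hF'.swap ha ha'P
      obtain ⟨i₀, hi₀⟩ := hG.label a ha
      obtain ⟨i₁, hi₁⟩ := hG.label a' ha'P
      have e : ∀ v : A → ∀ i, W i, Function.update (Function.update v a (Pi.single i (v a' i))) a'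
          (Pi.single i (v a i)) = (Function.update (Function.update v a (Pi.single i (v a i))) a'
            (Pi.single i (v a' i))) ∘ Equiv.swap a a' := by
        intro v
        funext x
        by_cases h1 : x = a'
        · subst h1
          rw [Function.update_self, Function.comp_apply, Equiv.swap_apply_right,
            Function.update_of_ne hne, Function.update_self]
        · rw [Function.update_of_ne h1]
          by_cases h2 : x = a
          · subst h2
            rw [Function.update_self, Function.comp_apply, Equiv.swap_apply_left, Function.update_self]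
          · rw [Function.update_of_ne h2, Function.comp_apply, Equiv.swap_apply_of_ne_of_ne h2 h1,
              Function.update_of_ne h1, Function.update_of_ne h2]
      have e2 : ∀ v : A → ∀ i, W i, F (Function.update (Function.update v a (Pi.single i (v a' i))) a'
          (Pi.single i (v a i))) = if i = i₁ then (if i = i₀ then F (v ∘ Equiv.swap a a') else 0) else 0 := by
        intro v
        rw [e v]
        have h3 := hi₁ i (Function.update v a (Pi.single i (v a i)))
        rw [Function.update_of_ne hne.symm] at h3
        rw [h3, hi₀]
      simp only [e2]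
      split_ifs
      · exact Submodule.subset_span hG
      · exact Submodule.zero_mem _
      · exact Submodule.zero_mem _
    have : DD e₀ P F = ∑ a ∈ P, ∑ i, (((((finrank K (W i) : ℕ) : ℤ) - e₀ i : ℤ) : K) •
        (fun v => F (Function.update v a (Pi.single i (v a i))))
        + ∑ a' ∈ P.erase a, (fun v => F (Function.update (Function.update v a (Pi.single i (v a' i))) a'
          (Pi.single i (v a i))))) := by
      funext v
      simp only [DD, Finset.sum_apply, Pi.add_apply, Pi.smul_apply, smul_eq_mul]
    rw [this]
    refine Submodule.sum_mem _ fun a ha => Submodule.sum_mem _ fun i _ => Submodule.add_mem _ ?_ ?_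
    · exact Submodule.smul_mem _ _ (key1 a ha i F hF')
    · exact Submodule.sum_mem _ fun a' ha' => key2 a ha a' ha' i
  | zero =>
    have : DD e₀ P (0 : (A → ∀ i, W i) → K) = 0 := by funext v; simp [DD]
    rw [this]; exact Submodule.zero_mem _
  | add x y _ _ hx hy =>
    have : DD e₀ P (x + y) = DD e₀ P x + DD e₀ P y := by
      funext v
      simp only [DD, Pi.add_apply, mul_add, Finset.sum_add_distrib]
      ring
    rw [this]; exact Submodule.add_mem _ hx hy
  | smul c x _ hx =>
    have : DD e₀ P (c • x) = c • DD e₀ P x := by
      funext v
      simp only [DD, Pi.smul_apply, smul_eq_mul, Finset.mul_sum, mul_add]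
      refine Finset.sum_congr rfl fun a _ => Finset.sum_congr rfl fun i _ => ?_
      ring
    rw [this]; exact Submodule.smul_mem _ _ hx

end Pool.Agent.LM.T
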