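import Pool.Agent.Lib_helper51.LM.FftB

/-! Invariant multilinear forms: the theorem (after helper48's `OT/Fft3`). -/

set_option linter.unusedSectionVars false
set_option linter.unusedSimpArgs false

namespace Pool.Agent.LM.T

open Module Finset

variable {K : Type*} [Field K] [CharZero K]

section dual

variable {V : Type*} [AddCommGroup V] [Module K V] [FiniteDimensional K V]

theorem dual_sum1 (ω : LinearMap.BilinForm K V) (hω : ω.Nondegenerate) (y : V) :
    ∑ b, ω y (Module.finBasis K V b) • ω.dualBasis hω (Module.finBasis K V) b = y := by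
  have h1 : ∀ b, ω y (Module.finBasis K V b) = (ω.dualBasis hω (Module.finBasis K V)).repr y b := by
    intro b; rw [LinearMap.BilinForm.dualBasis_repr_apply]
  simp only [h1]
  exact (ω.dualBasis hω (Module.finBasis K V)).sum_repr y

theorem dual_pair (ω : LinearMap.BilinForm K V) (hω : ω.Nondegenerate) (i j) :
    ω (ω.dualBasis hω (Module.finBasis K V) i) (Module.finBasis K V j) = if j = i then 1 else 0 :=
  LinearMap.BilinForm.apply_dualBasis_left hω (Module.finBasis K V) i j

theorem dual_sum2 (ω : LinearMap.BilinForm K V) (hω : ω.Nondegenerate) (y : V) :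
    ∑ b, ω (ω.dualBasis hω (Module.finBasis K V) b) y • Module.finBasis K V b = y := by
  have h1 : ∀ b, ω (ω.dualBasis hω (Module.finBasis K V) b) y = (Module.finBasis K V).repr y b := by
    intro b
    conv_lhs => rw [← (Module.finBasis K V).sum_repr y]
    rw [map_sum]
    simp [dual_pair]
  simp only [h1]
  exact (Module.finBasis K V).sum_repr y

end dual

variable {ι : Type*} [Fintype ι] [DecidableEq ι] {W : ι → Type*} [∀ i, AddCommGroup (W i)]
  [∀ i, Module K (W i)] [∀ i, FiniteDimensional K (W i)]
variable {A : Type*} [Fintype A] [DecidableEq A]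
variable {ω : ∀ i, LinearMap.BilinForm K (W i)}

/-- Contraction. -/
noncomputable def kap (hω : ∀ i, (ω i).Nondegenerate) (i : ι) (a a' : A) (f : (A → ∀ i, W i) → K) :
    (A → ∀ i, W i) → K := fun v =>
  ∑ b, f (Function.update (Function.update v a (Pi.single i (Module.finBasis K (W i) b))) a'
    (Pi.single i ((ω i).dualBasis (hω i) (Module.finBasis K (W i)) b)))

theorem kap_pml (hω : ∀ i, (ω i).Nondegenerate) (i : ι) {a a' : A} (hne : a ≠ a')
    {P : Finset A} {f : (A → ∀ i, W i) → K} (hf : PML K P f) :
    PML K ((P.erase a).erase a') (kap hω i a a' f) := by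
  have comm : ∀ (v : A → ∀ i, W i) (a'' : A) (x y z : ∀ i, W i), a'' ≠ a → a'' ≠ a' →
      Function.update (Function.update (Function.update v a'' x) a y) a' z
        = Function.update (Function.update (Function.update v a y) a' z) a'' x := by
    intro v a'' x y z h1 h2
    rw [Function.update_comm h1, Function.update_comm h2]
  refine PML.sum Finset.univ fun b _ => ⟨?_, ?_, ?_⟩
  · intro a'' ha'' v x y
    rw [Finset.mem_erase, Finset.mem_erase] at ha''
    rw [comm _ _ _ _ _ ha''.2.1 ha''.1, comm _ _ _ _ _ ha''.2.1 ha''.1, comm _ _ _ _ _ ha''.2.1 ha''.1,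
      hf.add a'' ha''.2.2]
  · intro a'' ha'' v c x
    rw [Finset.mem_erase, Finset.mem_erase] at ha''
    rw [comm _ _ _ _ _ ha''.2.1 ha''.1, comm _ _ _ _ _ ha''.2.1 ha''.1, hf.smul a'' ha''.2.2]
  · intro a'' ha'' v x
    by_cases h1 : a'' = a
    · subst h1; rw [Function.update_idem]
    by_cases h2 : a'' = a'
    · subst h2
      rw [Function.update_comm hne.symm, Function.update_idem]
    have h3 : a'' ∉ P := fun h => ha'' (Finset.mem_erase.mpr ⟨h2, Finset.mem_erase.mpr ⟨h1, h⟩⟩)
    rw [comm _ _ _ _ _ h1 h2, hf.const a'' h3]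

theorem PML.sum_smul {V : Type*} [AddCommGroup V] [Module K V] {P : Finset A} {f : (A → V) → K}
    (h : PML K P f) {a : A} (ha : a ∈ P) (v : A → V) {J : Type*} (s : Finset J) (c : J → K) (x : J → V) :
    f (Function.update v a (∑ j ∈ s, c j • x j)) = ∑ j ∈ s, c j * f (Function.update v a (x j)) := by
  rw [← h.lin_apply ha, map_sum]
  refine Finset.sum_congr rfl fun j _ => ?_
  rw [map_smul, smul_eq_mul, h.lin_apply]

theorem single_sum_smul (i : ι) {J : Type*} (s : Finset J) (c : J → K) (x : J → W i) :
    (Pi.single i (∑ j ∈ s, c j • x j) : ∀ i, W i) = ∑ j ∈ s, c j • Pi.single i (x j) := by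
  classical
  induction s using Finset.induction_on with
  | empty => simp
  | insert j s hj ih => rw [Finset.sum_insert hj, Finset.sum_insert hj, Pi.single_add, ih, Pi.single_smul]

theorem kap_inv (hω : ∀ i, (ω i).Nondegenerate) (i : ι) {a a' : A} (hne : a ≠ a')
    {P : Finset A} (ha : a ∈ P) (ha' : a' ∈ P) {f : (A → ∀ i, W i) → K} (hf : PML K P f)
    (hI : Inv ω P f) : Inv ω ((P.erase a).erase a') (kap hω i a a' f) := by
  intro i' x hx v
  obtain ⟨e, he⟩ : ∃ e, e = Module.finBasis K (W i) := ⟨_, rfl⟩
  obtain ⟨e', he'⟩ : ∃ e', e' = (ω i).dualBasis (hω i) (Module.finBasis K (W i)) := ⟨_, rfl⟩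
  obtain ⟨u, hu⟩ : ∃ u : _ → (A → ∀ i, W i), u = fun b => Function.update
    (Function.update v a (Pi.single i (e b))) a' (Pi.single i (e' b)) := ⟨_, rfl⟩
  have comm : ∀ (v : A → ∀ i, W i) (a'' : A) (x y z : ∀ i, W i), a'' ≠ a → a'' ≠ a' →
      Function.update (Function.update (Function.update v a'' x) a y) a' z
        = Function.update (Function.update (Function.update v a y) a' z) a'' x := by
    intro v a'' x y z h1 h2
    rw [Function.update_comm h1, Function.update_comm h2]
  have h1 : ∑ a'' ∈ (P.erase a).erase a', kap hω i a a' f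
      (Function.update v a'' (Pi.single i' (x (v a'' i'))))
      = ∑ b, ∑ a'' ∈ (P.erase a).erase a', f (Function.update (u b) a'' (Pi.single i' (x (u b a'' i')))) := by
    rw [Finset.sum_comm]
    refine Finset.sum_congr rfl fun a'' ha'' => ?_
    rw [Finset.mem_erase, Finset.mem_erase] at ha''
    unfold kap
    rw [← he', ← he]
    refine Finset.sum_congr rfl fun b _ => ?_
    rw [comm _ _ _ _ _ ha''.2.1 ha''.1]
    have : u b a'' = v a'' := by
      rw [hu]
      simp only [Function.update_of_ne ha''.1, Function.update_of_ne ha''.2.1]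
    rw [this, hu]
  have ha'2 : a' ∈ P.erase a := Finset.mem_erase.mpr ⟨hne.symm, ha'⟩
  have h2 : ∀ b, ∑ a'' ∈ (P.erase a).erase a', f (Function.update (u b) a'' (Pi.single i' (x (u b a'' i'))))
      = -(f (Function.update (u b) a (Pi.single i' (x (u b a i'))))
        + f (Function.update (u b) a' (Pi.single i' (x (u b a' i'))))) := by
    intro b
    have h3 := hI i' x hx (u b)
    rw [← Finset.add_sum_erase P _ ha, ← Finset.add_sum_erase (P.erase a) _ ha'2] at h3
    linear_combination h3
  have ua : ∀ b, u b a = Pi.single i (e b) := by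
    intro b; rw [hu]; simp only [Function.update_of_ne hne, Function.update_self]
  have ua' : ∀ b, u b a' = Pi.single i (e' b) := by
    intro b; rw [hu]; simp only [Function.update_self]
  rw [h1]
  simp only [h2]
  rw [Finset.sum_neg_distrib, neg_eq_zero, Finset.sum_add_distrib]
  have g1 : ∀ b Y, Function.update (u b) a Y = Function.update (Function.update v a' (Pi.single i (e' b))) a Y := by
    intro b Y
    rw [hu]
    simp only
    rw [Function.update_comm hne, Function.update_idem]
  have g2 : ∀ b Z, Function.update (u b) a' Z = Function.update (Function.update v a (Pi.single i (e b))) a' Z := by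
    intro b Z
    rw [hu]
    simp only
    rw [Function.update_idem]
  simp only [ua, ua', g1, g2]
  by_cases hii : i' = i
  · subst hii
    simp only [Pi.single_eq_same]
    have x1 : ∀ b, f (Function.update (Function.update v a' (Pi.single i' (e' b))) a (Pi.single i' (x (e b))))
        = ∑ c, ω i' (e' c) (x (e b)) * f (Function.update (Function.update v a' (Pi.single i' (e' b))) a
          (Pi.single i' (e c))) := by
      intro b
      have := dual_sum2 (ω i') (hω i') (x (e b))
      rw [← he', ← he] at this
      conv_lhs => rw [← this]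
      rw [single_sum_smul, hf.sum_smul ha]
    have x2 : ∀ b, f (Function.update (Function.update v a (Pi.single i' (e b))) a' (Pi.single i' (x (e' b))))
        = ∑ c, ω i' (x (e' b)) (e c) * f (Function.update (Function.update v a (Pi.single i' (e b))) a'
          (Pi.single i' (e' c))) := by
      intro b
      have := dual_sum1 (ω i') (hω i') (x (e' b))
      rw [← he'] at this
      rw [← he] at this
      conv_lhs => rw [← this]
      rw [single_sum_smul, hf.sum_smul ha']
    simp only [x1, x2]
    rw [add_comm, Finset.sum_comm]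
    rw [← Finset.sum_add_distrib]
    refine Finset.sum_eq_zero fun b _ => ?_
    rw [← Finset.sum_add_distrib]
    refine Finset.sum_eq_zero fun c _ => ?_
    rw [hx, Function.update_comm hne]
    ring
  · have z1 : ∀ y : W i, (Pi.single i y : ∀ i, W i) i' = 0 := by
      intro y; exact Pi.single_eq_of_ne hii y
    simp only [z1, map_zero, Pi.single_zero, hf.zero ha, hf.zero ha', Finset.sum_const_zero, add_zero]

/-- The elementary skew operators. -/
noncomputable def elt {V : Type*} [AddCommGroup V] [Module K V] (ω : LinearMap.BilinForm K V) (c : K)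
    (u w : V) : Module.End K V :=
  (ω u).smulRight w - c • (ω w).smulRight u

theorem elt_apply {V : Type*} [AddCommGroup V] [Module K V] (ω : LinearMap.BilinForm K V) (c : K)
    (u w x : V) : elt ω c u w x = ω u x • w - (c * ω w x) • u := by
  simp [elt, smul_smul]

theorem sk_elt {V : Type*} [AddCommGroup V] [Module K V] {ω : LinearMap.BilinForm K V} {c : K}
    (hc : c * c = 1) (hs : ∀ v w, ω v w = c * ω w v) (u w : V) : Sk ω (elt ω c u w) := by
  intro x y
  simp only [elt_apply, map_sub, map_smul, LinearMap.sub_apply, LinearMap.smul_apply, smul_eq_mul]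
  rw [hs x w, hs x u]
  linear_combination (-(ω w y * ω u x)) * hc

/-- The fundamental identity in one position. -/
theorem ident (hω : ∀ i, (ω i).Nondegenerate) (e₀ : ι → ℤ) (he₀ : ∀ i, e₀ i = 1 ∨ e₀ i = -1)
    (hs : ∀ i v w, ω i v w = (e₀ i : K) * ω i w v) (i : ι)
    {P : Finset A} {a : A} (ha : a ∈ P) {f : (A → ∀ i, W i) → K} (hf : PML K P f)
    (hI : Inv ω P f) (v : A → ∀ i, W i) :
    ((((finrank K (W i) : ℕ) : ℤ) - e₀ i : ℤ) : K) * f (Function.update v a (Pi.single i (v a i)))
    + ∑ a' ∈ P.erase a, f (Function.update (Function.update v a (Pi.single i (v a' i))) a'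
        (Pi.single i (v a i)))
    = ∑ a' ∈ P.erase a, (e₀ i : K) * (ω i (v a i) (v a' i) * kap hω i a a' f v) := by
  obtain ⟨e, he⟩ : ∃ e, e = Module.finBasis K (W i) := ⟨_, rfl⟩
  obtain ⟨e', he'⟩ : ∃ e', e' = (ω i).dualBasis (hω i) (Module.finBasis K (W i)) := ⟨_, rfl⟩
  have hcc : (e₀ i : K) * (e₀ i : K) = 1 := by
    rcases he₀ i with h | h <;> rw [h] <;> norm_num
  have hd : ∀ b, ω i (e' b) (e b) = 1 := by
    intro b; rw [he, he', dual_pair, if_pos rfl]
  have s1 : ∀ y, ∑ b, ω i y (e b) • e' b = y := by
    intro y; rw [he, he']; exact dual_sum1 (ω i) (hω i) y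
  have s2 : ∀ y, ∑ b, ω i (e' b) y • e b = y := by
    intro y; rw [he, he']; exact dual_sum2 (ω i) (hω i) y
  have h0 : ∑ b, ∑ a' ∈ P, f (Function.update (Function.update v a (Pi.single i (e b))) a'
      (Pi.single i (elt (ω i) (e₀ i : K) (e' b) (v a i)
        ((Function.update v a (Pi.single i (e b))) a' i)))) = 0 :=
    Finset.sum_eq_zero fun b _ => hI i _ (sk_elt hcc (hs i) _ _) _
  have hsub : ∀ (u : A → ∀ i, W i) (x : A) (hx : x ∈ P) (p q : ∀ i, W i),
      f (Function.update u x (p - q)) = f (Function.update u x p) - f (Function.update u x q) := by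
    intro u x hx p q
    rw [← hf.lin_apply hx, ← hf.lin_apply hx, ← hf.lin_apply hx, map_sub]
  have h1 : ∀ b, ∑ a' ∈ P, f (Function.update (Function.update v a (Pi.single i (e b))) a'
      (Pi.single i (elt (ω i) (e₀ i : K) (e' b) (v a i)
        ((Function.update v a (Pi.single i (e b))) a' i))))
      = (f (Function.update v a (Pi.single i (v a i)))
          - (e₀ i : K) * (ω i (v a i) (e b) * f (Function.update v a (Pi.single i (e' b)))))
        + ∑ a' ∈ P.erase a, (ω i (e' b) (v a' i) * f (Function.update (Function.update v a'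
            (Pi.single i (v a i))) a (Pi.single i (e b)))
          - (e₀ i : K) * (ω i (v a i) (v a' i) * f (Function.update (Function.update v a
            (Pi.single i (e b))) a' (Pi.single i (e' b))))) := by
    intro b
    rw [← Finset.add_sum_erase P _ ha]
    congr 1
    · rw [Function.update_idem, Function.update_self, Pi.single_eq_same, elt_apply, hd, one_smul,
        Pi.single_sub, hsub _ _ ha, Pi.single_smul, hf.smul a ha, mul_assoc]
    · refine Finset.sum_congr rfl fun a' ha' => ?_
      have hne := (Finset.mem_erase.mp ha').1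
      have ha'P := (Finset.mem_erase.mp ha').2
      rw [Function.update_of_ne hne, elt_apply, Pi.single_sub, hsub _ _ ha'P, Pi.single_smul,
        hf.smul a' ha'P, Pi.single_smul, hf.smul a' ha'P, Function.update_comm hne.symm, mul_assoc]
  simp only [h1] at h0
  rw [Finset.sum_add_distrib, Finset.sum_sub_distrib, Finset.sum_const, nsmul_eq_mul, Finset.card_univ,
    Fintype.card_fin, Finset.sum_comm, ← Finset.mul_sum] at h0
  have h2 : ∑ b, ω i (v a i) (e b) * f (Function.update v a (Pi.single i (e' b)))
      = f (Function.update v a (Pi.single i (v a i))) := by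
    rw [← hf.sum_smul ha, ← single_sum_smul, s1]
  rw [h2] at h0
  have h3 : ∀ a' ∈ P.erase a, ∑ b, (ω i (e' b) (v a' i) * f (Function.update (Function.update v a'
            (Pi.single i (v a i))) a (Pi.single i (e b)))
          - (e₀ i : K) * (ω i (v a i) (v a' i) * f (Function.update (Function.update v a
            (Pi.single i (e b))) a' (Pi.single i (e' b)))))
      = f (Function.update (Function.update v a (Pi.single i (v a' i))) a' (Pi.single i (v a i)))
        - (e₀ i : K) * (ω i (v a i) (v a' i) * kap hω i a a' f v) := by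
    intro a' ha'
    have hne := (Finset.mem_erase.mp ha').1
    rw [Finset.sum_sub_distrib]
    congr 1
    · rw [← hf.sum_smul ha, ← single_sum_smul, s2, Function.update_comm hne.symm]
    · rw [← Finset.mul_sum, ← Finset.mul_sum, kap, he, he']
  rw [Finset.sum_congr rfl h3, Finset.sum_sub_distrib] at h0
  push_cast
  linear_combination h0

theorem const_all {X : Type*} {f : (A → X) → K}
    (h : ∀ a v x, f (Function.update v a x) = f v) (v w : A → X) : f v = f w := by
  have key : ∀ Q : Finset A, f (fun a => if a ∈ Q then w a else v a) = f v := by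
    intro Q
    induction Q using Finset.induction_on with
    | empty => simp
    | insert a Q ha ih =>
      rw [← ih, ← h a (fun a => if a ∈ Q then w a else v a) (w a)]
      congr 1
      funext x
      by_cases hx : x = a
      · subst hx; simp
      · rw [Function.update_of_ne hx]; simp [hx]
  have := key Finset.univ
  simp only [Finset.mem_univ, if_true] at this
  exact this.symm

theorem card_fibre [DecidableEq (Σ i, Fin (finrank K (W i)))] (b₀ : Σ i, Fin (finrank K (W i))) :
    (univ.filter (fun b : (Σ i, Fin (finrank K (W i))) => b.1 = b₀.1)).card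
      = finrank K (W b₀.1) := by
  have : (univ.filter (fun b : (Σ i, Fin (finrank K (W i))) => b.1 = b₀.1))
      = (univ : Finset (Fin (finrank K (W b₀.1)))).map
        ⟨fun k => (⟨b₀.1, k⟩ : Σ i, Fin (finrank K (W i))),
          fun _ _ h => eq_of_heq (Sigma.mk.inj h).2⟩ := by
    ext ⟨i, k⟩
    simp only [mem_filter, mem_univ, true_and, mem_map, Function.Embedding.coeFn_mk]
    constructor
    · intro h
      have h' : i = b₀.1 := h
      subst h'
      exact ⟨k, rfl⟩
    · rintro ⟨k', hk⟩
      exact (congrArg Sigma.fst hk).symm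
  rw [this, Finset.card_map, Finset.card_univ, Fintype.card_fin]

theorem ev_DD (e₀ : ι → ℤ) [DecidableEq (Σ i, Fin (finrank K (W i)))] {P : Finset A} {f : (A → ∀ i, W i) → K}
    (hf : PML K P f) (β : A → Σ i, Fin (finrank K (W i))) :
    DD e₀ P f (fun a => Pi.basis (fun i => Module.finBasis K (W i)) (β a))
      = Dc e₀ (fun b : (Σ i, Fin (finrank K (W i))) => b.1) P
        (fun β => f (fun a => Pi.basis (fun i => Module.finBasis K (W i)) (β a))) β := by
  obtain ⟨e, he⟩ : ∃ e, e = Pi.basis (fun i => Module.finBasis K (W i)) := ⟨_, rfl⟩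
  rw [← he]
  have hs : ∀ b i, (Pi.single i (e b i) : ∀ i, W i) = if i = b.1 then e b else 0 := by
    intro b i
    rw [he, Pi.basis_apply]
    split_ifs with h
    · subst h; rw [Pi.single_eq_same]
    · rw [Pi.single_eq_of_ne h, Pi.single_zero]
  unfold DD Dc
  refine Finset.sum_congr rfl fun a ha => ?_
  rw [Finset.sum_add_distrib]
  congr 1
  · rw [Finset.sum_eq_single (β a).1]
    · rw [hs, if_pos rfl, Function.update_eq_self, card_fibre]
    · intro i _ hi
      rw [hs, if_neg hi, hf.zero ha, mul_zero]
    · intro h; exact absurd (Finset.mem_univ _) h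
  · rw [Finset.sum_comm]
    refine Finset.sum_congr rfl fun a' ha' => ?_
    have hne := (Finset.mem_erase.mp ha').1
    have ha'P := (Finset.mem_erase.mp ha').2
    split_ifs with hc
    · rw [Finset.sum_eq_single (β a).1]
      · rw [hs, hs, if_pos rfl, if_pos hc]
        congr 1
        funext x
        by_cases h1 : x = a'
        · subst h1
          rw [Function.update_self, Function.comp_apply, Equiv.swap_apply_right]
        · rw [Function.update_of_ne h1]
          by_cases h2 : x = a
          · subst h2
            rw [Function.update_self, Function.comp_apply, Equiv.swap_apply_left]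
          · rw [Function.update_of_ne h2, Function.comp_apply, Equiv.swap_apply_of_ne_of_ne h2 h1]
      · intro i _ hi
        rw [hs (β a), if_neg hi, hf.zero ha'P]
      · intro h; exact absurd (Finset.mem_univ _) h
    · refine Finset.sum_eq_zero fun i _ => ?_
      rw [hs, hs]
      by_cases h1 : i = (β a).1
      · have h2 : i ≠ (β a').1 := fun h => hc (h1.symm.trans h)
        rw [if_neg h2, Function.update_comm hne.symm, hf.zero ha]
      · rw [if_neg h1, hf.zero ha'P]

/-- First fundamental theorem for a product of symplectic (`e₀ i = -1`) and orthogonal (`e₀ i = 1`)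
Lie algebras; the number of arguments is less than the dimensions of the orthogonal ones. -/
theorem fft (hω : ∀ i, (ω i).Nondegenerate) (e₀ : ι → ℤ) (he₀ : ∀ i, e₀ i = 1 ∨ e₀ i = -1)
    (hs : ∀ i v w, ω i v w = (e₀ i : K) * ω i w v) (n : ℕ)
    (hn : ∀ i, e₀ i = 1 → n < finrank K (W i)) :
    ∀ (P : Finset A), P.card = n → ∀ f : (A → ∀ i, W i) → K, PML K P f → Inv ω P f → f ∈ S ω P := by
  classical
  induction n using Nat.strong_induction_on with
  | _ n ih =>
  intro P hPn f hf hI
  rcases P.eq_empty_or_nonempty with rfl | hP
  · -- constant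
    have : f = f 0 • (fun _ => 1) := by
      funext v
      rw [Pi.smul_apply, smul_eq_mul, mul_one]
      exact const_all (fun a v x => hf.const a (Finset.notMem_empty a) v x) v 0
    rw [this]
    exact Submodule.smul_mem _ _ (Submodule.subset_span Pairing.one)
  -- the right side
  have hD : DD e₀ P f ∈ S ω P := by
    have e : DD e₀ P f = ∑ a ∈ P, ∑ i, ∑ a' ∈ P.erase a, (e₀ i : K) • (fun v : A → ∀ i, W i =>
        ω i (v a i) (v a' i) * kap hω i a a' f v) := by
      funext v
      simp only [DD, Finset.sum_apply, Pi.smul_apply, smul_eq_mul]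
      exact Finset.sum_congr rfl fun a ha => Finset.sum_congr rfl fun i _ =>
        ident hω e₀ he₀ hs i ha hf hI v
    rw [e]
    refine Submodule.sum_mem _ fun a ha => Submodule.sum_mem _ fun i _ => Submodule.sum_mem _
      fun a' ha' => Submodule.smul_mem _ _ ?_
    have hne := (Finset.mem_erase.mp ha').1
    have ha'P := (Finset.mem_erase.mp ha').2
    have hlt : ((P.erase a).erase a').card < n := by
      rw [← hPn]
      exact lt_of_lt_of_le (Finset.card_erase_lt_of_mem ha') (Finset.card_erase_le)
    have hk := ih ((P.erase a).erase a').card hlt (fun i hi => hlt.trans (hn i hi)) _ rfl _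
      (kap_pml hω i hne.symm hf) (kap_inv hω i hne.symm ha ha'P hf hI)
    have := S_mul hk i hne.symm (by simp) (by simp)
    have hins : insert a (insert a' ((P.erase a).erase a')) = P := by
      rw [Finset.insert_erase ha', Finset.insert_erase ha]
    rwa [hins] at this
  by_cases hB : Nonempty (Σ i, Fin (finrank K (W i)))
  · -- coordinates
    let ev : ((A → ∀ i, W i) → K) →ₗ[K] ((A → Σ i, Fin (finrank K (W i))) → K) :=
      { toFun := fun f β => f (fun a => Pi.basis (fun i => Module.finBasis K (W i)) (β a))
        map_add' := fun _ _ => rfl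
        map_smul' := fun _ _ => rfl }
    let D : ((A → Σ i, Fin (finrank K (W i))) → K) →ₗ[K] ((A → Σ i, Fin (finrank K (W i))) → K) :=
      { toFun := fun F => Dc e₀ (fun b : (Σ i, Fin (finrank K (W i))) => b.1) P F
        map_add' := by
          intro F G
          funext β
          simp only [Dc, Pi.add_apply, mul_add, Finset.sum_add_distrib]
          have : ∀ a, (∑ a' ∈ P.erase a, if (β a).1 = (β a').1 then F (β ∘ Equiv.swap a a')
              + G (β ∘ Equiv.swap a a') else 0)
              = (∑ a' ∈ P.erase a, if (β a).1 = (β a').1 then F (β ∘ Equiv.swap a a') else 0)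
              + (∑ a' ∈ P.erase a, if (β a).1 = (β a').1 then G (β ∘ Equiv.swap a a') else 0) := by
            intro a
            rw [← Finset.sum_add_distrib]
            refine Finset.sum_congr rfl fun a' _ => ?_
            split_ifs <;> simp
          simp only [this, Finset.sum_add_distrib]
          ring
        map_smul' := by
          intro c F
          funext β
          simp only [Dc, Pi.smul_apply, smul_eq_mul, RingHom.id_apply, Finset.mul_sum, mul_add]
          refine Finset.sum_congr rfl fun a _ => ?_
          congr 1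
          · ring
          · refine Finset.sum_congr rfl fun a' _ => ?_
            split_ifs <;> simp }
    have hDinj : ∀ F, D F = 0 → F = 0 := fun F hF =>
      funext (Dc_inj e₀ he₀ (fun b : (Σ i, Fin (finrank K (W i))) => b.1) P hP
        (fun b hb => by rw [card_fibre, hPn]; exact hn _ hb) F (fun β => congrFun hF β))
    have hev : ∀ g, PML K P g → ev (DD e₀ P g) = D (ev g) := by
      intro g hg
      funext β
      exact ev_DD e₀ hg β
    -- D restricts to a bijection of the image of S
    let S' := (S ω P).map ev
    have hS' : ∀ F ∈ S', D F ∈ S' := by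
      rintro _ ⟨g, hg, rfl⟩
      rw [← hev g (S_pml hg)]
      exact Submodule.mem_map_of_mem (DD_S e₀ hg)
    have hinj : Function.Injective (D.restrict hS') := by
      rw [← LinearMap.ker_eq_bot, LinearMap.ker_eq_bot']
      rintro ⟨F, hF⟩ h
      exact Subtype.ext (hDinj F (congrArg Subtype.val h))
    have hsurj := LinearMap.surjective_of_injective hinj
    obtain ⟨⟨_, ⟨g, hg, rfl⟩⟩, hgD⟩ := hsurj ⟨D (ev f), by
      rw [← hev f hf]; exact Submodule.mem_map_of_mem hD⟩
    have h1 : D (ev g) = D (ev f) := congrArg Subtype.val hgD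
    have h2 : ev g = ev f := by
      have := hDinj (ev g - ev f) (by rw [map_sub, h1, sub_self])
      exact sub_eq_zero.mp this
    have h3 : g = f := PML.ext (Pi.basis (fun i => Module.finBasis K (W i))) (S_pml hg) hf
      (fun β => congrFun h2 β)
    rw [← h3]; exact hg
  · -- the space is zero
    have hz : ∀ v : ∀ i, W i, v = 0 := by
      intro v
      have : IsEmpty (Σ i, Fin (finrank K (W i))) := not_nonempty_iff.mp hB
      have := (Pi.basis (fun i => Module.finBasis K (W i))).sum_repr v
      rw [← this]
      simp
    obtain ⟨a, ha⟩ := hP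
    have : f = 0 := by
      funext v
      have h1 := hf.zero ha v
      rw [← hz (v a), Function.update_eq_self] at h1
      exact h1
    rw [this]
    exact Submodule.zero_mem _

end Pool.Agent.LM.T
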